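import Pool.Agent.Work.MP_f63b47_lc.Defs

/-!
The tree `ℍ_j` is not contained in a disjoint union of 8-suns when `j ≥ 6`.
-/

set_option autoImplicit false

namespace Pool.Agent.Work.MP_f63b47_lc

theorem suns_adj_pos {x y : ℕ × Fin 8 × ℕ} (h : Suns.Adj x y) (hx : 0 < x.2.2) :
    y = (x.1, x.2.1, x.2.2 - 1) ∨ y = (x.1, x.2.1, x.2.2 + 1) := by
  obtain ⟨h1, h2⟩ := h
  obtain ⟨a, i, s⟩ := x
  obtain ⟨b, k, t⟩ := y
  simp only at h1 h2 hx ⊢
  rcases h2 with ⟨h3, -⟩ | ⟨h3, h4⟩
  · omega
  · subst h1; subst h3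
    rcases h4 with h4 | h4
    · right; rw [h4]
    · left; rw [h4]; simp

theorem suns_adj_up {x y : ℕ × Fin 8 × ℕ} (h : Suns.Adj x y) (hx : x.2.2 = 0)
    (hy : 0 < y.2.2) : y = (x.1, x.2.1, 1) := by
  obtain ⟨h1, h2⟩ := h
  obtain ⟨a, i, s⟩ := x
  obtain ⟨b, k, t⟩ := y
  simp only at h1 h2 hx hy ⊢
  rcases h2 with ⟨h3, h4, -⟩ | ⟨h3, h4⟩
  · omega
  · subst h1; subst h3
    rcases h4 with h4 | h4
    · subst hx; rw [h4]
    · omega

theorem suns_three {x y z w : ℕ × Fin 8 × ℕ} (h1 : Suns.Adj x y) (h2 : Suns.Adj x z)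
    (h3 : Suns.Adj x w) (n1 : y ≠ z) (n2 : y ≠ w) (n3 : z ≠ w) : x.2.2 = 0 := by
  by_contra h0
  have hp : 0 < x.2.2 := Nat.pos_of_ne_zero h0
  rcases suns_adj_pos h1 hp with a | a <;> rcases suns_adj_pos h2 hp with b | b <;>
    rcases suns_adj_pos h3 hp with c | c
  all_goals first
    | exact n1 (a.trans b.symm)
    | exact n2 (a.trans c.symm)
    | exact n3 (b.trans c.symm)

theorem htree_free {j : ℕ} (hj : 6 ≤ j) : (HTree j).Free Suns := by
  rintro ⟨f⟩
  have finj : ∀ (a b : ℕ) (ha : a < j + 5) (hb : b < j + 5), a ≠ b → f ⟨a, ha⟩ ≠ f ⟨b, hb⟩ := by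
    intro a b ha hb hab he
    have := f.injective he
    exact hab (by simpa using this)
  have fadj : ∀ (a b : ℕ) (ha : a < j + 5) (hb : b < j + 5),
      (a + 1 = b ∧ b ≤ j) ∨ (a = 0 ∧ (b = j + 1 ∨ b = j + 2)) ∨
        (a = j ∧ (b = j + 3 ∨ b = j + 4)) → Suns.Adj (f ⟨a, ha⟩) (f ⟨b, hb⟩) := by
    intro a b ha hb hab
    apply f.toHom.map_adj
    rw [HTree, SimpleGraph.fromRel_adj]
    refine ⟨?_, Or.inl hab⟩
    intro he
    have : a = b := by simpa using he
    omega
  have h0 : (f ⟨0, by omega⟩).2.2 = 0 := by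
    refine suns_three (fadj 0 1 (by omega) (by omega) (by omega))
      (fadj 0 (j + 1) (by omega) (by omega) (by omega))
      (fadj 0 (j + 2) (by omega) (by omega) (by omega)) ?_ ?_ ?_
    all_goals (apply finj; omega)
  have hjj : (f ⟨j, by omega⟩).2.2 = 0 := by
    refine suns_three (fadj (j - 1) j (by omega) (by omega) (by omega)).symm
      (fadj j (j + 3) (by omega) (by omega) (by omega))
      (fadj j (j + 4) (by omega) (by omega) (by omega)) ?_ ?_ ?_
    all_goals (apply finj; omega)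
  -- all path vertices have height zero
  have hall : ∀ k (hk : k < j + 1), (f ⟨k, by omega⟩).2.2 = 0 := by
    obtain ⟨k, hk⟩ := Finite.exists_max (fun k : Fin (j + 1) => (f ⟨k, by omega⟩).2.2)
    have hz : (f ⟨k, by omega⟩).2.2 = 0 := by
      by_contra hne
      have hp : 0 < (f ⟨k, by omega⟩).2.2 := Nat.pos_of_ne_zero hne
      have hk0 : (k : ℕ) ≠ 0 := by
        intro h
        apply hne
        simpa [h] using h0
      have hkj : (k : ℕ) ≠ j := by
        intro h
        apply hne
        simpa [h] using hjj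
      have hk2 := k.2
      have a1 := fadj (k - 1) k (by omega) (by omega) (by omega)
      have a2 := fadj k (k + 1) (by omega) (by omega) (by omega)
      have m1 := hk ⟨k - 1, by omega⟩
      have m2 := hk ⟨k + 1, by omega⟩
      simp only at m1 m2
      have e1 := suns_adj_pos a1.symm hp
      have e2 := suns_adj_pos a2 hp
      have e1' := e1.resolve_right (by
        intro h
        rw [h] at m1
        simp only at m1
        omega)
      have e2' := e2.resolve_right (by
        intro h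
        rw [h] at m2
        simp only at m2
        omega)
      exact finj (k - 1) (k + 1) (by omega) (by omega) (by omega) (e1'.trans e2'.symm)
    intro i hi
    have := hk ⟨i, hi⟩
    simp only at this
    omega
  -- all in the same octagon
  have hsame : ∀ k (hk : k < j + 1), (f ⟨k, by omega⟩).1 = (f ⟨0, by omega⟩).1 := by
    intro k
    induction k with
    | zero => intro _; rfl
    | succ k ih =>
      intro hk
      rw [← ih (by omega)]
      exact (fadj k (k + 1) (by omega) (by omega) (by omega)).1.symm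
  -- a leaf of height zero at each end
  obtain ⟨u, hu, hu5, hu0⟩ : ∃ u, (u = j + 1 ∨ u = j + 2) ∧ ∃ h : u < j + 5,
      (f ⟨u, h⟩).2.2 = 0 := by
    by_contra hcon
    push Not at hcon
    have p1 := Nat.pos_of_ne_zero (hcon (j + 1) (Or.inl rfl) (by omega))
    have p2 := Nat.pos_of_ne_zero (hcon (j + 2) (Or.inr rfl) (by omega))
    have q1 := suns_adj_up (fadj 0 (j + 1) (by omega) (by omega) (by omega)) h0 p1
    have q2 := suns_adj_up (fadj 0 (j + 2) (by omega) (by omega) (by omega)) h0 p2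
    exact finj (j + 1) (j + 2) (by omega) (by omega) (by omega) (q1.trans q2.symm)
  obtain ⟨w, hw, hw5, hw0⟩ : ∃ w, (w = j + 3 ∨ w = j + 4) ∧ ∃ h : w < j + 5,
      (f ⟨w, h⟩).2.2 = 0 := by
    by_contra hcon
    push Not at hcon
    have p1 := Nat.pos_of_ne_zero (hcon (j + 3) (Or.inl rfl) (by omega))
    have p2 := Nat.pos_of_ne_zero (hcon (j + 4) (Or.inr rfl) (by omega))
    have q1 := suns_adj_up (fadj j (j + 3) (by omega) (by omega) (by omega)) hjj p1
    have q2 := suns_adj_up (fadj j (j + 4) (by omega) (by omega) (by omega)) hjj p2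
    exact finj (j + 3) (j + 4) (by omega) (by omega) (by omega) (q1.trans q2.symm)
  have hu1 : (f ⟨u, hu5⟩).1 = (f ⟨0, by omega⟩).1 :=
    (fadj 0 u (by omega) hu5 (by omega)).1.symm
  have hw1 : (f ⟨w, hw5⟩).1 = (f ⟨0, by omega⟩).1 := by
    rw [← hsame j (by omega)]
    exact (fadj j w (by omega) hw5 (by omega)).1.symm
  -- the index function
  have hidx : ∀ k : Fin (j + 3), (if (k : ℕ) ≤ j then (k : ℕ) else if (k : ℕ) = j + 1 then u else w)
      < j + 5 := by
    intro k
    split_ifs <;> omega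
  let g : Fin (j + 3) → Fin 8 := fun k =>
    (f ⟨if (k : ℕ) ≤ j then (k : ℕ) else if (k : ℕ) = j + 1 then u else w, hidx k⟩).2.1
  have hprop : ∀ k : Fin (j + 3),
      (f ⟨if (k : ℕ) ≤ j then (k : ℕ) else if (k : ℕ) = j + 1 then u else w, hidx k⟩).1
        = (f ⟨0, by omega⟩).1 ∧
      (f ⟨if (k : ℕ) ≤ j then (k : ℕ) else if (k : ℕ) = j + 1 then u else w, hidx k⟩).2.2 = 0 := by
    intro k
    by_cases h1 : (k : ℕ) ≤ j
    · simp only [h1, if_true]
      exact ⟨hsame k (by omega), hall k (by omega)⟩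
    · by_cases h2 : (k : ℕ) = j + 1
      · have h3 : ¬ (j + 1 ≤ j) := by omega
        simp only [h2, h3, if_true, if_false]
        exact ⟨hu1, hu0⟩
      · simp only [h1, h2, if_false]
        exact ⟨hw1, hw0⟩
  have hg : Function.Injective g := by
    intro a b hab
    have ha := hprop a
    have hb := hprop b
    by_contra hne
    have hne' : (a : ℕ) ≠ b := fun h => hne (Fin.ext h)
    refine finj _ _ (hidx a) (hidx b) ?_ ?_
    · have := a.2
      have := b.2
      split_ifs <;> omega
    · refine Prod.ext (ha.1.trans hb.1.symm) (Prod.ext hab (ha.2.trans hb.2.symm))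
  have hcard := Fintype.card_le_of_injective g hg
  simp only [Fintype.card_fin] at hcard
  omega

end Pool.Agent.Work.MP_f63b47_lc
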