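import Pool.Agent.Work.MP_f63b47_lc.SubDefs
import Pool.Agent.Work.MP_f63b47_lc.HT

/-!
Trees which are not contained in disjoint unions of suns with gadgets.
-/

set_option autoImplicit false

namespace Pool.Agent.Work.MP_f63b47_lc

open SimpleGraph

/-- The gadget with one vertex. -/
def oneGadget : Gadget where
  r := 1
  F := ⊥
  a := 0
  b := 0
  c := 0
  ha := ⟨Walk.nil, by
    intro v
    have : v = 0 := Subsingleton.elim _ _
    rw [this]
    simp⟩
  hb := ⟨Walk.nil, by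
    intro v
    have : v = 0 := Subsingleton.elim _ _
    rw [this]
    simp⟩

/-- The triangle. -/
def triGadget : Gadget where
  r := 3
  F := ⊤
  a := 0
  b := 1
  c := 2
  ha := ⟨Walk.cons (v := (1 : Fin 3)) (by decide) (Walk.cons (v := (2 : Fin 3)) (by decide)
    Walk.nil), by intro v; fin_cases v <;> rfl⟩
  hb := ⟨Walk.cons (v := (0 : Fin 3)) (by decide) (Walk.cons (v := (2 : Fin 3)) (by decide)
    Walk.nil), by intro v; fin_cases v <;> rfl⟩

theorem gsuns_one : GSuns (fun _ => oneGadget) = Suns := by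
  ext ⟨n, p, s⟩ ⟨m, q, t⟩
  simp only [GSuns, Suns, OctE, Gadget.Ray, oneGadget, Fin.val_eq_zero, bot_adj, exists_false,
    false_or, and_congr_right_iff]
  intro _
  constructor
  · rintro (⟨h1, h2, h3⟩ | ⟨h1, h2, h3⟩ | ⟨h1, h2⟩)
    · exact Or.inl ⟨h2, h3, Or.inl h1⟩
    · exact Or.inl ⟨h3, h2, Or.inr h1⟩
    · exact Or.inr ⟨h1, by omega⟩
  · rintro (⟨h1, h2, h3 | h3⟩ | ⟨h1, h2⟩)
    · exact Or.inl ⟨h3, h1, h2⟩
    · exact Or.inr (Or.inl ⟨h3, h2, h1⟩)
    · exact Or.inr (Or.inr ⟨h1, by omega⟩)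

/-- The neighbours of a vertex on a path. -/
theorem gsuns_adj_pos (G : Fin 8 → Gadget) {x y : ℕ × Fin 8 × ℕ} (h : (GSuns G).Adj x y)
    (hx : (G x.2.1).r ≤ x.2.2) :
    (y.1 = x.1 ∧ y.2.1 = x.2.1 ∧ ((x.2.2 = (G x.2.1).r ∧ y.2.2 = (G x.2.1).c) ∨
      ((G x.2.1).r < x.2.2 ∧ y.2.2 + 1 = x.2.2))) ∨ y = (x.1, x.2.1, x.2.2 + 1) := by
  obtain ⟨n, p, s⟩ := x
  obtain ⟨m, q, t⟩ := y
  obtain ⟨h1, h2⟩ := h
  simp only at h1 h2 hx ⊢
  have ha := (G p).a.2
  have hb := (G p).b.2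
  have hc := (G p).c.2
  rcases h2 with ⟨-, h3, -⟩ | ⟨-, -, h3⟩ | ⟨h3, h4⟩
  · omega
  · omega
  · subst h3
    subst h1
    rcases h4 with ⟨h4, -⟩ | ⟨h4, -⟩ | ⟨h4, h5⟩ | ⟨h4, h5⟩ | ⟨h4, h5⟩
    · omega
    · omega
    · exact Or.inl ⟨rfl, rfl, Or.inl ⟨h5, h4⟩⟩
    · right
      rw [h5]
    · exact Or.inl ⟨rfl, rfl, Or.inr ⟨by omega, by omega⟩⟩

theorem gsuns_down_unique (G : Fin 8 → Gadget) {x y z : ℕ × Fin 8 × ℕ}
    (hy : y.1 = x.1 ∧ y.2.1 = x.2.1 ∧ ((x.2.2 = (G x.2.1).r ∧ y.2.2 = (G x.2.1).c) ∨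
      ((G x.2.1).r < x.2.2 ∧ y.2.2 + 1 = x.2.2)))
    (hz : z.1 = x.1 ∧ z.2.1 = x.2.1 ∧ ((x.2.2 = (G x.2.1).r ∧ z.2.2 = (G x.2.1).c) ∨
      ((G x.2.1).r < x.2.2 ∧ z.2.2 + 1 = x.2.2))) : y = z := by
  obtain ⟨h1, h2, h3⟩ := hy
  obtain ⟨h4, h5, h6⟩ := hz
  refine Prod.ext (h1.trans h4.symm) (Prod.ext (h2.trans h5.symm) ?_)
  omega

theorem gsuns_three (G : Fin 8 → Gadget) {x y z w : ℕ × Fin 8 × ℕ} (h1 : (GSuns G).Adj x y)
    (h2 : (GSuns G).Adj x z) (h3 : (GSuns G).Adj x w) (n1 : y ≠ z) (n2 : y ≠ w) (n3 : z ≠ w) :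
    x.2.2 < (G x.2.1).r := by
  by_contra h0
  have hp : (G x.2.1).r ≤ x.2.2 := by omega
  rcases gsuns_adj_pos G h1 hp with a | a <;> rcases gsuns_adj_pos G h2 hp with b | b <;>
    rcases gsuns_adj_pos G h3 hp with c | c
  all_goals first
    | exact n1 (gsuns_down_unique G a b)
    | exact n2 (gsuns_down_unique G a c)
    | exact n3 (gsuns_down_unique G b c)
    | exact n1 (a.trans b.symm)
    | exact n2 (a.trans c.symm)
    | exact n3 (b.trans c.symm)

/-- The tree `ℍ_j` is not contained in a disjoint union of suns whose gadgets have at most `j`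
vertices together. -/
theorem htree_freeG (G : Fin 8 → Gadget) {j : ℕ} (hj : ∑ p, (G p).r ≤ j) :
    (HTree j).Free (GSuns G) := by
  rintro ⟨f⟩
  have hj1 : 1 ≤ j := by
    have h1 : (G 0).r ≤ ∑ p, (G p).r :=
      Finset.single_le_sum (f := fun p => (G p).r) (fun _ _ => Nat.zero_le _) (Finset.mem_univ 0)
    have := (G 0).a.pos
    omega
  have finj : ∀ (a b : ℕ) (ha : a < j + 5) (hb : b < j + 5), a ≠ b → f ⟨a, ha⟩ ≠ f ⟨b, hb⟩ := by
    intro a b ha hb hab he
    have := f.injective he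
    exact hab (by simpa using this)
  have fadj : ∀ (a b : ℕ) (ha : a < j + 5) (hb : b < j + 5),
      (a + 1 = b ∧ b ≤ j) ∨ (a = 0 ∧ (b = j + 1 ∨ b = j + 2)) ∨
        (a = j ∧ (b = j + 3 ∨ b = j + 4)) → (GSuns G).Adj (f ⟨a, ha⟩) (f ⟨b, hb⟩) := by
    intro a b ha hb hab
    apply f.toHom.map_adj
    rw [HTree, SimpleGraph.fromRel_adj]
    refine ⟨?_, Or.inl hab⟩
    intro he
    have : a = b := by simpa using he
    omega
  have h0 : (f ⟨0, by omega⟩).2.2 < (G (f ⟨0, by omega⟩).2.1).r := by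
    refine gsuns_three G (fadj 0 1 (by omega) (by omega) (by omega))
      (fadj 0 (j + 1) (by omega) (by omega) (by omega))
      (fadj 0 (j + 2) (by omega) (by omega) (by omega)) ?_ ?_ ?_
    all_goals (apply finj; omega)
  have hjj : (f ⟨j, by omega⟩).2.2 < (G (f ⟨j, by omega⟩).2.1).r := by
    refine gsuns_three G (fadj (j - 1) j (by omega) (by omega) (by omega)).symm
      (fadj j (j + 3) (by omega) (by omega) (by omega))
      (fadj j (j + 4) (by omega) (by omega) (by omega)) ?_ ?_ ?_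
    all_goals (apply finj; omega)
  -- all path vertices are vertices of gadgets
  have hall : ∀ k (hk : k < j + 1), (f ⟨k, by omega⟩).2.2 < (G (f ⟨k, by omega⟩).2.1).r := by
    obtain ⟨k, hk⟩ := Finite.exists_max (fun k : Fin (j + 1) =>
      (f ⟨k, by omega⟩).2.2 + 1 - (G (f ⟨k, by omega⟩).2.1).r)
    have hz : (f ⟨k, by omega⟩).2.2 < (G (f ⟨k, by omega⟩).2.1).r := by
      by_contra hne
      have hp : (G (f ⟨k, by omega⟩).2.1).r ≤ (f ⟨k, by omega⟩).2.2 := by omega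
      have hk0 : (k : ℕ) ≠ 0 := by
        intro h
        apply hne
        simpa [h] using h0
      have hkj : (k : ℕ) ≠ j := by
        intro h
        apply hne
        simpa [h] using hjj
      have hk2 := k.2
      have a1 := fadj (k - 1) k (by omega) (by omega) (by omega)
      have a2 := fadj k (k + 1) (by omega) (by omega) (by omega)
      have m1 := hk ⟨k - 1, by omega⟩
      have m2 := hk ⟨k + 1, by omega⟩
      simp only at m1 m2
      have e1 := gsuns_adj_pos G a1.symm hp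
      have e2 := gsuns_adj_pos G a2 hp
      have e1' := e1.resolve_right (by
        intro h
        rw [h] at m1
        simp only at m1
        omega)
      have e2' := e2.resolve_right (by
        intro h
        rw [h] at m2
        simp only at m2
        omega)
      exact finj (k - 1) (k + 1) (by omega) (by omega) (by omega) (gsuns_down_unique G e1' e2')
    intro i hi
    have := hk ⟨i, hi⟩
    simp only at this
    omega
  have hsame : ∀ k (hk : k < j + 1), (f ⟨k, by omega⟩).1 = (f ⟨0, by omega⟩).1 := by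
    intro k
    induction k with
    | zero => intro _; rfl
    | succ k ih =>
      intro hk
      rw [← ih (by omega)]
      exact (fadj k (k + 1) (by omega) (by omega) (by omega)).1.symm
  let g : Fin (j + 1) → (Σ p : Fin 8, Fin (G p).r) := fun k =>
    ⟨(f ⟨k, by omega⟩).2.1, ⟨(f ⟨k, by omega⟩).2.2, hall k k.2⟩⟩
  have hg : Function.Injective g := by
    intro a b hab
    by_contra hne
    have hne' : (a : ℕ) ≠ b := fun h => hne (Fin.ext h)
    refine finj a b (by omega) (by omega) hne' ?_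
    have h1 : (f ⟨a, by omega⟩).2.1 = (f ⟨b, by omega⟩).2.1 := congrArg Sigma.fst hab
    have h2 : (f ⟨a, by omega⟩).2.2 = (f ⟨b, by omega⟩).2.2 :=
      congrArg (fun z : (Σ p : Fin 8, Fin (G p).r) => (z.2 : ℕ)) hab
    exact Prod.ext ((hsame a a.2).trans (hsame b b.2).symm) (Prod.ext h1 h2)
  have hcard := Fintype.card_le_of_injective g hg
  simp only [Fintype.card_fin, Fintype.card_sigma] at hcard
  omega

/-- The caterpillar: a path `0, 1, 2`, two leaves at `0`, one at `1` and two at `2`. -/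
def Cat : SimpleGraph (Fin 8) :=
  SimpleGraph.fromRel fun u v => ((u, v) : Fin 8 × Fin 8) ∈
    ([(0, 1), (1, 2), (0, 3), (0, 4), (1, 5), (2, 6), (2, 7)] : List (Fin 8 × Fin 8))

/-- A vertex of a triangle has at most one neighbour outside the triangle. -/
theorem tri_out {x y z : ℕ × Fin 8 × ℕ} (hx : x.2.2 < 3)
    (h1 : (GSuns (fun _ => triGadget)).Adj x y) (h2 : (GSuns (fun _ => triGadget)).Adj x z)
    (n1 : ¬ (y.1 = x.1 ∧ y.2.1 = x.2.1 ∧ y.2.2 < 3))
    (n2 : ¬ (z.1 = x.1 ∧ z.2.1 = x.2.1 ∧ z.2.2 < 3)) : y = z := by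
  obtain ⟨n, p, s⟩ := x
  obtain ⟨m, q, t⟩ := y
  obtain ⟨l, o, w⟩ := z
  simp only [GSuns, OctE, Gadget.Ray, triGadget] at h1 h2 hx n1 n2
  obtain ⟨e1, h1⟩ := h1
  obtain ⟨e2, h2⟩ := h2
  subst e1
  subst e2
  have v0 : ((0 : Fin 3) : ℕ) = 0 := rfl
  have v1 : ((1 : Fin 3) : ℕ) = 1 := rfl
  have v2 : ((2 : Fin 3) : ℕ) = 2 := rfl
  rw [v0, v1, v2] at h1 h2
  have k1 : (s = 1 ∧ q = p + 1 ∧ t = 0) ∨ (s = 0 ∧ p = q + 1 ∧ t = 1) ∨
      (s = 2 ∧ q = p ∧ t = 3) := by
    rcases h1 with ⟨a1, a2, a3⟩ | ⟨a1, a2, a3⟩ | ⟨a1, a2⟩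
    · exact Or.inl ⟨a2, a1, a3⟩
    · exact Or.inr (Or.inl ⟨a3, a1, a2⟩)
    · have a3 : ¬ t < 3 := fun h => n1 ⟨rfl, a1.symm, h⟩
      rcases a2 with ⟨-, h, -⟩ | h | h | h | h
      · omega
      · exact Or.inr (Or.inr ⟨h.1, a1.symm, h.2⟩)
      · omega
      · omega
      · omega
  have k2 : (s = 1 ∧ o = p + 1 ∧ w = 0) ∨ (s = 0 ∧ p = o + 1 ∧ w = 1) ∨
      (s = 2 ∧ o = p ∧ w = 3) := by
    rcases h2 with ⟨a1, a2, a3⟩ | ⟨a1, a2, a3⟩ | ⟨a1, a2⟩
    · exact Or.inl ⟨a2, a1, a3⟩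
    · exact Or.inr (Or.inl ⟨a3, a1, a2⟩)
    · have a3 : ¬ w < 3 := fun h => n2 ⟨rfl, a1.symm, h⟩
      rcases a2 with ⟨-, h, -⟩ | h | h | h | h
      · omega
      · exact Or.inr (Or.inr ⟨h.1, a1.symm, h.2⟩)
      · omega
      · omega
      · omega
  rcases k1 with ⟨a1, a2, a3⟩ | ⟨a1, a2, a3⟩ | ⟨a1, a2, a3⟩ <;>
    rcases k2 with ⟨b1, b2, b3⟩ | ⟨b1, b2, b3⟩ | ⟨b1, b2, b3⟩
  · rw [a2, a3, b2, b3]
  · omega
  · omega
  · omega
  · rw [a2] at b2
    rw [add_right_cancel b2, a3, b3]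
  · omega
  · omega
  · omega
  · rw [a2, a3, b2, b3]

/-- Four vertices of a triangle are not all different. -/
theorem tri_four {x : ℕ × Fin 8 × ℕ} (y : Fin 4 → ℕ × Fin 8 × ℕ) (hy : Function.Injective y)
    (h : ∀ k, (y k).1 = x.1 ∧ (y k).2.1 = x.2.1 ∧ (y k).2.2 < 3) : False := by
  have hg : Function.Injective (fun k : Fin 4 => (⟨(y k).2.2, (h k).2.2⟩ : Fin 3)) := by
    intro k l hkl
    apply hy
    refine Prod.ext ((h k).1.trans (h l).1.symm) (Prod.ext ((h k).2.1.trans (h l).2.1.symm) ?_)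
    exact congrArg Fin.val hkl
  have := Fintype.card_le_of_injective _ hg
  simp at this

theorem cat_free : Cat.Free (GSuns (fun _ => triGadget)) := by
  rintro ⟨f⟩
  have fadj : ∀ u v : Fin 8, Cat.Adj u v → (GSuns (fun _ => triGadget)).Adj (f u) (f v) :=
    fun u v h => f.toHom.map_adj h
  have finj : Function.Injective f := f.injective
  have cadj : ∀ u v : Fin 8, u ≠ v → (((u, v) : Fin 8 × Fin 8) ∈
      ([(0, 1), (1, 2), (0, 3), (0, 4), (1, 5), (2, 6), (2, 7)] : List (Fin 8 × Fin 8)) ∨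
      ((v, u) : Fin 8 × Fin 8) ∈
      ([(0, 1), (1, 2), (0, 3), (0, 4), (1, 5), (2, 6), (2, 7)] : List (Fin 8 × Fin 8))) →
      (GSuns (fun _ => triGadget)).Adj (f u) (f v) := by
    intro u v hne h
    exact fadj u v ((SimpleGraph.fromRel_adj _ _ _).2 ⟨hne, h⟩)
  have hr : ∀ u v w z : Fin 8, (GSuns (fun _ => triGadget)).Adj (f u) (f v) →
      (GSuns (fun _ => triGadget)).Adj (f u) (f w) →
      (GSuns (fun _ => triGadget)).Adj (f u) (f z) → v ≠ w → v ≠ z → w ≠ z →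
      (f u).2.2 < 3 := by
    intro u v w z h1 h2 h3 n1 n2 n3
    exact gsuns_three (fun _ => triGadget) h1 h2 h3 (fun h => n1 (finj h)) (fun h => n2 (finj h))
      (fun h => n3 (finj h))
  let P : Fin 8 → Fin 8 → Prop := fun u v =>
    (f v).1 = (f u).1 ∧ (f v).2.1 = (f u).2.1 ∧ (f v).2.2 < 3
  have hout : ∀ u v w : Fin 8, (f u).2.2 < 3 → (GSuns (fun _ => triGadget)).Adj (f u) (f v) →
      (GSuns (fun _ => triGadget)).Adj (f u) (f w) → v ≠ w → P u v ∨ P u w := by
    intro u v w hu h1 h2 hne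
    by_contra hcon
    rw [not_or] at hcon
    exact hne (finj (tri_out hu h1 h2 hcon.1 hcon.2))
  have h1 : (f 1).2.2 < 3 := hr 1 0 2 5 (cadj _ _ (by decide) (by decide))
    (cadj _ _ (by decide) (by decide)) (cadj _ _ (by decide) (by decide)) (by decide) (by decide)
    (by decide)
  have h0 : (f 0).2.2 < 3 := hr 0 1 3 4 (cadj _ _ (by decide) (by decide))
    (cadj _ _ (by decide) (by decide)) (cadj _ _ (by decide) (by decide)) (by decide) (by decide)
    (by decide)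
  have h2 : (f 2).2.2 < 3 := hr 2 1 6 7 (cadj _ _ (by decide) (by decide))
    (cadj _ _ (by decide) (by decide)) (cadj _ _ (by decide) (by decide)) (by decide) (by decide)
    (by decide)
  have o02 := hout 1 0 2 h1 (cadj _ _ (by decide) (by decide)) (cadj _ _ (by decide) (by decide))
    (by decide)
  have o05 := hout 1 0 5 h1 (cadj _ _ (by decide) (by decide)) (cadj _ _ (by decide) (by decide))
    (by decide)
  have o25 := hout 1 2 5 h1 (cadj _ _ (by decide) (by decide)) (cadj _ _ (by decide) (by decide))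
    (by decide)
  have o34 := hout 0 3 4 h0 (cadj _ _ (by decide) (by decide)) (cadj _ _ (by decide) (by decide))
    (by decide)
  have o67 := hout 2 6 7 h2 (cadj _ _ (by decide) (by decide)) (cadj _ _ (by decide) (by decide))
    (by decide)
  have htr : ∀ u v w : Fin 8, P u v → P v w → P u w := fun u v w a b =>
    ⟨b.1.trans a.1, b.2.1.trans a.2.1, b.2.2⟩
  have hfour : ∀ u v w z : Fin 8, Function.Injective ![u, v, w, z] → P u u → P u v → P u w →
      P u z → False := by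
    intro u v w z hin a1 a2 a3 a4
    refine tri_four (x := f u) (fun k => f (![u, v, w, z] k)) (fun a b h => hin (finj h)) ?_
    intro k
    fin_cases k
    · exact a1
    · exact a2
    · exact a3
    · exact a4
  have p11 : P 1 1 := ⟨rfl, rfl, h1⟩
  -- two of 0, 2, 5 are in the triangle of 1
  have hcase : (P 1 0 ∧ (P 1 2 ∨ P 1 5)) ∨ (P 1 2 ∧ (P 1 0 ∨ P 1 5)) := by
    rcases o02 with h | h
    · rcases o25 with h' | h'
      · exact Or.inl ⟨h, Or.inl h'⟩
      · exact Or.inl ⟨h, Or.inr h'⟩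
    · rcases o05 with h' | h'
      · exact Or.inr ⟨h, Or.inl h'⟩
      · exact Or.inr ⟨h, Or.inr h'⟩
  rcases hcase with ⟨a, b⟩ | ⟨a, b⟩
  · rcases o34 with c | c
    · have d := htr 1 0 3 a c
      rcases b with b | b
      · exact hfour 1 0 2 3 (by decide) p11 a b d
      · exact hfour 1 0 5 3 (by decide) p11 a b d
    · have d := htr 1 0 4 a c
      rcases b with b | b
      · exact hfour 1 0 2 4 (by decide) p11 a b d
      · exact hfour 1 0 5 4 (by decide) p11 a b d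
  · rcases o67 with c | c
    · have d := htr 1 2 6 a c
      rcases b with b | b
      · exact hfour 1 2 0 6 (by decide) p11 a b d
      · exact hfour 1 2 5 6 (by decide) p11 a b d
    · have d := htr 1 2 7 a c
      rcases b with b | b
      · exact hfour 1 2 0 7 (by decide) p11 a b d
      · exact hfour 1 2 5 7 (by decide) p11 a b d

end Pool.Agent.Work.MP_f63b47_lc
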