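import Mathlib

/-!
Hamiltonian cycles, graphs given by lists of edges, and the disjoint union of suns.
-/

set_option autoImplicit false

namespace Pool.Agent.Work.MP_f63b47_lc

/-- The graph with vertices `0, …, n - 1` whose edges are the pairs in the list `E`
(pairs of equal numbers and pairs with an entry `≥ n` are ignored). -/
def graphOf (n : ℕ) (E : List (ℕ × ℕ)) : SimpleGraph (Fin n) :=
  SimpleGraph.fromRel fun u v => ((u : ℕ), (v : ℕ)) ∈ E

/-- `G` has a Hamiltonian cycle. -/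
def HasHamCycle {V : Type} [DecidableEq V] (G : SimpleGraph V) : Prop :=
  ∃ (a : V) (p : G.Walk a a), p.IsHamiltonianCycle

/-- The disjoint union of infinitely many 8-suns. The vertex `(a, i, s)` is the vertex at
distance `s` from the octagon on the infinite path attached to the vertex `i` of the octagon of
the `a`-th sun. -/
def Suns : SimpleGraph (ℕ × Fin 8 × ℕ) where
  Adj x y := x.1 = y.1 ∧
    ((x.2.2 = 0 ∧ y.2.2 = 0 ∧ (y.2.1 = x.2.1 + 1 ∨ x.2.1 = y.2.1 + 1)) ∨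
      (x.2.1 = y.2.1 ∧ (y.2.2 = x.2.2 + 1 ∨ x.2.2 = y.2.2 + 1)))
  symm := ⟨fun x y h => by
    obtain ⟨h1, h2⟩ := h
    refine ⟨h1.symm, ?_⟩
    rcases h2 with ⟨h3, h4, h5⟩ | ⟨h3, h4⟩
    · exact Or.inl ⟨h4, h3, h5.symm⟩
    · exact Or.inr ⟨h3.symm, h4.symm⟩⟩
  loopless := ⟨by
    rintro ⟨a, i, s⟩ ⟨-, ⟨-, -, h⟩ | ⟨-, h⟩⟩
    · rcases h with h | h <;> · simp only at h; revert h; revert i; decide
    · simp only at h; omega⟩

/-- The tree `ℍ_j`: the vertices `0, …, j` form a path, and the four further vertices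
`j + 1, j + 2` and `j + 3, j + 4` are joined to `0` and to `j`. -/
def HTree (j : ℕ) : SimpleGraph (Fin (j + 5)) :=
  SimpleGraph.fromRel fun u v =>
    ((u : ℕ) + 1 = v ∧ (v : ℕ) ≤ j) ∨ ((u : ℕ) = 0 ∧ ((v : ℕ) = j + 1 ∨ (v : ℕ) = j + 2)) ∨
      ((u : ℕ) = j ∧ ((v : ℕ) = j + 3 ∨ (v : ℕ) = j + 4))

/-! ### Octagons joined by long paths -/

/-- A fixed-point free involution on the corners of a family of octagons. -/
structure Link (I : Type) where
  lam : I × Fin 8 → I × Fin 8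
  inv : ∀ x, lam (lam x) = x
  ne : ∀ x, lam x ≠ x

/-- The graph: octagons with vertices `(x, 0)` for the corners `x`; a path
`(x, 0), …, (x, K)` starts at each corner `x`, and its end is joined to the end of the path of
the corner `lam x`. -/
def OG {I : Type} (L : Link I) (K : ℕ) : SimpleGraph ((I × Fin 8) × Fin (K + 1)) where
  Adj a b :=
    (a.1.1 = b.1.1 ∧ (a.2 : ℕ) = 0 ∧ (b.2 : ℕ) = 0 ∧
      (b.1.2 = a.1.2 + 1 ∨ a.1.2 = b.1.2 + 1)) ∨
    (a.1 = b.1 ∧ ((b.2 : ℕ) = a.2 + 1 ∨ (a.2 : ℕ) = b.2 + 1)) ∨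
    ((a.2 : ℕ) = K ∧ (b.2 : ℕ) = K ∧ L.lam a.1 = b.1)
  symm := ⟨fun a b h => by
    rcases h with ⟨h1, h2, h3, h4⟩ | ⟨h1, h2⟩ | ⟨h1, h2, h3⟩
    · exact Or.inl ⟨h1.symm, h3, h2, h4.symm⟩
    · exact Or.inr (Or.inl ⟨h1.symm, h2.symm⟩)
    · exact Or.inr (Or.inr ⟨h2, h1, by rw [← h3, L.inv]⟩)⟩
  loopless := ⟨by
    rintro ⟨⟨a, i⟩, s⟩ (⟨-, -, -, h⟩ | ⟨-, h⟩ | ⟨-, -, h⟩)
    · rcases h with h | h <;> · simp only at h; revert h; revert i; decide
    · simp only at h; omega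
    · exact L.ne _ h⟩

/-- The two perfect matchings of the octagon. -/
def m8 (b : Bool) (p : Fin 8) : Fin 8 := if b = decide ((p : ℕ) % 2 = 1) then p + 1 else p - 1

/-- The pairing of the corners given by a choice of a perfect matching in each octagon. -/
def mu {I : Type} (σ : I → Bool) (x : I × Fin 8) : I × Fin 8 := (x.1, m8 (σ x.1) x.2)

/-- The links and the chosen pairings form a single circuit. -/
def PortConn {I : Type} (L : Link I) (σ : I → Bool) : Prop :=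
  ∀ x y : I × Fin 8, Relation.ReflTransGen (fun a b => b = L.lam a ∨ b = mu σ a) x y

end Pool.Agent.Work.MP_f63b47_lc
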