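import Pool.Agent.Work.MP_f63b47_lc.Defs
import Pool.Agent.Work.PolyTime.NPClose

/-!
Containment of a fixed graph in a graph given by a list of edges is decided in polynomial time.
-/

set_option autoImplicit false

namespace Pool.Agent.Work.MP_f63b47_lc

open Pool.Agent.Work.PolyTime

/-- All lists of length `m` with entries `< n`. -/
def allLists : ℕ → ℕ → List (List ℕ)
  | 0, _ => [[]]
  | m + 1, n => (List.range n).flatMap fun a => (allLists m n).map fun l => a :: l

theorem mem_allLists {m n : ℕ} : ∀ {l : List ℕ},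
    l ∈ allLists m n ↔ l.length = m ∧ ∀ x ∈ l, x < n := by
  induction m with
  | zero =>
    intro l
    simp only [allLists, List.mem_singleton, List.length_eq_zero_iff]
    constructor
    · rintro rfl; simp
    · rintro ⟨h, _⟩; exact h
  | succ m ih =>
    intro l
    simp only [allLists, List.mem_flatMap, List.mem_range, List.mem_map]
    constructor
    · rintro ⟨a, ha, l', hl', rfl⟩
      obtain ⟨h1, h2⟩ := ih.mp hl'
      refine ⟨by simp [h1], ?_⟩
      intro x hx
      rcases List.mem_cons.mp hx with rfl | hx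
      · exact ha
      · exact h2 x hx
    · rintro ⟨h1, h2⟩
      cases l with
      | nil => simp at h1
      | cons a l' =>
        refine ⟨a, h2 a (by simp), l', ih.mpr ⟨by simpa using h1, fun x hx => h2 x (by simp [hx])⟩,
          rfl⟩

theorem ptime_allLists (m : ℕ) : PTime (fun n : ℕ => allLists m n) := by
  induction m with
  | zero => exact PTime.const _
  | succ m ih =>
    have h : PTime (fun n : ℕ => (List.range n).flatMap fun a =>
        (allLists m n).map fun l => a :: l) := by
      refine PTime.flatMap (f := fun n a => (allLists m n).map (fun l => a :: l))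
        (by fun_prop) ?_
      exact PTime.map (l := fun x : ℕ × ℕ => allLists m x.1) (f := fun x l => x.2 :: l)
        (ih.comp PTime.fst) (by fun_prop)
    exact h

/-- The test for one pair of vertices. -/
def okPair (E : List (ℕ × ℕ)) (l : List ℕ) (c : (ℕ × ℕ) × Bool) : Bool :=
  decide (c.1.1 = c.1.2) || (!(decide (l.getD c.1.1 0 = l.getD c.1.2 0)) &&
    (!c.2 || (memB (l.getD c.1.1 0, l.getD c.1.2 0) E || memB (l.getD c.1.2 0, l.getD c.1.1 0) E)))

theorem okPair_iff {E : List (ℕ × ℕ)} {l : List ℕ} {c : (ℕ × ℕ) × Bool} :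
    okPair E l c = true ↔ (c.1.1 = c.1.2 ∨ (l.getD c.1.1 0 ≠ l.getD c.1.2 0 ∧
      (c.2 = true → ((l.getD c.1.1 0, l.getD c.1.2 0) ∈ E ∨
        (l.getD c.1.2 0, l.getD c.1.1 0) ∈ E)))) := by
  unfold okPair
  simp only [Bool.or_eq_true, decide_eq_true_eq, Bool.and_eq_true, Bool.not_eq_true',
    decide_eq_false_iff_not, memB_iff]
  cases c.2 <;> simp

theorem ptime_okPair :
    PTime (fun x : (List (ℕ × ℕ) × List ℕ) × ((ℕ × ℕ) × Bool) => okPair x.1.1 x.1.2 x.2) := by
  unfold okPair
  fun_prop

open Classical in
/-- The list of all pairs of vertices together with their adjacency. -/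
noncomputable def pairList {m : ℕ} (H : SimpleGraph (Fin m)) : List ((ℕ × ℕ) × Bool) :=
  (List.finRange m).flatMap fun i : Fin m => (List.finRange m).map fun j : Fin m =>
    (((i : ℕ), (j : ℕ)), decide (H.Adj i j))

theorem mem_pairList {m : ℕ} {H : SimpleGraph (Fin m)} {c : (ℕ × ℕ) × Bool} :
    c ∈ pairList H ↔ ∃ i j : Fin m, c.1.1 = i ∧ c.1.2 = j ∧ (c.2 = true ↔ H.Adj i j) := by
  unfold pairList
  simp only [List.mem_flatMap, List.mem_finRange, true_and, List.mem_map]
  constructor
  · rintro ⟨i, j, rfl⟩
    exact ⟨i, j, rfl, rfl, by simp⟩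
  · rintro ⟨i, j, h1, h2, h3⟩
    refine ⟨i, j, ?_⟩
    obtain ⟨⟨a, b⟩, c⟩ := c
    simp only at h1 h2 h3
    subst h1 h2
    by_cases h : H.Adj i j
    · have : c = true := h3.mpr h
      simp [h, this]
    · have : c = false := by
        cases c
        · rfl
        · exact absurd (h3.mp rfl) h
      simp [h, this]

theorem free_test {m : ℕ} (H : SimpleGraph (Fin m)) :
    ∃ t : ℕ × List (ℕ × ℕ) → Bool, PTime t ∧
      ∀ x : ℕ × List (ℕ × ℕ), t x = true ↔ H.Free (graphOf x.1 x.2) := by
  refine ⟨fun x => !((allLists m x.1).any fun l => (pairList H).all fun c => okPair x.2 l c),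
    ?_, ?_⟩
  · refine PTime.not (PTime.any (l := fun x : ℕ × List (ℕ × ℕ) => allLists m x.1)
      (p := fun x l => (pairList H).all fun c => okPair x.2 l c)
      ((ptime_allLists m).comp PTime.fst) ?_)
    refine PTime.all (l := fun _ : (ℕ × List (ℕ × ℕ)) × List ℕ => pairList H)
      (p := fun y c => okPair y.1.2 y.2 c) (PTime.const _) ?_
    exact ptime_okPair.comp (f := fun y : ((ℕ × List (ℕ × ℕ)) × List ℕ) × ((ℕ × ℕ) × Bool) =>
      ((y.1.1.2, y.1.2), y.2)) (by fun_prop)
  · rintro ⟨n, E⟩
    simp only [Bool.not_eq_true']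
    rw [← Bool.not_eq_true, List.any_eq_true]
    simp only [List.all_eq_true]
    unfold SimpleGraph.Free
    apply not_congr
    constructor
    · rintro ⟨l, hl, hall⟩
      obtain ⟨h1, h2⟩ := mem_allLists.mp hl
      have hget : ∀ i : Fin m, l.getD i 0 < n := by
        intro i
        have hi : (i : ℕ) < l.length := by rw [h1]; exact i.2
        rw [List.getD_eq_getElem l 0 hi]
        exact h2 _ (List.getElem_mem hi)
      have hok : ∀ i j : Fin m, i ≠ j → l.getD i 0 ≠ l.getD j 0 ∧
          (H.Adj i j → ((l.getD i 0, l.getD j 0) ∈ E ∨ (l.getD j 0, l.getD i 0) ∈ E)) := by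
        classical
        intro i j hij
        have h3 := hall (((i : ℕ), (j : ℕ)), decide (H.Adj i j))
          (mem_pairList.mpr ⟨i, j, rfl, rfl, by simp⟩)
        rw [okPair_iff] at h3
        simp only [decide_eq_true_eq] at h3
        rcases h3 with h3 | h3
        · exact absurd (Fin.ext h3) hij
        · exact h3
      refine ⟨⟨⟨fun i => ⟨l.getD i 0, hget i⟩, ?_⟩, ?_⟩⟩
      · intro i j hij
        have hne : i ≠ j := hij.ne
        have h3 := hok i j hne
        unfold graphOf
        rw [SimpleGraph.fromRel_adj]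
        refine ⟨?_, h3.2 hij⟩
        intro h
        exact h3.1 (Fin.mk.inj h)
      · intro i j hij
        by_contra hne
        exact (hok i j hne).1 (Fin.mk.inj hij)
    · rintro ⟨f⟩
      refine ⟨List.ofFn (fun i => (f i : ℕ)), mem_allLists.mpr ⟨by simp, ?_⟩, ?_⟩
      · intro x hx
        rw [List.mem_ofFn] at hx
        obtain ⟨i, rfl⟩ := hx
        exact (f i).2
      · intro c hc
        obtain ⟨i, j, h1, h2, h3⟩ := mem_pairList.mp hc
        rw [okPair_iff, h1, h2]
        have hgi : ∀ i : Fin m, (List.ofFn (fun i => (f i : ℕ))).getD i 0 = (f i : ℕ) := by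
          intro i
          rw [List.getD_eq_getElem _ _ (by simp)]
          simp
        rw [hgi, hgi]
        by_cases hij : i = j
        · left; rw [hij]
        · right
          refine ⟨fun h => hij (f.injective (Fin.ext h)), fun h => ?_⟩
          have h4 := f.toHom.map_adj (h3.mp h)
          unfold graphOf at h4
          rw [SimpleGraph.fromRel_adj] at h4
          exact h4.2

end Pool.Agent.Work.MP_f63b47_lc
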