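import Pool.Agent.Work.MP_f63b47_lc.Ham
import Pool.Agent.Work.MP_f63b47_lc.FreeTest

/-!
Membership in NP.
-/

set_option autoImplicit false
set_option linter.unusedSimpArgs false

namespace Pool.Agent.Work.MP_f63b47_lc

open Pool.Agent.Work.PolyTime

/-- The problem: Hamiltonian cycles in graphs without subgraphs in a family. -/
def Yes {ι : Type} {m : ι → ℕ} (H : ∀ i, SimpleGraph (Fin (m i))) (x : ℕ × List (ℕ × ℕ)) : Prop :=
  (∀ i, (H i).Free (graphOf x.1 x.2)) ∧ HasHamCycle (graphOf x.1 x.2)

/-- The check of a cyclic list. -/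
def hamB (n : ℕ) (E : List (ℕ × ℕ)) (l : List ℕ) : Bool :=
  decide (l.length = n) && (decide (3 ≤ n) && (pairwiseB (fun a b => !decide (a = b)) l &&
    (l.all (fun x => decide (x < n)) &&
      (l.zip (l.drop 1 ++ l.take 1)).all fun e => memB e E || memB (e.2, e.1) E)))

theorem hamB_iff {n : ℕ} {E : List (ℕ × ℕ)} {l : List ℕ} : hamB n E l = true ↔
    l.length = n ∧ 3 ≤ n ∧ l.Nodup ∧ (∀ x ∈ l, x < n) ∧
      ∀ e ∈ l.zip (l.drop 1 ++ l.take 1), e ∈ E ∨ (e.2, e.1) ∈ E := by
  have h1 : pairwiseB (fun a b => !decide (a = b)) l = true ↔ l.Nodup :=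
    pairwiseB_iff (S := fun a b => a ≠ b) (fun a b => by simp)
  simp only [hamB, Bool.and_eq_true, decide_eq_true_eq, h1, List.all_eq_true, Bool.or_eq_true,
    memB_iff]

theorem PTime.hamB {α : Type} [Code α] {n : α → ℕ} {E : α → List (ℕ × ℕ)} {l : α → List ℕ}
    (hn : PTime n) (hE : PTime E) (hl : PTime l) :
    PTime (fun x => MP_f63b47_lc.hamB (n x) (E x) (l x)) := by
  unfold MP_f63b47_lc.hamB
  refine PTime.and (PTime.eq (PTime.length hl) hn) (PTime.and (PTime.natLe (PTime.const 3) hn)
    (PTime.and ?_ (PTime.and ?_ ?_)))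
  · refine PTime.pairwiseB (R := fun _ a b => !decide (a = b)) hl ?_
    exact PTime.not (PTime.eq (by fun_prop) (by fun_prop))
  · refine PTime.all (p := fun x (y : ℕ) => decide (y < n x)) hl ?_
    exact PTime.natLt (by fun_prop) (hn.comp PTime.fst)
  · refine PTime.all (p := fun x (e : ℕ × ℕ) => memB e (E x) || memB (e.2, e.1) (E x)) ?_ ?_
    · exact PTime.zip hl (PTime.append (PTime.drop hl (PTime.const 1))
        (PTime.take hl (PTime.const 1)))
    · exact PTime.or (PTime.memB (by fun_prop) (hE.comp PTime.fst))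
        (PTime.memB (by fun_prop) (hE.comp PTime.fst))

theorem ser_nat_length (n : ℕ) : (code n).ser.length = 2 * n + 1 := by
  induction n with
  | zero => rfl
  | succ n ih =>
    have : (code (n + 1)).ser = true :: false :: (code n).ser := rfl
    rw [this, List.length_cons, List.length_cons, ih]
    ring

theorem ser_list_length {β : Type} [Code β] (a : β) (l : List β) :
    (code (a :: l)).ser.length = 1 + ((code a).ser.length + (code l).ser.length) := by
  have : (code (a :: l)).ser = true :: ((code a).ser ++ (code l).ser) := rfl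
  rw [this, List.length_cons, List.length_append]
  ring

theorem ser_list_le {n : ℕ} : ∀ l : List ℕ, (∀ x ∈ l, x < n) →
    (code l).ser.length ≤ l.length * (2 * n) + 1
  | [], _ => by simp [show (code ([] : List ℕ)).ser = [false] from rfl]
  | a :: l, h => by
    have h1 := ser_list_le l (fun x hx => h x (List.mem_cons_of_mem _ hx))
    have h2 := h a List.mem_cons_self
    rw [ser_list_length, ser_nat_length, List.length_cons]
    nlinarith

theorem ser_pair_length {β γ : Type} [Code β] [Code γ] (a : β) (b : γ) :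
    (code (a, b)).ser.length = 1 + ((code a).ser.length + (code b).ser.length) := by
  have : (code (a, b)).ser = true :: ((code a).ser ++ (code b).ser) := rfl
  rw [this, List.length_cons, List.length_append]
  ring

theorem all_test {k : ℕ} {m : Fin k → ℕ} (H : ∀ i, SimpleGraph (Fin (m i))) :
    ∃ t : ℕ × List (ℕ × ℕ) → Bool, PTime t ∧
      ∀ x : ℕ × List (ℕ × ℕ), t x = true ↔ ∀ i, (H i).Free (graphOf x.1 x.2) := by
  induction k with
  | zero => exact ⟨fun _ => true, PTime.const _, fun x => by simp⟩
  | succ k ih =>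
    obtain ⟨t, ht, h⟩ := ih (fun i => H i.castSucc)
    obtain ⟨t', ht', h'⟩ := free_test (H (Fin.last k))
    refine ⟨fun x => t x && t' x, PTime.and ht ht', fun x => ?_⟩
    rw [Bool.and_eq_true, h, h', Fin.forall_fin_succ']

/-- **Membership in NP.** -/
theorem inNP_problem {k : ℕ} {m : Fin k → ℕ} (H : ∀ i, SimpleGraph (Fin (m i))) :
    InNP (problem (fun _ => True) (Yes H)) := by
  obtain ⟨t, ht, h⟩ := all_test H
  refine inNP_of (V := fun z => ((parseW (ℕ × List (ℕ × ℕ)) z.1).bind fun a =>
    some (t a && ((parseW (List ℕ) z.2).bind fun l => some (hamB a.1 a.2 l)).getD false)).getD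
      false) (b := fun x => (x.length) * (2 * x.length) + 1) ?_ (by fun_prop) ?_
  · refine PTime.parseTest (β := ℕ × List (ℕ × ℕ)) (t := fun (z : List Bool × List Bool) a =>
      t a && ((parseW (List ℕ) z.2).bind fun l => some (hamB a.1 a.2 l)).getD false)
      PTime.fst ?_
    refine PTime.and (ht.comp PTime.snd) ?_
    refine PTime.parseTest (β := List ℕ) (t := fun (y : (List Bool × List Bool) ×
      (ℕ × List (ℕ × ℕ))) l => hamB y.2.1 y.2.2 l) (by fun_prop) ?_
    exact PTime.hamB (by fun_prop) (by fun_prop) (by fun_prop)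
  · intro x
    simp only [parseTest_iff]
    constructor
    · rintro ⟨a, rfl, -, ha⟩
      obtain ⟨l, h1, h2, h3, h4, h5⟩ := hasHamCycle_graphOf.1 ha.2
      refine ⟨(code l).ser, ?_, a, rfl, ?_⟩
      · have h6 := ser_list_le l h4
        have h7 : a.1 ≤ (code a).ser.length := by
          obtain ⟨n, E⟩ := a
          rw [ser_pair_length, ser_nat_length]
          simp only
          omega
        rw [h1] at h6
        refine h6.trans ?_
        nlinarith
      · rw [Bool.and_eq_true]
        refine ⟨(h a).2 ha.1, ?_⟩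
        rw [parseTest_iff]
        exact ⟨l, rfl, hamB_iff.2 ⟨h1, h2, h3, h4, h5⟩⟩
    · rintro ⟨y, -, a, rfl, ha⟩
      rw [Bool.and_eq_true, parseTest_iff] at ha
      obtain ⟨h1, l, -, h2⟩ := ha
      exact ⟨a, rfl, trivial, (h a).1 h1, hasHamCycle_graphOf.2 ⟨l, hamB_iff.1 h2⟩⟩

end Pool.Agent.Work.MP_f63b47_lc
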