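import Pool.Agent.Work.MP_f63b47_lc.Iso
import Pool.Agent.Work.MP_f63b47_lc.Mem
import Pool.Agent.Work.MP_f63b47_lc.HT
import Pool.Agent.Work.PolyTime.NPHard

/-!
The reduction is computed in polynomial time.
-/

set_option autoImplicit false
set_option linter.unusedSimpArgs false

namespace Pool.Agent.Work.MP_f63b47_lc

open Pool.Agent.Work.PolyTime

section

variable {α : Type} [Code α]

theorem PTime.padCl : PTime MP_f63b47_lc.padCl := by
  unfold MP_f63b47_lc.padCl
  refine PTime.ite (PTime.eq (PTime.length PTime.id) (PTime.const 0)) (PTime.const _) ?_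
  fun_prop

theorem PTime.padC : PTime MP_f63b47_lc.padC := by
  unfold MP_f63b47_lc.padC
  refine PTime.cons (PTime.const _) (PTime.flatMap PTime.id ?_)
  exact PTime.padCl.comp PTime.snd

theorem PTime.slots : PTime MP_f63b47_lc.slots := by
  unfold MP_f63b47_lc.slots
  refine PTime.flatMap PTime.id ?_
  fun_prop

theorem PTime.cd (K : ℕ) {i p s : α → ℕ} (hi : PTime i) (hp : PTime p) (hs : PTime s) :
    PTime (fun x => MP_f63b47_lc.cd K (i x) (p x) (s x)) := by
  unfold MP_f63b47_lc.cd
  fun_prop

theorem PTime.prtN {b : α → Bool} {r : α → ℕ} (hb : PTime b) (hr : PTime r) :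
    PTime (fun x => MP_f63b47_lc.prtN (b x) (r x)) := by
  unfold MP_f63b47_lc.prtN
  refine PTime.ite (PTime.eq hr (PTime.const 0)) (PTime.const _)
    (PTime.ite (PTime.eq hr (PTime.const 3)) (PTime.const _)
      (PTime.ite (PTime.eq (PTime.eq hr (PTime.const 1)) hb) (PTime.const _) (PTime.const _)))

theorem PTime.sg {D : α → List Cl} {i : α → ℕ} (hD : PTime D) (hi : PTime i) :
    PTime (fun x => MP_f63b47_lc.sg (D x) (i x)) := by
  unfold MP_f63b47_lc.sg
  exact PTime.fst.comp (PTime.nth (PTime.slots.comp hD) hi (PTime.const _))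

theorem PTime.eOct (K : ℕ) : PTime (MP_f63b47_lc.eOct K) := by
  unfold MP_f63b47_lc.eOct
  refine PTime.flatMap (PTime.range (by fun_prop)) ?_
  refine PTime.map (PTime.const _) ?_
  refine PTime.prodMk (PTime.cd K (by fun_prop) (by fun_prop) (by fun_prop))
    (PTime.cd K (by fun_prop) ?_ (by fun_prop))
  exact PTime.ite (PTime.eq (by fun_prop) (PTime.const 7)) (PTime.const _) (by fun_prop)

theorem PTime.eLeg (K : ℕ) : PTime (MP_f63b47_lc.eLeg K) := by
  unfold MP_f63b47_lc.eLeg
  refine PTime.flatMap (PTime.range (by fun_prop)) ?_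
  refine PTime.flatMap (PTime.const _) ?_
  refine PTime.map (PTime.const _) ?_
  exact PTime.prodMk (PTime.cd K (by fun_prop) (by fun_prop) (by fun_prop))
    (PTime.cd K (by fun_prop) (by fun_prop) (by fun_prop))

theorem PTime.eRing (K : ℕ) : PTime (MP_f63b47_lc.eRing K) := by
  unfold MP_f63b47_lc.eRing
  refine PTime.flatMap (PTime.range (by fun_prop)) ?_
  have h : PTime (fun y : List Cl × ℕ => MP_f63b47_lc.nxN (MP_f63b47_lc.slots y.1) y.2) :=
    PTime.nxN (PTime.slots.comp PTime.fst) PTime.snd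
  refine PTime.cons (PTime.prodMk (PTime.cd K (by fun_prop) (by fun_prop) (by fun_prop))
    (PTime.cd K h (by fun_prop) (by fun_prop))) (PTime.cons (PTime.prodMk
    (PTime.cd K (by fun_prop) (by fun_prop) (by fun_prop))
    (PTime.cd K h (by fun_prop) (by fun_prop))) (PTime.const _))

theorem PTime.eInn (K : ℕ) : PTime (MP_f63b47_lc.eInn K) := by
  unfold MP_f63b47_lc.eInn
  refine PTime.flatMap (PTime.range (by fun_prop)) ?_
  refine PTime.map (PTime.const _) ?_
  refine PTime.prodMk (PTime.cd K (by fun_prop) (PTime.prtN (PTime.sg (by fun_prop)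
    (by fun_prop)) (by fun_prop)) (by fun_prop))
    (PTime.cd K (by fun_prop) (PTime.prtN (PTime.sg (by fun_prop)
    (by fun_prop)) (by fun_prop)) (by fun_prop))

theorem PTime.eOut (K : ℕ) : PTime (MP_f63b47_lc.eOut K) := by
  unfold MP_f63b47_lc.eOut
  refine PTime.map (PTime.range (by fun_prop)) ?_
  refine PTime.prodMk (PTime.cd K (by fun_prop) (by fun_prop) (by fun_prop))
    (PTime.cd K ?_ (by fun_prop) (by fun_prop))
  refine PTime.natAdd (PTime.const 0) (PTime.natMul (PTime.const 4) ?_)
  exact PTime.ite (PTime.eq (by fun_prop) (by fun_prop)) (PTime.const _) (by fun_prop)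

theorem PTime.redF (K : ℕ) : PTime (MP_f63b47_lc.redF K) := by
  unfold MP_f63b47_lc.redF MP_f63b47_lc.edges
  have h := PTime.padC
  refine PTime.prodMk ?_ ?_
  · exact PTime.natMul (PTime.natMul (PTime.natMul (PTime.length h) (PTime.const _))
      (PTime.const _)) (PTime.const _)
  · exact PTime.append ((PTime.eOct K).comp h) (PTime.append ((PTime.eLeg K).comp h)
      (PTime.append ((PTime.eRing K).comp h) (PTime.append ((PTime.eInn K).comp h)
        ((PTime.eOut K).comp h))))

end

/-- **NP-hardness.** -/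
theorem nphard_problem {k : ℕ} {m : Fin k → ℕ} (H : ∀ i, SimpleGraph (Fin (m i)))
    (h : ∀ i, (H i).Free Suns) : NPHard (problem (fun _ => True) (Yes H)) := by
  let K : ℕ := ∑ i, m i + 1
  have hK : ∀ i, m i < K := by
    intro i
    have : m i ≤ ∑ i, m i := Finset.single_le_sum (fun _ _ => Nat.zero_le _) (Finset.mem_univ i)
    omega
  refine nphard_of_cnf (PTime.redF K) (fun _ => trivial) (fun C hC => ?_)
  rw [redF_ham (K := K) (by omega) hC]
  exact ⟨fun hh => ⟨fun i => redF_free (hK i) C (h i), hh⟩, fun hh => hh.2⟩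

end Pool.Agent.Work.MP_f63b47_lc
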