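import Pool.Agent.Work.MP_f63b47_lc.Defs

/-!
A graph on `m < K` vertices which is not contained in a disjoint union of 8-suns is not
contained in the graphs `OG L K`.
-/

set_option autoImplicit false

namespace Pool.Agent.Work.MP_f63b47_lc

theorem free_of_iso {V W U : Type} {H : SimpleGraph U} {G : SimpleGraph V} {G' : SimpleGraph W}
    (e : G ≃g G') (h : H.Free G) : H.Free G' := by
  rintro ⟨f⟩
  exact h ⟨e.symm.toCopy.comp f⟩

/-- The map from the vertices of `OG L K` to the disjoint union of suns. -/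
def toSuns {I : Type} (L : Link I) (K : ℕ) (enc : I × Fin 8 → ℕ) (leg : I → ℕ)
    (t : I × Fin 8 → ℕ) (v : (I × Fin 8) × Fin (K + 1)) : ℕ × Fin 8 × ℕ :=
  if enc v.1 < enc (L.lam v.1) ∧ t v.1 < v.2 then
    (leg (L.lam v.1).1, (L.lam v.1).2, 2 * K + 1 - v.2)
  else (leg v.1.1, v.1.2, v.2)

theorem toSuns_injective {I : Type} (L : Link I) (K : ℕ) (enc : I × Fin 8 → ℕ) (leg : I → ℕ)
    (hleg : Function.Injective leg) (t : I × Fin 8 → ℕ) :
    Function.Injective (toSuns L K enc leg t) := by
  rintro ⟨x, s⟩ ⟨y, r⟩ h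
  have hs := s.2
  have hr := r.2
  unfold toSuns at h
  simp only at h
  split_ifs at h with h1 h2 h2
  · simp only [Prod.mk.injEq] at h
    obtain ⟨e1, e2, e3⟩ := h
    have e4 : L.lam x = L.lam y := Prod.ext (hleg e1) e2
    have e5 : x = y := by rw [← L.inv x, e4, L.inv]
    subst e5
    have : (s : ℕ) = r := by omega
    exact Prod.ext rfl (Fin.ext this)
  · simp only [Prod.mk.injEq] at h
    omega
  · simp only [Prod.mk.injEq] at h
    omega
  · simp only [Prod.mk.injEq] at h
    obtain ⟨e1, e2, e3⟩ := h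
    exact Prod.ext (Prod.ext (hleg e1) e2) (Fin.ext e3)

theorem toSuns_adj {I : Type} (L : Link I) (K : ℕ) (enc : I × Fin 8 → ℕ)
    (henc : Function.Injective enc) (leg : I → ℕ) (t : I × Fin 8 → ℕ)
    (ht : ∀ x, 1 ≤ t x ∧ t x ≤ K) {v w : (I × Fin 8) × Fin (K + 1)} (hv : (v.2 : ℕ) ≠ t v.1)
    (hw : (w.2 : ℕ) ≠ t w.1) (h : (OG L K).Adj v w) :
    Suns.Adj (toSuns L K enc leg t v) (toSuns L K enc leg t w) := by
  obtain ⟨x, s⟩ := v
  obtain ⟨y, r⟩ := w
  have hs := s.2
  have hr := r.2
  simp only at hv hw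
  rcases h with ⟨h1, h2, h3, h4⟩ | ⟨h1, h2⟩ | ⟨h1, h2, h3⟩
  · simp only at h1 h2 h3 h4
    have a1 : ¬ (enc x < enc (L.lam x) ∧ t x < (s : ℕ)) := by
      rintro ⟨-, h⟩; omega
    have a2 : ¬ (enc y < enc (L.lam y) ∧ t y < (r : ℕ)) := by
      rintro ⟨-, h⟩; omega
    unfold toSuns
    simp only [a1, a2, if_false]
    exact ⟨by rw [h1], Or.inl ⟨h2, h3, h4⟩⟩
  · simp only at h1 h2
    subst h1
    unfold toSuns
    simp only
    by_cases hm : enc x < enc (L.lam x)
    · by_cases hts : t x < (s : ℕ)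
      · have htr : t x < (r : ℕ) := by omega
        simp only [hm, hts, htr, and_self, if_true]
        refine ⟨rfl, Or.inr ⟨rfl, ?_⟩⟩
        simp only
        omega
      · have htr : ¬ t x < (r : ℕ) := by omega
        simp only [hts, htr, and_false, if_false]
        exact ⟨rfl, Or.inr ⟨rfl, h2⟩⟩
    · simp only [hm, false_and, if_false]
      exact ⟨rfl, Or.inr ⟨rfl, h2⟩⟩
  · simp only at h1 h2 h3
    subst h3
    have hsx : t x < (s : ℕ) := by have := (ht x).2; omega
    have hry : t (L.lam x) < (r : ℕ) := by have := (ht (L.lam x)).2; omega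
    have hne : enc (L.lam x) ≠ enc x := fun h => L.ne x (henc h)
    unfold toSuns
    simp only [hsx, hry, and_true, L.inv]
    rcases lt_or_gt_of_ne hne with hlt | hlt
    · have hn : ¬ enc x < enc (L.lam x) := by omega
      simp only [hn, hlt, if_true, if_false]
      refine ⟨rfl, Or.inr ⟨rfl, ?_⟩⟩
      simp only
      omega
    · have hn : ¬ enc (L.lam x) < enc x := by omega
      have hlt' : enc x < enc (L.lam x) := hlt
      simp only [hn, hlt', if_true, if_false]
      refine ⟨rfl, Or.inr ⟨rfl, ?_⟩⟩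
      simp only
      omega

theorem free_og {I : Type} [Fintype I] [DecidableEq I] (L : Link I) {m K : ℕ} (hK : m < K)
    {H : SimpleGraph (Fin m)} (h : H.Free Suns) : H.Free (OG L K) := by
  rintro ⟨f⟩
  have hex : ∀ x : I × Fin 8, ∃ t : ℕ, (1 ≤ t ∧ t ≤ K) ∧ ∀ i, (f i).1 = x → ((f i).2 : ℕ) ≠ t := by
    intro x
    by_contra hcon
    push Not at hcon
    have hsub : Finset.Icc 1 K ⊆ Finset.univ.image (fun i : Fin m => ((f i).2 : ℕ)) := by
      intro t ht
      rw [Finset.mem_Icc] at ht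
      obtain ⟨i, -, hi⟩ := hcon t ht
      exact Finset.mem_image.mpr ⟨i, Finset.mem_univ _, hi⟩
    have := Finset.card_le_card hsub
    have h2 := Finset.card_image_le (s := (Finset.univ : Finset (Fin m)))
      (f := fun i : Fin m => ((f i).2 : ℕ))
    simp only [Nat.card_Icc, Finset.card_univ, Fintype.card_fin] at this h2
    omega
  choose t ht htne using hex
  let enc : I × Fin 8 → ℕ := fun x => (Fintype.equivFin (I × Fin 8) x : ℕ)
  have henc : Function.Injective enc := fun a b hab =>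
    (Fintype.equivFin (I × Fin 8)).injective (Fin.ext hab)
  let leg : I → ℕ := fun x => (Fintype.equivFin I x : ℕ)
  have hleg : Function.Injective leg := fun a b hab => (Fintype.equivFin I).injective (Fin.ext hab)
  refine h ⟨⟨⟨fun i => toSuns L K enc leg t (f i), ?_⟩, ?_⟩⟩
  · intro a b hab
    exact toSuns_adj L K enc henc leg t ht (htne _ a rfl) (htne _ b rfl) (f.toHom.map_adj hab)
  · intro a b hab
    exact f.injective (toSuns_injective L K enc leg hleg t hab)

end Pool.Agent.Work.MP_f63b47_lc
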