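import Pool.Agent.Work.MP_f63b47_lc.Defs

/-!
Hamiltonian cycles and connected 2-factors; Hamiltonian cycles as cyclic lists.
-/

set_option autoImplicit false

namespace Pool.Agent.Work.MP_f63b47_lc

open SimpleGraph

theorem hasHamCycle_iff {V : Type} [Fintype V] [DecidableEq V] [Nonempty V] (G : SimpleGraph V) :
    HasHamCycle G ↔ ∃ F : SimpleGraph V, F ≤ G ∧ (∀ v, (F.neighborSet v).ncard = 2) ∧
      F.Preconnected := by
  constructor
  · rintro ⟨a, p, hp⟩
    refine ⟨p.toSubgraph.spanningCoe, p.toSubgraph.spanningCoe_le, ?_, ?_⟩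
    · intro v
      exact hp.isCycle.ncard_neighborSet_toSubgraph_eq_two (hp.mem_support v)
    · have key : ∀ v, (p.toSubgraph.spanningCoe).Reachable a v := by
        intro v
        have hv : v ∈ p.support := hp.mem_support v
        have h : ∀ e ∈ p.edges, e ∈ (p.toSubgraph.spanningCoe).edgeSet := by
          intro e he
          rw [Subgraph.edgeSet_spanningCoe]
          exact (Walk.mem_edges_toSubgraph p).mpr he
        have hv' : v ∈ (p.transfer _ h).support := by
          rw [Walk.support_transfer]; exact hv
        exact ((p.transfer _ h).takeUntil v hv').reachable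
      intro u v
      exact (key u).symm.trans (key v)
  · rintro ⟨F, hFG, h2, hconn⟩
    obtain ⟨v⟩ := ‹Nonempty V›
    have hcyc : F.IsCycles := fun v _ => h2 v
    have hn : (F.neighborSet v).Nonempty := by
      apply Set.nonempty_of_ncard_ne_zero
      rw [h2]; norm_num
    obtain ⟨p, hp, hverts⟩ := hcyc.exists_cycle_toSubgraph_verts_eq_connectedComponentSupp
      (c := F.connectedComponentMk v) (v := v) (by simp) hn
    refine ⟨v, p.mapLe hFG, ?_⟩
    rw [Walk.isHamiltonianCycle_iff_isCycle_and_support_count_tail_eq_one]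
    have hc : (p.mapLe hFG).IsCycle := hp.mapLe hFG
    refine ⟨hc, ?_⟩
    intro w
    have hw : w ∈ p.support := by
      rw [← Walk.mem_verts_toSubgraph, hverts]
      rw [ConnectedComponent.mem_supp_iff, ConnectedComponent.eq]
      exact hconn w v
    have hs : (p.mapLe hFG).support = p.support := Walk.support_mapLe_eq_support hFG p
    apply List.count_eq_one_of_mem hc.support_nodup
    rw [hs]
    rw [Walk.mem_support_iff] at hw
    rcases hw with rfl | hw
    · exact p.end_mem_tail_support hp.not_nil
    · exact hw

theorem hasHamCycle_of_iso' {V W : Type} [DecidableEq V] [DecidableEq W] {G : SimpleGraph V}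
    {H : SimpleGraph W} (f : G →g H) (hf : Function.Bijective f) (h : HasHamCycle G) :
    HasHamCycle H := by
  obtain ⟨a, p, hp⟩ := h
  exact ⟨_, p.map f, hp.map hf⟩

theorem hasHamCycle_of_iso {V W : Type} [DecidableEq V] [DecidableEq W] {G : SimpleGraph V}
    {H : SimpleGraph W} (e : G ≃g H) : HasHamCycle G ↔ HasHamCycle H :=
  ⟨fun h => hasHamCycle_of_iso' e.toHom e.bijective h,
    fun h => hasHamCycle_of_iso' e.symm.toHom e.symm.bijective h⟩

theorem hasHamCycle_cycleGraph (k : ℕ) : HasHamCycle (cycleGraph (k + 3)) := by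
  rw [hasHamCycle_iff]
  refine ⟨_, le_rfl, ?_, cycleGraph_preconnected⟩
  intro v
  have h := cycleGraph_degree_three_le (n := k) (v := v)
  rw [← card_neighborSet_eq_degree, ← Nat.card_eq_fintype_card] at h
  exact h

theorem mem_zip_rot (l : List ℕ) (e : ℕ × ℕ) :
    e ∈ l.zip (l.drop 1 ++ l.take 1) ↔
      ∃ i, i < l.length ∧ e = (l.getD i 0, l.getD ((i + 1) % l.length) 0) := by
  have hlen : (l.drop 1 ++ l.take 1).length = l.length := by
    simp; omega
  have hget : ∀ i, ∀ h : i < (l.drop 1 ++ l.take 1).length, (l.drop 1 ++ l.take 1)[i] =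
      l.getD ((i + 1) % l.length) 0 := by
    intro i h
    have h0 : i < l.length := by omega
    rw [List.getElem_append]
    split_ifs with h1
    · have h2 : i + 1 < l.length := by simp at h1; omega
      rw [Nat.mod_eq_of_lt h2, List.getD_eq_getElem _ _ h2]
      simp
    · have h2 : i + 1 = l.length := by simp at h1; omega
      rw [h2, Nat.mod_self, List.getD_eq_getElem _ _ (by omega)]
      simp at h1 ⊢
      congr 1
      omega
  rw [List.mem_iff_getElem]
  constructor
  · rintro ⟨i, hi, rfl⟩
    have h : i < l.length := by simp at hi; omega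
    refine ⟨i, h, ?_⟩
    rw [List.getElem_zip, hget i (by omega), List.getD_eq_getElem _ _ h]
  · rintro ⟨i, h, rfl⟩
    refine ⟨i, by simp; omega, ?_⟩
    rw [List.getElem_zip, hget i (by omega), List.getD_eq_getElem _ _ h]

theorem hasHamCycle_graphOf {n : ℕ} {E : List (ℕ × ℕ)} : HasHamCycle (graphOf n E) ↔
    ∃ l : List ℕ, l.length = n ∧ 3 ≤ n ∧ l.Nodup ∧ (∀ x ∈ l, x < n) ∧
      ∀ e ∈ l.zip (l.drop 1 ++ l.take 1), e ∈ E ∨ (e.2, e.1) ∈ E := by
  constructor
  · rintro ⟨a, p, hp⟩
    have hlen : p.length = n := by
      rw [hp.length_eq, Fintype.card_fin]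
    have h3 : 3 ≤ n := by rw [← hlen]; exact hp.isCycle.three_le_length
    have hl : (p.support.tail.map Fin.val).length = n := by simp [hlen]
    have hget : ∀ i, i < n → (p.support.tail.map Fin.val).getD i 0 = p.getVert (i + 1) := by
      intro i h
      rw [List.getD_eq_getElem _ _ (by omega), List.getElem_map, List.getElem_tail]
      rw [Walk.getVert_eq_support_getElem]
      rw [hlen]; omega
    refine ⟨p.support.tail.map Fin.val, hl, h3, ?_, ?_, ?_⟩
    · exact hp.isCycle.support_nodup.map Fin.val_injective
    · intro x hx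
      rw [List.mem_map] at hx
      obtain ⟨y, -, rfl⟩ := hx
      exact y.2
    · intro e he
      rw [mem_zip_rot] at he
      obtain ⟨i, hi, rfl⟩ := he
      rw [hl] at hi ⊢
      have hadj : (graphOf n E).Adj (p.getVert (i + 1)) (p.getVert ((i + 1) % n + 1)) := by
        by_cases h : i + 1 < n
        · rw [Nat.mod_eq_of_lt h]
          exact p.adj_getVert_succ (by omega)
        · have h2 : i + 1 = n := by omega
          rw [h2, Nat.mod_self]
          have h4 : p.getVert n = p.getVert 0 := by
            have h5 := p.getVert_length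
            rw [hlen] at h5
            rw [h5, p.getVert_zero]
          rw [h4]
          exact p.adj_getVert_succ (by omega)
      unfold graphOf at hadj
      rw [fromRel_adj] at hadj
      rw [hget _ hi, hget _ (Nat.mod_lt _ (by omega))]
      exact hadj.2
  · rintro ⟨l, hl, h3, hnd, hlt, hE⟩
    obtain ⟨k, rfl⟩ : ∃ k, n = k + 3 := ⟨n - 3, by omega⟩
    have hm : ∀ i : Fin (k + 3), l.getD i 0 < k + 3 := by
      intro i
      rw [List.getD_eq_getElem _ _ (by omega)]
      exact hlt _ (List.getElem_mem _)
    let f : Fin (k + 3) → Fin (k + 3) := fun i => ⟨l.getD i 0, hm i⟩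
    have hf : Function.Injective f := by
      intro i j hij
      have h1 : l.getD i 0 = l.getD j 0 := congrArg Fin.val hij
      rw [List.getD_eq_getElem _ _ (by omega), List.getD_eq_getElem _ _ (by omega)] at h1
      exact Fin.ext ((List.Nodup.getElem_inj_iff hnd).mp h1)
    have hadj : ∀ i : Fin (k + 3), (graphOf (k + 3) E).Adj (f i) (f (i + 1)) := by
      intro i
      unfold graphOf
      rw [fromRel_adj]
      constructor
      · intro h
        have h1 := hf h
        simp at h1
      · have h1 := hE (l.getD i 0, l.getD ((i + 1) % l.length) 0)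
          ((mem_zip_rot l _).mpr ⟨i.1, by omega, rfl⟩)
        have h2 : (f (i + 1) : ℕ) = l.getD ((i + 1) % l.length) 0 := by
          simp only [f]
          congr 1
          rw [Fin.val_add, hl]
          simp
        rw [h2]
        exact h1
    refine hasHamCycle_of_iso' (G := cycleGraph (k + 3)) ⟨f, ?_⟩
      (Finite.injective_iff_bijective.mp hf) (hasHamCycle_cycleGraph k)
    intro u v huv
    rw [cycleGraph_adj] at huv
    rcases huv with h | h
    · have h1 : u = v + 1 := (sub_eq_iff_eq_add'.mp h)
      rw [h1]
      exact (hadj v).symm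
    · have h1 : v = u + 1 := (sub_eq_iff_eq_add'.mp h)
      rw [h1]
      exact hadj u

end Pool.Agent.Work.MP_f63b47_lc
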