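import Pool.Agent.Work.MP_f63b47_lc.SubDefs
import Pool.Agent.Work.MP_f63b47_lc.Free

/-!
A small graph which is not contained in a disjoint union of suns with gadgets is not contained in
the graphs `GG L G K`.
-/

set_option autoImplicit false

namespace Pool.Agent.Work.MP_f63b47_lc

theorem toSuns_ray {I : Type} (L : Link I) (G : Fin 8 → Gadget) (K : ℕ) (enc : I × Fin 8 → ℕ)
    (henc : Function.Injective enc) (leg : I → ℕ) (t : I × Fin 8 → ℕ) (hK : ∀ p, (G p).r < K)
    (ht : ∀ x, (G x.2).r ≤ t x ∧ t x ≤ K) {v w : (I × Fin 8) × Fin (K + 1)}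
    (hv : (v.2 : ℕ) ≠ t v.1) (hw : (w.2 : ℕ) ≠ t w.1) (h : (GG L G K).Adj v w) :
    (GSuns G).Adj (toSuns L K enc leg t v) (toSuns L K enc leg t w) := by
  obtain ⟨x, s⟩ := v
  obtain ⟨y, r⟩ := w
  have hs := s.2
  have hr := r.2
  simp only at hv hw
  rcases h with ⟨h1, h2⟩ | ⟨h1, h2⟩ | ⟨h1, h2, h3⟩
  · simp only at h1 h2
    have hsr : (s : ℕ) < (G x.2).r ∧ (r : ℕ) < (G y.2).r := by
      rcases h2 with ⟨-, h3, h4⟩ | ⟨-, h3, h4⟩
      · exact ⟨h3 ▸ (G x.2).b.2, h4 ▸ (G y.2).a.2⟩
      · exact ⟨h4 ▸ (G x.2).a.2, h3 ▸ (G y.2).b.2⟩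
    have a1 : ¬ (enc x < enc (L.lam x) ∧ t x < (s : ℕ)) := by
      rintro ⟨-, h⟩
      have := (ht x).1
      omega
    have a2 : ¬ (enc y < enc (L.lam y) ∧ t y < (r : ℕ)) := by
      rintro ⟨-, h⟩
      have := (ht y).1
      omega
    unfold toSuns
    simp only [a1, a2, if_false]
    refine ⟨by rw [h1], ?_⟩
    rcases h2 with h2 | h2
    · exact Or.inl h2
    · exact Or.inr (Or.inl h2)
  · simp only at h1 h2
    subst h1
    unfold toSuns
    simp only
    have htx := ht x
    have hKx := hK (L.lam x).2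
    by_cases hm : enc x < enc (L.lam x)
    · by_cases hts : t x < (s : ℕ)
      · -- both beyond the cut
        have hsr : (r : ℕ) = s + 1 ∨ (s : ℕ) = r + 1 := by
          rcases h2 with ⟨h3, -, -⟩ | ⟨h3, -⟩ | ⟨h3, h4⟩ | ⟨-, h4⟩ | ⟨-, h4⟩
          · omega
          · have := (G x.2).c.2
            omega
          · omega
          · exact Or.inl h4
          · exact Or.inr h4
        have htr : t x < (r : ℕ) := by omega
        simp only [hm, hts, htr, and_self, if_true]
        refine ⟨rfl, Or.inr (Or.inr ⟨rfl, ?_⟩)⟩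
        simp only
        rcases hsr with hsr | hsr
        · exact Or.inr (Or.inr (Or.inr (Or.inr ⟨by omega, by omega⟩)))
        · exact Or.inr (Or.inr (Or.inr (Or.inl ⟨by omega, by omega⟩)))
      · have htr : ¬ t x < (r : ℕ) := by
          rcases h2 with ⟨-, h3, -⟩ | ⟨-, h3⟩ | ⟨h3, -⟩ | ⟨-, h4⟩ | ⟨-, h4⟩
          · omega
          · omega
          · have := (G x.2).c.2
            omega
          · omega
          · omega
        simp only [hts, htr, and_false, if_false]
        exact ⟨rfl, Or.inr (Or.inr ⟨rfl, h2⟩)⟩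
    · simp only [hm, false_and, if_false]
      exact ⟨rfl, Or.inr (Or.inr ⟨rfl, h2⟩)⟩
  · simp only at h1 h2 h3
    subst h3
    have hsx : t x < (s : ℕ) := by have := (ht x).2; omega
    have hry : t (L.lam x) < (r : ℕ) := by have := (ht (L.lam x)).2; omega
    have hne : enc (L.lam x) ≠ enc x := fun h => L.ne x (henc h)
    have hK1 := hK x.2
    have hK2 := hK (L.lam x).2
    unfold toSuns
    simp only [hsx, hry, and_true, L.inv]
    rcases lt_or_gt_of_ne hne with hlt | hlt
    · have hn : ¬ enc x < enc (L.lam x) := by omega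
      simp only [hn, hlt, if_true, if_false]
      refine ⟨rfl, Or.inr (Or.inr ⟨rfl, Or.inr (Or.inr (Or.inr (Or.inl ⟨?_, ?_⟩)))⟩)⟩
      all_goals (simp only; omega)
    · have hn : ¬ enc (L.lam x) < enc x := by omega
      have hlt' : enc x < enc (L.lam x) := hlt
      simp only [hn, hlt', if_true, if_false]
      refine ⟨rfl, Or.inr (Or.inr ⟨rfl, Or.inr (Or.inr (Or.inr (Or.inr ⟨?_, ?_⟩)))⟩)⟩
      all_goals (simp only; omega)

theorem free_gg {I : Type} [Fintype I] [DecidableEq I] (L : Link I) (G : Fin 8 → Gadget)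
    {m K : ℕ} (hK : ∀ p, (G p).r + m < K) {H : SimpleGraph (Fin m)} (h : H.Free (GSuns G)) :
    H.Free (GG L G K) := by
  rintro ⟨f⟩
  have hex : ∀ x : I × Fin 8, ∃ t : ℕ, ((G x.2).r ≤ t ∧ t ≤ K) ∧
      ∀ i, (f i).1 = x → ((f i).2 : ℕ) ≠ t := by
    intro x
    by_contra hcon
    push Not at hcon
    have hsub : Finset.Icc (G x.2).r K ⊆
        Finset.univ.image (fun i : Fin m => ((f i).2 : ℕ)) := by
      intro t ht
      rw [Finset.mem_Icc] at ht
      obtain ⟨i, -, hi⟩ := hcon t ht
      exact Finset.mem_image.mpr ⟨i, Finset.mem_univ _, hi⟩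
    have := Finset.card_le_card hsub
    have h2 := Finset.card_image_le (s := (Finset.univ : Finset (Fin m)))
      (f := fun i : Fin m => ((f i).2 : ℕ))
    have h3 := hK x.2
    simp only [Nat.card_Icc, Finset.card_univ, Fintype.card_fin] at this h2
    omega
  choose t ht htne using hex
  let enc : I × Fin 8 → ℕ := fun x => (Fintype.equivFin (I × Fin 8) x : ℕ)
  have henc : Function.Injective enc := fun a b hab =>
    (Fintype.equivFin (I × Fin 8)).injective (Fin.ext hab)
  let leg : I → ℕ := fun x => (Fintype.equivFin I x : ℕ)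
  have hleg : Function.Injective leg := fun a b hab => (Fintype.equivFin I).injective (Fin.ext hab)
  refine h ⟨⟨⟨fun i => toSuns L K enc leg t (f i), ?_⟩, ?_⟩⟩
  · intro a b hab
    exact toSuns_ray L G K enc henc leg t (fun p => by have := hK p; omega) ht (htne _ a rfl)
      (htne _ b rfl) (f.toHom.map_adj hab)
  · intro a b hab
    exact f.injective (toSuns_injective L K enc leg hleg t hab)

end Pool.Agent.Work.MP_f63b47_lc
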