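import Pool.Agent.Work.MP_f63b47_lc.SubHam2
import Pool.Agent.Work.MP_f63b47_lc.SubFree
import Pool.Agent.Work.MP_f63b47_lc.Final

/-!
The reduction for octagons with gadgets.
-/

set_option autoImplicit false
set_option linter.unusedSimpArgs false

namespace Pool.Agent.Work.MP_f63b47_lc

open Pool.Agent.Work.PolyTime

/-- The edges inside an octagon with gadgets. -/
def IntE (G : Fin 8 → Gadget) (p : Fin 8) (s : ℕ) (q : Fin 8) (t : ℕ) : Prop :=
  OctE G p s q t ∨ (p = q ∧ (G p).Ray.Adj s t)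

open Classical in
/-- The list of the edges inside an octagon with gadgets. -/
noncomputable def cL (G : Fin 8 → Gadget) (K : ℕ) : List ((ℕ × ℕ) × (ℕ × ℕ)) :=
  ((Finset.univ.filter fun e : (Fin 8 × Fin (K + 1)) × (Fin 8 × Fin (K + 1)) =>
    IntE G e.1.1 e.1.2 e.2.1 e.2.2).toList).map
    fun e => (((e.1.1 : ℕ), (e.1.2 : ℕ)), ((e.2.1 : ℕ), (e.2.2 : ℕ)))

theorem mem_cL {G : Fin 8 → Gadget} {K : ℕ} {y : (ℕ × ℕ) × (ℕ × ℕ)} : y ∈ cL G K ↔
    ∃ (p : Fin 8) (s : Fin (K + 1)) (q : Fin 8) (t : Fin (K + 1)), IntE G p s q t ∧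
      y = (((p : ℕ), (s : ℕ)), ((q : ℕ), (t : ℕ))) := by
  classical
  simp only [cL, List.mem_map, Finset.mem_toList, Finset.mem_filter, Finset.mem_univ, true_and]
  constructor
  · rintro ⟨⟨⟨p, s⟩, ⟨q, t⟩⟩, h, rfl⟩
    exact ⟨p, s, q, t, h, rfl⟩
  · rintro ⟨p, s, q, t, h, rfl⟩
    exact ⟨((p, s), (q, t)), h, rfl⟩

/-- The edges inside the octagons. -/
def eInt (l : List ((ℕ × ℕ) × (ℕ × ℕ))) (K : ℕ) (D : List Cl) : List (ℕ × ℕ) :=
  (List.range (D.length * 4)).flatMap fun i => l.map fun e =>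
    (cd K i e.1.1 e.1.2, cd K i e.2.1 e.2.2)

/-- The edges between the octagons. -/
def eLnk (K : ℕ) (D : List Cl) : List (ℕ × ℕ) := eRing K D ++ (eInn K D ++ eOut K D)

/-- All edges. -/
def edgesG (l : List ((ℕ × ℕ) × (ℕ × ℕ))) (K : ℕ) (D : List Cl) : List (ℕ × ℕ) :=
  eInt l K D ++ eLnk K D

section

variable (G : Fin 8 → Gadget) (K : ℕ) (c0 : Cl) (D' : List Cl)

/-- The directed edges. -/
inductive DirG (G : Fin 8 → Gadget) (K : ℕ) (c0 : Cl) (D' : List Cl) :
    VV (c0 :: D').length K → VV (c0 :: D').length K → Prop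
  | int (i : Fin (c0 :: D').length × Fin 4) (p : Fin 8) (s : Fin (K + 1)) (q : Fin 8)
      (t : Fin (K + 1)) (h : IntE G p s q t) : DirG G K c0 D' ((i, p), s) ((i, q), t)
  | link (c : (Fin (c0 :: D').length × Fin 4) × Fin 8) (hc : LG (c0 :: D') c) :
      DirG G K c0 D' (c, Fin.last K) ((linkD c0 D').lam c, Fin.last K)

theorem adj_iff_dirG (a b : VV (c0 :: D').length K) :
    (GG (linkD c0 D') G K).Adj a b ↔ DirG G K c0 D' a b ∨ DirG G K c0 D' b a := by
  constructor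
  · rintro (⟨h1, h2⟩ | ⟨h1, h2⟩ | ⟨h1, h2, h3⟩)
    · obtain ⟨⟨i, p⟩, s⟩ := a
      obtain ⟨⟨i', p'⟩, s'⟩ := b
      simp only at h1 h2
      subst h1
      rcases h2 with h2 | h2
      · exact Or.inl (DirG.int i p s p' s' (Or.inl h2))
      · exact Or.inr (DirG.int i p' s' p s (Or.inl h2))
    · obtain ⟨⟨i, p⟩, s⟩ := a
      obtain ⟨c', s'⟩ := b
      simp only at h1 h2
      subst h1
      exact Or.inl (DirG.int i p s p s' (Or.inr ⟨rfl, h2⟩))
    · obtain ⟨c, s⟩ := a
      obtain ⟨c', s'⟩ := b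
      simp only at h1 h2 h3
      have e1 : s = Fin.last K := Fin.ext h1
      have e2 : s' = Fin.last K := Fin.ext h2
      subst e1; subst e2; subst h3
      rcases LG_or c0 D' c with h | h
      · exact Or.inl (DirG.link c h)
      · right
        have := DirG.link (G := G) (K := K) _ h
        rwa [(linkD c0 D').inv] at this
  · have key : ∀ a b, DirG G K c0 D' a b → (GG (linkD c0 D') G K).Adj a b := by
      rintro _ _ (⟨i, p, s, q, t, h | ⟨rfl, h⟩⟩ | ⟨c, hc⟩)
      · exact Or.inl ⟨rfl, Or.inl h⟩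
      · exact Or.inr (Or.inl ⟨rfl, h⟩)
      · exact Or.inr (Or.inr ⟨rfl, rfl, rfl⟩)
    rintro (h | h)
    · exact key _ _ h
    · exact (key _ _ h).symm

theorem mem_eInt {l : List ((ℕ × ℕ) × (ℕ × ℕ))} {D : List Cl} {u v : ℕ} :
    (u, v) ∈ eInt l K D ↔ ∃ i < D.length * 4, ∃ e ∈ l,
      u = cd K i e.1.1 e.1.2 ∧ v = cd K i e.2.1 e.2.2 := by
  simp only [eInt, List.mem_flatMap, List.mem_map, List.mem_range, Prod.mk.injEq]
  constructor
  · rintro ⟨i, hi, e, he, h1, h2⟩; exact ⟨i, hi, e, he, h1.symm, h2.symm⟩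
  · rintro ⟨i, hi, e, he, h1, h2⟩; exact ⟨i, hi, e, he, h1.symm, h2.symm⟩

theorem mem_eLnk {u v : ℕ} : (u, v) ∈ eLnk K (c0 :: D') ↔
    ∃ c, LG (c0 :: D') c ∧ u = (eV (c0 :: D').length K (c, Fin.last K) : ℕ) ∧
      v = (eV (c0 :: D').length K ((linkD c0 D').lam c, Fin.last K) : ℕ) := by
  simp only [eLnk, List.mem_append, mem_eRing, mem_eInn, mem_eOut, eV_val]
  constructor
  · rintro (⟨i, hi, h⟩ | ⟨j, hj, x, h1, h2, rfl, rfl⟩ | ⟨j, hj, rfl, rfl⟩)
    · obtain ⟨x, rfl⟩ := exists_oct hi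
      rcases h with ⟨rfl, rfl⟩ | ⟨rfl, rfl⟩
      · refine ⟨(x, 3), Or.inl rfl, rfl, ?_⟩
        rw [linkD_lam, lamF_three, ← piF_val, e4_val]
        rfl
      · refine ⟨(x, 4), Or.inr (Or.inl rfl), rfl, ?_⟩
        rw [linkD_lam, lamF_four, ← piF_val, e4_val]
        rfl
    · refine ⟨pc (sgF (c0 :: D')) ((⟨j, hj⟩, x.1), x.2),
        Or.inr (Or.inr ⟨_, rfl, h1⟩), ?_, ?_⟩
      · have := sg_eq (c0 :: D') (⟨j, hj⟩, x.1)
        simp only at this
        rw [this, prtN_eq]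
        rfl
      · rw [linkD_lam, lamF_pc, ext_inner _ _ h1 h2]
        have := sg_eq (c0 :: D') (⟨j, hj⟩, (tb x).1)
        simp only at this
        rw [this, prtN_eq]
        rfl
    · refine ⟨pc (sgF (c0 :: D')) ((⟨j, hj⟩, 1), 3),
        Or.inr (Or.inr ⟨_, rfl, show ((1 : Fin 4), (3 : Fin 4)) ≠ (0, 0) by decide⟩), ?_, ?_⟩
      · have : ∀ b, ((prt b 3 : Fin 8) : ℕ) = 6 := by decide
        simp only [pc, this]
        rfl
      · rw [linkD_lam, lamF_pc, ext_out]
        have h2 : ∀ b, ((prt b 0 : Fin 8) : ℕ) = 2 := by decide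
        have h3 := rhoF_val D'.length ⟨j, hj⟩
        simp only at h3
        simp only [pc, h2, h3]
        rfl
  · rintro ⟨c, hc, rfl, rfl⟩
    rcases hc with hc | hc | ⟨y, rfl, hy⟩
    · obtain ⟨i, p⟩ := c
      simp only at hc; subst hc
      refine Or.inl ⟨(e4 _ i : ℕ), (e4 _ i).2, Or.inl ⟨rfl, ?_⟩⟩
      rw [← piF_val, linkD_lam, lamF_three]
      rfl
    · obtain ⟨i, p⟩ := c
      simp only at hc; subst hc
      refine Or.inl ⟨(e4 _ i : ℕ), (e4 _ i).2, Or.inr ⟨rfl, ?_⟩⟩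
      rw [← piF_val, linkD_lam, lamF_four]
      rfl
    · obtain ⟨⟨j, k⟩, r⟩ := y
      by_cases h2 : (k, r) = (1, 3)
      · obtain ⟨rfl, rfl⟩ := Prod.mk.inj h2
        refine Or.inr (Or.inr ⟨j, j.2, ?_, ?_⟩)
        · have : ∀ b, ((prt b 3 : Fin 8) : ℕ) = 6 := by decide
          simp only [pc, this]
          rfl
        · rw [linkD_lam, lamF_pc, ext_out]
          have h2 : ∀ b, ((prt b 0 : Fin 8) : ℕ) = 2 := by decide
          have h3 := rhoF_val D'.length j
          simp only [pc, h2, h3]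
          rfl
      · refine Or.inr (Or.inl ⟨j, j.2, (k, r), hy, h2, ?_, ?_⟩)
        · have := sg_eq (c0 :: D') (j, k)
          simp only at this
          simp only
          rw [this, prtN_eq]
          rfl
        · rw [linkD_lam, lamF_pc, ext_inner _ _ hy h2]
          have := sg_eq (c0 :: D') (j, (tb (k, r)).1)
          simp only at this
          rw [this, prtN_eq]
          rfl

theorem mem_edgesG {u v : ℕ} : (u, v) ∈ edgesG (cL G K) K (c0 :: D') ↔
    ∃ x y, DirG G K c0 D' x y ∧ u = (eV (c0 :: D').length K x : ℕ) ∧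
      v = (eV (c0 :: D').length K y : ℕ) := by
  simp only [edgesG, List.mem_append, mem_eInt, mem_eLnk]
  constructor
  · rintro (⟨i, hi, e, he, rfl, rfl⟩ | ⟨c, hc, rfl, rfl⟩)
    · obtain ⟨x, rfl⟩ := exists_oct hi
      obtain ⟨p, s, q, t, h, rfl⟩ := mem_cL.1 he
      exact ⟨_, _, DirG.int x p s q t h, rfl, rfl⟩
    · exact ⟨_, _, DirG.link c hc, rfl, rfl⟩
  · rintro ⟨_, _, ⟨i, p, s, q, t, h⟩ | ⟨c, hc⟩, rfl, rfl⟩
    · exact Or.inl ⟨(e4 _ i : ℕ), (e4 _ i).2, _, mem_cL.2 ⟨p, s, q, t, h, rfl⟩, rfl, rfl⟩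
    · exact Or.inr ⟨c, hc, rfl, rfl⟩

/-- The graph of the reduction. -/
noncomputable def isoG : GG (linkD c0 D') G K ≃g
    graphOf ((c0 :: D').length * 4 * 8 * (K + 1)) (edgesG (cL G K) K (c0 :: D')) where
  toEquiv := eV (c0 :: D').length K
  map_rel_iff' := by
    intro a b
    rw [adj_iff_dirG]
    unfold graphOf
    rw [SimpleGraph.fromRel_adj, mem_edgesG, mem_edgesG]
    constructor
    · rintro ⟨-, ⟨x, y, h, h1, h2⟩ | ⟨x, y, h, h1, h2⟩⟩
      · have e1 := (eV (c0 :: D').length K).injective (Fin.ext h1)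
        have e2 := (eV (c0 :: D').length K).injective (Fin.ext h2)
        rw [e1, e2]
        exact Or.inl h
      · have e1 := (eV (c0 :: D').length K).injective (Fin.ext h1)
        have e2 := (eV (c0 :: D').length K).injective (Fin.ext h2)
        rw [e1, e2]
        exact Or.inr h
    · intro h
      refine ⟨?_, ?_⟩
      · intro he
        have := (eV (c0 :: D').length K).injective he
        rw [← adj_iff_dirG] at h
        exact h.ne this
      · rcases h with h | h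
        · exact Or.inl ⟨a, b, h, rfl, rfl⟩
        · exact Or.inr ⟨b, a, h, rfl, rfl⟩

end

/-- The reduction. -/
noncomputable def redG (G : Fin 8 → Gadget) (K : ℕ) (C : List NClause) : ℕ × List (ℕ × ℕ) :=
  ((padC C).length * 4 * 8 * (K + 1), edgesG (cL G K) K (padC C))

theorem redG_ham {G : Fin 8 → Gadget} {K : ℕ} (hK : ∀ p, (G p).r < K) {C : List NClause}
    (h : ∀ c ∈ C, c.length ≤ 3) :
    CnfSat C ↔ HasHamCycle (graphOf (redG G K C).1 (redG G K C).2) := by
  rw [padC_iff h]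
  have h1 := hasHamCycle_of_iso (isoG G K ((true, 0), (true, 0), (false, 0)) (C.flatMap padCl))
  have h2 := conn_iff ((true, 0), (true, 0), (false, 0)) (C.flatMap padCl)
  have h3 := gg_ham (linkD ((true, 0), (true, 0), (false, 0)) (C.flatMap padCl)) G hK
  rw [h3, h2] at h1
  exact h1

theorem redG_free {G : Fin 8 → Gadget} {K m : ℕ} (hK : ∀ p, (G p).r + m < K)
    (C : List NClause) {H : SimpleGraph (Fin m)} (h : H.Free (GSuns G)) :
    H.Free (graphOf (redG G K C).1 (redG G K C).2) :=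
  free_of_iso (isoG G K ((true, 0), (true, 0), (false, 0)) (C.flatMap padCl))
    (free_gg _ G hK h)

section

variable {α : Type} [Code α]

theorem PTime.eInt (l : List ((ℕ × ℕ) × (ℕ × ℕ))) (K : ℕ) :
    PTime (MP_f63b47_lc.eInt l K) := by
  unfold MP_f63b47_lc.eInt
  refine PTime.flatMap (PTime.range (by fun_prop)) ?_
  refine PTime.map (PTime.const _) ?_
  exact PTime.prodMk (PTime.cd K (by fun_prop) (by fun_prop) (by fun_prop))
    (PTime.cd K (by fun_prop) (by fun_prop) (by fun_prop))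

theorem PTime.redG (G : Fin 8 → Gadget) (K : ℕ) : PTime (MP_f63b47_lc.redG G K) := by
  unfold MP_f63b47_lc.redG MP_f63b47_lc.edgesG MP_f63b47_lc.eLnk
  have h := PTime.padC
  refine PTime.prodMk ?_ ?_
  · exact PTime.natMul (PTime.natMul (PTime.natMul (PTime.length h) (PTime.const _))
      (PTime.const _)) (PTime.const _)
  · exact PTime.append ((PTime.eInt _ K).comp h) (PTime.append ((PTime.eRing K).comp h)
      (PTime.append ((PTime.eInn K).comp h) ((PTime.eOut K).comp h)))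

end

/-- **NP-hardness.** -/
theorem nphard_problemG (G : Fin 8 → Gadget) {k : ℕ} {m : Fin k → ℕ}
    (H : ∀ i, SimpleGraph (Fin (m i))) (h : ∀ i, (H i).Free (GSuns G)) :
    NPHard (problem (fun _ => True) (Yes H)) := by
  let K : ℕ := ∑ p, (G p).r + ∑ i, m i + 1
  have hK : ∀ p i, (G p).r + m i < K := by
    intro p i
    have h1 : (G p).r ≤ ∑ p, (G p).r :=
      Finset.single_le_sum (f := fun p => (G p).r) (fun _ _ => Nat.zero_le _) (Finset.mem_univ p)
    have h2 : m i ≤ ∑ i, m i := Finset.single_le_sum (fun _ _ => Nat.zero_le _) (Finset.mem_univ i)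
    omega
  have hK' : ∀ p, (G p).r < K := by
    intro p
    have h1 : (G p).r ≤ ∑ p, (G p).r :=
      Finset.single_le_sum (f := fun p => (G p).r) (fun _ _ => Nat.zero_le _) (Finset.mem_univ p)
    omega
  refine nphard_of_cnf (PTime.redG G K) (fun _ => trivial) (fun C hC => ?_)
  rw [redG_ham hK' hC]
  exact ⟨fun hh => ⟨fun i => redG_free (fun p => hK p i) C (h i), hh⟩, fun hh => hh.2⟩

end Pool.Agent.Work.MP_f63b47_lc
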