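import Pool.Agent.Work.MP_f63b47_lc.Red

/-!
The graph of the reduction is the graph of octagons and paths.
-/

set_option autoImplicit false
set_option linter.unusedSimpArgs false

namespace Pool.Agent.Work.MP_f63b47_lc

open Pool.Agent.Work.PolyTime

section

variable (K : ℕ) (c0 : Cl) (D' : List Cl)

abbrev VV (M K : ℕ) : Type := ((Fin M × Fin 4) × Fin 8) × Fin (K + 1)

/-- The sign of an octagon. -/
def sgF (D : List Cl) (i : Fin D.length × Fin 4) : Bool := (litsF D i.1 (lidx i.2)).1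

theorem sg_eq (D : List Cl) (i : Fin D.length × Fin 4) :
    sg D ((i.2 : ℕ) + 4 * i.1) = sgF D i := by
  unfold sg sgF
  rw [← e4_val, getD_e4]

/-- Half of the corners, one of each link (or both). -/
def LG (D : List Cl) (c : (Fin D.length × Fin 4) × Fin 8) : Prop :=
  c.2 = 3 ∨ c.2 = 4 ∨ ∃ y : (Fin D.length × Fin 4) × Fin 4, c = pc (sgF D) y ∧
    (y.1.2, y.2) ≠ (0, 0)

theorem linkD_lam : (linkD c0 D').lam =
    lamF (rhoF D'.length) (piF (c0 :: D')) (sgF (c0 :: D')) := rfl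

theorem LG_or (c : (Fin (c0 :: D').length × Fin 4) × Fin 8) :
    LG (c0 :: D') c ∨ LG (c0 :: D') ((linkD c0 D').lam c) := by
  rw [linkD_lam]
  rcases corner_cases (sgF (c0 :: D')) c with h | h | h | h | ⟨y, rfl⟩
  · obtain ⟨i, p⟩ := c
    simp only at h; subst h
    exact Or.inr (Or.inl rfl)
  · obtain ⟨i, p⟩ := c
    simp only at h; subst h
    exact Or.inr (Or.inr (Or.inl rfl))
  · exact Or.inl (Or.inl h)
  · exact Or.inl (Or.inr (Or.inl h))
  · by_cases hy : (y.1.2, y.2) = (0, 0)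
    · refine Or.inr (Or.inr (Or.inr ⟨ext (rhoF D'.length) y, lamF_pc _ _ _ _, ?_⟩))
      obtain ⟨⟨j, k⟩, r⟩ := y
      simp only [Prod.mk.injEq] at hy
      obtain ⟨rfl, rfl⟩ := hy
      rw [ext_in]
      exact show ((1 : Fin 4), (3 : Fin 4)) ≠ (0, 0) by decide
    · exact Or.inl (Or.inr (Or.inr ⟨y, rfl, hy⟩))

/-- The directed edges. -/
inductive Dir (K : ℕ) (c0 : Cl) (D' : List Cl) :
    VV (c0 :: D').length K → VV (c0 :: D').length K → Prop
  | oct (i : Fin (c0 :: D').length × Fin 4) (p : Fin 8) : Dir K c0 D' ((i, p), 0) ((i, p + 1), 0)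
  | leg (c : (Fin (c0 :: D').length × Fin 4) × Fin 8) (s : ℕ) (hs : s < K) :
      Dir K c0 D' (c, ⟨s, by omega⟩) (c, ⟨s + 1, by omega⟩)
  | link (c : (Fin (c0 :: D').length × Fin 4) × Fin 8) (hc : LG (c0 :: D') c) :
      Dir K c0 D' (c, Fin.last K) ((linkD c0 D').lam c, Fin.last K)

theorem adj_iff_dir (a b : VV (c0 :: D').length K) :
    (OG (linkD c0 D') K).Adj a b ↔ Dir K c0 D' a b ∨ Dir K c0 D' b a := by
  constructor
  · rintro (⟨h1, h2, h3, h4⟩ | ⟨h1, h2⟩ | ⟨h1, h2, h3⟩)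
    · obtain ⟨⟨i, p⟩, s⟩ := a
      obtain ⟨⟨i', p'⟩, s'⟩ := b
      simp only at h1 h2 h3 h4
      subst h1
      have e1 : s = 0 := Fin.ext h2
      have e2 : s' = 0 := Fin.ext h3
      subst e1; subst e2
      rcases h4 with rfl | rfl
      · exact Or.inl (Dir.oct i p)
      · exact Or.inr (Dir.oct i p')
    · obtain ⟨c, s⟩ := a
      obtain ⟨c', s'⟩ := b
      simp only at h1 h2
      subst h1
      rcases h2 with h2 | h2
      · left
        have e : s' = ⟨(s : ℕ) + 1, by omega⟩ := Fin.ext h2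
        rw [e]
        exact Dir.leg c s (by omega)
      · right
        have e : s = ⟨(s' : ℕ) + 1, by omega⟩ := Fin.ext h2
        rw [e]
        exact Dir.leg c s' (by omega)
    · obtain ⟨c, s⟩ := a
      obtain ⟨c', s'⟩ := b
      simp only at h1 h2 h3
      have e1 : s = Fin.last K := Fin.ext h1
      have e2 : s' = Fin.last K := Fin.ext h2
      subst e1; subst e2; subst h3
      rcases LG_or c0 D' c with h | h
      · exact Or.inl (Dir.link c h)
      · right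
        have := Dir.link (K := K) _ h
        rwa [(linkD c0 D').inv] at this
  · have key : ∀ a b, Dir K c0 D' a b → (OG (linkD c0 D') K).Adj a b := by
      rintro _ _ (⟨i, p⟩ | ⟨c, s, hs⟩ | ⟨c, hc⟩)
      · exact Or.inl ⟨rfl, rfl, rfl, Or.inl rfl⟩
      · exact Or.inr (Or.inl ⟨rfl, Or.inl rfl⟩)
      · exact Or.inr (Or.inr ⟨rfl, rfl, rfl⟩)
    rintro (h | h)
    · exact key _ _ h
    · exact (key _ _ h).symm

theorem mem_eOct {D : List Cl} {u v : ℕ} : (u, v) ∈ eOct K D ↔ ∃ i < D.length * 4, ∃ p < 8,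
    u = cd K i p 0 ∧ v = cd K i (if p = 7 then 0 else p + 1) 0 := by
  simp only [eOct, List.mem_flatMap, List.mem_map, List.mem_range, Prod.mk.injEq]
  constructor
  · rintro ⟨i, hi, p, hp, h1, h2⟩; exact ⟨i, hi, p, hp, h1.symm, h2.symm⟩
  · rintro ⟨i, hi, p, hp, h1, h2⟩; exact ⟨i, hi, p, hp, h1.symm, h2.symm⟩

theorem mem_eLeg {D : List Cl} {u v : ℕ} : (u, v) ∈ eLeg K D ↔ ∃ i < D.length * 4, ∃ p < 8,
    ∃ s < K, u = cd K i p s ∧ v = cd K i p (s + 1) := by
  simp only [eLeg, List.mem_flatMap, List.mem_map, List.mem_range, Prod.mk.injEq]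
  constructor
  · rintro ⟨i, hi, p, hp, s, hs, h1, h2⟩; exact ⟨i, hi, p, hp, s, hs, h1.symm, h2.symm⟩
  · rintro ⟨i, hi, p, hp, s, hs, h1, h2⟩; exact ⟨i, hi, p, hp, s, hs, h1.symm, h2.symm⟩

theorem mem_eRing {D : List Cl} {u v : ℕ} : (u, v) ∈ eRing K D ↔ ∃ i < D.length * 4,
    (u = cd K i 3 K ∧ v = cd K (nxN (slots D) i) 0 K) ∨
      (u = cd K i 4 K ∧ v = cd K (nxN (slots D) i) 1 K) := by
  simp only [eRing, List.mem_flatMap, List.mem_cons, List.not_mem_nil, or_false, List.mem_range,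
    Prod.mk.injEq]

theorem mem_eInn {D : List Cl} {u v : ℕ} : (u, v) ∈ eInn K D ↔ ∃ j < D.length,
    ∃ x : Fin 4 × Fin 4, x ≠ (0, 0) ∧ x ≠ (1, 3) ∧
      u = cd K ((x.1 : ℕ) + 4 * j) (prtN (sg D ((x.1 : ℕ) + 4 * j)) x.2) K ∧
      v = cd K (((tb x).1 : ℕ) + 4 * j) (prtN (sg D (((tb x).1 : ℕ) + 4 * j)) (tb x).2) K := by
  simp only [eInn, List.mem_flatMap, List.mem_map, List.mem_range, Prod.mk.injEq, mem_tbl]
  constructor
  · rintro ⟨j, hj, _, ⟨x, h1, h2, rfl⟩, h3, h4⟩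
    exact ⟨j, hj, x, h1, h2, h3.symm, h4.symm⟩
  · rintro ⟨j, hj, x, h1, h2, h3, h4⟩
    exact ⟨j, hj, _, ⟨x, h1, h2, rfl⟩, h3.symm, h4.symm⟩

theorem mem_eOut {D : List Cl} {u v : ℕ} : (u, v) ∈ eOut K D ↔ ∃ j < D.length,
    u = cd K (1 + 4 * j) 6 K ∧ v = cd K (0 + 4 * (if j + 1 = D.length then 0 else j + 1)) 2 K := by
  simp only [eOut, List.mem_map, List.mem_range, Prod.mk.injEq]
  constructor
  · rintro ⟨j, hj, h1, h2⟩; exact ⟨j, hj, h1.symm, h2.symm⟩
  · rintro ⟨j, hj, h1, h2⟩; exact ⟨j, hj, h1.symm, h2.symm⟩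

theorem fin8_succ (p : Fin 8) : ((p + 1 : Fin 8) : ℕ) = if (p : ℕ) = 7 then 0 else (p : ℕ) + 1 := by
  revert p; decide

theorem exists_oct {M : ℕ} {i : ℕ} (hi : i < M * 4) : ∃ x : Fin M × Fin 4,
    (e4 M x : ℕ) = i := ⟨(e4 M).symm ⟨i, hi⟩, by simp⟩

theorem mem_edges {u v : ℕ} : (u, v) ∈ edges K (c0 :: D') ↔
    ∃ x y, Dir K c0 D' x y ∧ u = (eV (c0 :: D').length K x : ℕ) ∧
      v = (eV (c0 :: D').length K y : ℕ) := by
  simp only [edges, List.mem_append, mem_eOct, mem_eLeg, mem_eRing, mem_eInn, mem_eOut, eV_val]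
  constructor
  · rintro (⟨i, hi, p, hp, rfl, rfl⟩ | ⟨i, hi, p, hp, s, hs, rfl, rfl⟩ | ⟨i, hi, h⟩ |
      ⟨j, hj, x, h1, h2, rfl, rfl⟩ | ⟨j, hj, rfl, rfl⟩)
    · obtain ⟨x, rfl⟩ := exists_oct hi
      refine ⟨_, _, Dir.oct x ⟨p, hp⟩, rfl, ?_⟩
      simp only [fin8_succ, e4_val]
      rfl
    · obtain ⟨x, rfl⟩ := exists_oct hi
      exact ⟨_, _, Dir.leg (x, ⟨p, hp⟩) s hs, rfl, rfl⟩
    · obtain ⟨x, rfl⟩ := exists_oct hi
      rcases h with ⟨rfl, rfl⟩ | ⟨rfl, rfl⟩
      · refine ⟨_, _, Dir.link (x, 3) (Or.inl rfl), rfl, ?_⟩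
        rw [linkD_lam, lamF_three, ← piF_val, e4_val]
        rfl
      · refine ⟨_, _, Dir.link (x, 4) (Or.inr (Or.inl rfl)), rfl, ?_⟩
        rw [linkD_lam, lamF_four, ← piF_val, e4_val]
        rfl
    · refine ⟨_, _, Dir.link (pc (sgF (c0 :: D')) ((⟨j, hj⟩, x.1), x.2))
        (Or.inr (Or.inr ⟨_, rfl, h1⟩)), ?_, ?_⟩
      · have := sg_eq (c0 :: D') (⟨j, hj⟩, x.1)
        simp only at this
        rw [this, prtN_eq]
        rfl
      · rw [linkD_lam, lamF_pc, ext_inner _ _ h1 h2]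
        have := sg_eq (c0 :: D') (⟨j, hj⟩, (tb x).1)
        simp only at this
        rw [this, prtN_eq]
        rfl
    · refine ⟨_, _, Dir.link (pc (sgF (c0 :: D')) ((⟨j, hj⟩, 1), 3))
        (Or.inr (Or.inr ⟨_, rfl, show ((1 : Fin 4), (3 : Fin 4)) ≠ (0, 0) by decide⟩)), ?_, ?_⟩
      · have : ∀ b, ((prt b 3 : Fin 8) : ℕ) = 6 := by decide
        simp only [pc, this]
        rfl
      · rw [linkD_lam, lamF_pc, ext_out]
        have h2 : ∀ b, ((prt b 0 : Fin 8) : ℕ) = 2 := by decide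
        have h3 := rhoF_val D'.length ⟨j, hj⟩
        simp only at h3
        simp only [pc, h2, h3]
        rfl
  · rintro ⟨_, _, ⟨i, p⟩ | ⟨c, s, hs⟩ | ⟨c, hc⟩, rfl, rfl⟩
    · refine Or.inl ⟨(e4 _ i : ℕ), (e4 _ i).2, p, p.2, rfl, ?_⟩
      simp only [← fin8_succ]
      rfl
    · exact Or.inr (Or.inl ⟨(e4 _ c.1 : ℕ), (e4 _ c.1).2, c.2, c.2.2, s, hs, rfl, rfl⟩)
    · rcases hc with hc | hc | ⟨y, rfl, hy⟩
      · obtain ⟨i, p⟩ := c
        simp only at hc; subst hc
        refine Or.inr (Or.inr (Or.inl ⟨(e4 _ i : ℕ), (e4 _ i).2, Or.inl ⟨rfl, ?_⟩⟩))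
        rw [← piF_val, linkD_lam, lamF_three]
        rfl
      · obtain ⟨i, p⟩ := c
        simp only at hc; subst hc
        refine Or.inr (Or.inr (Or.inl ⟨(e4 _ i : ℕ), (e4 _ i).2, Or.inr ⟨rfl, ?_⟩⟩))
        rw [← piF_val, linkD_lam, lamF_four]
        rfl
      · obtain ⟨⟨j, k⟩, r⟩ := y
        by_cases h2 : (k, r) = (1, 3)
        · obtain ⟨rfl, rfl⟩ := Prod.mk.inj h2
          refine Or.inr (Or.inr (Or.inr (Or.inr ⟨j, j.2, ?_, ?_⟩)))
          · have : ∀ b, ((prt b 3 : Fin 8) : ℕ) = 6 := by decide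
            simp only [pc, this]
            rfl
          · rw [linkD_lam, lamF_pc, ext_out]
            have h2 : ∀ b, ((prt b 0 : Fin 8) : ℕ) = 2 := by decide
            have h3 := rhoF_val D'.length j
            simp only [pc, h2, h3]
            rfl
        · refine Or.inr (Or.inr (Or.inr (Or.inl ⟨j, j.2, (k, r), hy, h2, ?_, ?_⟩)))
          · have := sg_eq (c0 :: D') (j, k)
            simp only at this
            simp only
            rw [this, prtN_eq]
            rfl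
          · rw [linkD_lam, lamF_pc, ext_inner _ _ hy h2]
            have := sg_eq (c0 :: D') (j, (tb (k, r)).1)
            simp only at this
            rw [this, prtN_eq]
            rfl

/-- The graph of the reduction. -/
noncomputable def isoD : OG (linkD c0 D') K ≃g
    graphOf ((c0 :: D').length * 4 * 8 * (K + 1)) (edges K (c0 :: D')) where
  toEquiv := eV (c0 :: D').length K
  map_rel_iff' := by
    intro a b
    rw [adj_iff_dir]
    unfold graphOf
    rw [SimpleGraph.fromRel_adj, mem_edges, mem_edges]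
    constructor
    · rintro ⟨-, ⟨x, y, h, h1, h2⟩ | ⟨x, y, h, h1, h2⟩⟩
      · have e1 := (eV (c0 :: D').length K).injective (Fin.ext h1)
        have e2 := (eV (c0 :: D').length K).injective (Fin.ext h2)
        rw [e1, e2]
        exact Or.inl h
      · have e1 := (eV (c0 :: D').length K).injective (Fin.ext h1)
        have e2 := (eV (c0 :: D').length K).injective (Fin.ext h2)
        rw [e1, e2]
        exact Or.inr h
    · intro h
      refine ⟨?_, ?_⟩
      · intro he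
        have := (eV (c0 :: D').length K).injective he
        rw [← adj_iff_dir] at h
        exact h.ne this
      · rcases h with h | h
        · exact Or.inl ⟨a, b, h, rfl, rfl⟩
        · exact Or.inr ⟨b, a, h, rfl, rfl⟩

end

/-- The reduction. -/
def redF (K : ℕ) (C : List NClause) : ℕ × List (ℕ × ℕ) :=
  ((padC C).length * 4 * 8 * (K + 1), edges K (padC C))

theorem redF_ham {K : ℕ} (hK : 1 ≤ K) {C : List NClause} (h : ∀ c ∈ C, c.length ≤ 3) :
    CnfSat C ↔ HasHamCycle (graphOf (redF K C).1 (redF K C).2) := by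
  rw [padC_iff h]
  have h1 := hasHamCycle_of_iso (isoD K ((true, 0), (true, 0), (false, 0)) (C.flatMap padCl))
  have h2 := conn_iff ((true, 0), (true, 0), (false, 0)) (C.flatMap padCl)
  have h3 := og_ham (linkD ((true, 0), (true, 0), (false, 0)) (C.flatMap padCl)) hK
  rw [h3, h2] at h1
  exact h1

theorem redF_free {K m : ℕ} (hK : m < K) (C : List NClause) {H : SimpleGraph (Fin m)}
    (h : H.Free Suns) : H.Free (graphOf (redF K C).1 (redF K C).2) :=
  free_of_iso (isoD K ((true, 0), (true, 0), (false, 0)) (C.flatMap padCl)) (free_og _ hK h)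

end Pool.Agent.Work.MP_f63b47_lc
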