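import Pool.Agent.Work.MP_f63b47_lc.Sat
import Pool.Agent.Work.PolyTime.NPClose

/-!
The next occurrence of a variable, in the cyclic order.
-/

set_option autoImplicit false
set_option linter.unusedSimpArgs false

namespace Pool.Agent.Work.MP_f63b47_lc

open Pool.Agent.Work.PolyTime

abbrev Lit : Type := Bool × ℕ
abbrev Cl : Type := Lit × Lit × Lit

def dl : Lit := (true, 0)

/-- The cyclically next position with the same variable. -/
def nxN (T : List Lit) (i : ℕ) : ℕ :=
  (((List.range T.length).filter fun k =>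
    decide ((T.getD k dl).2 = (T.getD i dl).2) && decide (i < k)).head?).getD
    ((((List.range T.length).filter fun k =>
      decide ((T.getD k dl).2 = (T.getD i dl).2)).head?).getD 0)

theorem head_filter_range {n : ℕ} {p : ℕ → Bool} (h : ∃ k, k < n ∧ p k = true) (d : ℕ) :
    ∃ k, k < n ∧ p k = true ∧ (∀ l, l < n → p l = true → k ≤ l) ∧
      (((List.range n).filter p).head?).getD d = k := by
  classical
  refine ⟨Nat.find h, (Nat.find_spec h).1, (Nat.find_spec h).2,
    fun l hl hl' => Nat.find_min' h ⟨hl, hl'⟩, ?_⟩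
  rw [List.head?_filter]
  have : (List.range n).find? p = some (Nat.find h) := by
    rw [List.find?_range_eq_some]
    refine ⟨(Nat.find_spec h).2, List.mem_range.2 (Nat.find_spec h).1, fun j hj => ?_⟩
    have := Nat.find_min h hj
    have hjn : j < n := lt_trans hj (Nat.find_spec h).1
    simp only [hjn, true_and] at this
    simpa using this
  rw [this]
  rfl

theorem head_filter_none {n : ℕ} {p : ℕ → Bool} (h : ¬ ∃ k, k < n ∧ p k = true) (d : ℕ) :
    (((List.range n).filter p).head?).getD d = d := by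
  have : (List.range n).filter p = [] := by
    rw [List.filter_eq_nil_iff]
    intro a ha hp
    exact h ⟨a, List.mem_range.1 ha, hp⟩
  rw [this]
  rfl

variable {T : List Lit}

theorem nx_later {i : ℕ} (h : ∃ k, k < T.length ∧ (T.getD k dl).2 = (T.getD i dl).2 ∧ i < k) :
    i < nxN T i ∧ nxN T i < T.length ∧ (T.getD (nxN T i) dl).2 = (T.getD i dl).2 ∧
      ∀ k, k < T.length → (T.getD k dl).2 = (T.getD i dl).2 → i < k → nxN T i ≤ k := by
  obtain ⟨k, h1, h2, h3, h4⟩ := head_filter_range (n := T.length)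
    (p := fun k => decide ((T.getD k dl).2 = (T.getD i dl).2) && decide (i < k))
    (by obtain ⟨k, a, b, c⟩ := h; exact ⟨k, a, by simp only [b, c, decide_true, Bool.and_self]⟩)
    ((((List.range T.length).filter fun k =>
      decide ((T.getD k dl).2 = (T.getD i dl).2)).head?).getD 0)
  have h5 : nxN T i = k := h4
  simp only [Bool.and_eq_true, decide_eq_true_eq] at h2 h3
  rw [h5]
  exact ⟨h2.2, h1, h2.1, fun l hl hl' hl'' => h3 l hl ⟨hl', hl''⟩⟩

theorem nx_wrap {i : ℕ} (hi : i < T.length)
    (h : ¬ ∃ k, k < T.length ∧ (T.getD k dl).2 = (T.getD i dl).2 ∧ i < k) :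
    nxN T i ≤ i ∧ nxN T i < T.length ∧ (T.getD (nxN T i) dl).2 = (T.getD i dl).2 ∧
      ∀ k, k < T.length → (T.getD k dl).2 = (T.getD i dl).2 → nxN T i ≤ k := by
  have h0 : nxN T i = (((List.range T.length).filter fun k =>
      decide ((T.getD k dl).2 = (T.getD i dl).2)).head?).getD 0 := by
    unfold nxN
    rw [head_filter_none]
    rintro ⟨k, h1, h2⟩
    simp only [Bool.and_eq_true, decide_eq_true_eq] at h2
    exact h ⟨k, h1, h2⟩
  obtain ⟨k, h1, h2, h3, h4⟩ := head_filter_range (n := T.length)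
    (p := fun k => decide ((T.getD k dl).2 = (T.getD i dl).2)) ⟨i, hi, by simp⟩ 0
  rw [h0, h4]
  simp only [decide_eq_true_eq] at h2 h3
  exact ⟨h3 i hi rfl, h1, h2, fun l hl hl' => h3 l hl hl'⟩

theorem nx_lt {i : ℕ} (hi : i < T.length) : nxN T i < T.length := by
  by_cases h : ∃ k, k < T.length ∧ (T.getD k dl).2 = (T.getD i dl).2 ∧ i < k
  · exact (nx_later h).2.1
  · exact (nx_wrap hi h).2.1

theorem nx_var {i : ℕ} (hi : i < T.length) : (T.getD (nxN T i) dl).2 = (T.getD i dl).2 := by
  by_cases h : ∃ k, k < T.length ∧ (T.getD k dl).2 = (T.getD i dl).2 ∧ i < k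
  · exact (nx_later h).2.2.1
  · exact (nx_wrap hi h).2.2.1

theorem nx_inj_aux {i j : ℕ} (hi : i < T.length) (hj : j < T.length) (hij : i < j)
    (h : nxN T i = nxN T j) : False := by
  have hv : (T.getD j dl).2 = (T.getD i dl).2 := by
    rw [← nx_var hi, ← nx_var hj, h]
  obtain ⟨a1, a2, a3, a4⟩ := nx_later (i := i) ⟨j, hj, hv, hij⟩
  have a5 := a4 j hj hv hij
  by_cases hl : ∃ k, k < T.length ∧ (T.getD k dl).2 = (T.getD j dl).2 ∧ j < k
  · obtain ⟨b1, -⟩ := nx_later hl
    omega
  · obtain ⟨-, -, -, b4⟩ := nx_wrap hj hl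
    have := b4 i hi hv.symm
    omega

theorem nx_inj {i j : ℕ} (hi : i < T.length) (hj : j < T.length) (h : nxN T i = nxN T j) :
    i = j := by
  rcases lt_trichotomy i j with h1 | h1 | h1
  · exact (nx_inj_aux hi hj h1 h).elim
  · exact h1
  · exact (nx_inj_aux hj hi h1 h.symm).elim

/-- A function that is constant along `nxN` depends only on the variable. -/
theorem nx_const {σ : ℕ → Bool} (hσ : ∀ i, i < T.length → σ (nxN T i) = σ i) {i j : ℕ}
    (hi : i < T.length) (hj : j < T.length) (hv : (T.getD i dl).2 = (T.getD j dl).2) :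
    σ i = σ j := by
  have key : ∀ d i j : ℕ, j - i = d → i < j → j < T.length →
      (T.getD i dl).2 = (T.getD j dl).2 → σ i = σ j := by
    intro d
    induction d using Nat.strong_induction_on with
    | _ d ih =>
      intro i j hd hij hj hv
      obtain ⟨a1, a2, a3, a4⟩ := nx_later (i := i) ⟨j, hj, hv.symm, hij⟩
      have a5 := a4 j hj hv.symm hij
      rw [← hσ i (by omega)]
      rcases Nat.lt_or_ge (nxN T i) j with h | h
      · exact ih (j - nxN T i) (by omega) (nxN T i) j rfl h hj (a3.trans hv)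
      · rw [le_antisymm a5 h]
  rcases lt_trichotomy i j with h1 | h1 | h1
  · exact key _ i j rfl h1 hj hv
  · rw [h1]
  · exact (key _ j i rfl h1 hi hv.symm).symm

section

variable {α : Type} [Code α]

@[fun_prop]
theorem PTime.nxN {T : α → List Lit} {i : α → ℕ} (hT : PTime T) (hi : PTime i) :
    PTime (fun x => MP_f63b47_lc.nxN (T x) (i x)) := by
  unfold MP_f63b47_lc.nxN
  refine PTime.getD (PTime.headOpt (PTime.filter (p := fun x k =>
    decide (((T x).getD k dl).2 = ((T x).getD (i x) dl).2) && decide (i x < k)) (by fun_prop) ?_))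
    (PTime.getD (PTime.headOpt (PTime.filter (p := fun x k =>
      decide (((T x).getD k dl).2 = ((T x).getD (i x) dl).2)) (by fun_prop) ?_)) (by fun_prop))
  · refine PTime.and (PTime.eq ?_ ?_) (PTime.natLt ?_ ?_)
    · exact PTime.snd.comp (PTime.nth (hT.comp PTime.fst) PTime.snd (PTime.const dl))
    · exact PTime.snd.comp (PTime.nth (hT.comp PTime.fst) (hi.comp PTime.fst) (PTime.const dl))
    · exact hi.comp PTime.fst
    · exact PTime.snd
  · refine PTime.eq ?_ ?_
    · exact PTime.snd.comp (PTime.nth (hT.comp PTime.fst) PTime.snd (PTime.const dl))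
    · exact PTime.snd.comp (PTime.nth (hT.comp PTime.fst) (hi.comp PTime.fst) (PTime.const dl))

end

end Pool.Agent.Work.MP_f63b47_lc
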