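import Pool.Agent.Work.MP_f63b47_lc.Ham

/-!
Hamiltonian cycles of octagons joined by paths.
-/

set_option autoImplicit false

namespace Pool.Agent.Work.MP_f63b47_lc

open SimpleGraph

theorem m8_m8 (b : Bool) (p : Fin 8) : m8 b (m8 b p) = p := by
  revert b p; decide

theorem m8_eq (b : Bool) (p : Fin 8) : m8 b p = p + 1 ∨ p = m8 b p + 1 := by
  revert b p; decide

theorem m8_ne (b : Bool) (p : Fin 8) : m8 b p ≠ p := by
  revert b p; decide

theorem mu_mu {I : Type} (σ : I → Bool) (x : I × Fin 8) : mu σ (mu σ x) = x := by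
  unfold mu
  simp only [m8_m8]

/-- The neighbour above. -/
def upN {I : Type} (L : Link I) {K : ℕ} (a : (I × Fin 8) × Fin (K + 1)) :
    (I × Fin 8) × Fin (K + 1) :=
  if h : (a.2 : ℕ) < K then (a.1, ⟨a.2 + 1, by omega⟩) else (L.lam a.1, ⟨K, by omega⟩)

/-- The neighbour below. -/
def downN {I : Type} (σ : I → Bool) {K : ℕ} (a : (I × Fin 8) × Fin (K + 1)) :
    (I × Fin 8) × Fin (K + 1) :=
  if (a.2 : ℕ) = 0 then (mu σ a.1, ⟨0, K.succ_pos⟩) else (a.1, ⟨a.2 - 1, by omega⟩)

theorem down_ne_up {I : Type} (L : Link I) (σ : I → Bool) {K : ℕ} (hK : 1 ≤ K)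
    (a : (I × Fin 8) × Fin (K + 1)) : downN σ a ≠ upN L a := by
  intro h
  have h2 : ((downN σ a).2 : ℕ) = (upN L a).2 := by rw [h]
  unfold downN upN at h2
  split_ifs at h2 <;> simp at h2 <;> omega

theorem og_adj {I : Type} (L : Link I) (σ : I → Bool) {K : ℕ}
    (a b : (I × Fin 8) × Fin (K + 1)) (ha : 0 < (a.2 : ℕ)) :
    (OG L K).Adj a b ↔ b = downN σ a ∨ b = upN L a := by
  obtain ⟨x, s⟩ := a
  obtain ⟨y, t⟩ := b
  simp only at ha
  have hs := s.2
  have ht := t.2
  unfold downN upN OG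
  simp only [Prod.ext_iff, Fin.ext_iff]
  constructor
  · rintro (⟨h1, h2, h3⟩ | ⟨h1, h2 | h2⟩ | ⟨h1, h2, h3⟩)
    · omega
    · right
      rw [dif_pos (by omega)]
      refine ⟨⟨h1.1.symm, ?_⟩, h2⟩
      simp only
      omega
    · left
      rw [if_neg (by omega)]
      refine ⟨⟨h1.1.symm, ?_⟩, ?_⟩ <;> simp only <;> omega
    · right
      rw [dif_neg (by omega)]
      exact ⟨⟨h3.1.symm, h3.2.symm⟩, h2⟩
  · rw [if_neg (by omega)]
    split_ifs with h
    · rintro (⟨⟨h1, h2⟩, h3⟩ | ⟨⟨h1, h2⟩, h3⟩)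
      · right; left
        simp only at h2 h3
        exact ⟨⟨h1.symm, h2.symm⟩, Or.inr (by omega)⟩
      · right; left
        simp only at h2 h3
        exact ⟨⟨h1.symm, h2.symm⟩, Or.inl h3⟩
    · rintro (⟨⟨h1, h2⟩, h3⟩ | ⟨⟨h1, h2⟩, h3⟩)
      · right; left
        simp only at h2 h3
        exact ⟨⟨h1.symm, h2.symm⟩, Or.inr (by omega)⟩
      · right; right
        simp only at h2 h3
        exact ⟨by omega, h3, h1.symm, h2.symm⟩

/-- The 2-factor given by the choice of pairings. -/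
def fac {I : Type} (L : Link I) (σ : I → Bool) (K : ℕ) :
    SimpleGraph ((I × Fin 8) × Fin (K + 1)) where
  Adj a b :=
    ((a.2 : ℕ) = 0 ∧ (b.2 : ℕ) = 0 ∧ b.1 = mu σ a.1) ∨
    (a.1 = b.1 ∧ ((b.2 : ℕ) = a.2 + 1 ∨ (a.2 : ℕ) = b.2 + 1)) ∨
    ((a.2 : ℕ) = K ∧ (b.2 : ℕ) = K ∧ L.lam a.1 = b.1)
  symm := ⟨fun a b h => by
    rcases h with ⟨h1, h3, h4⟩ | ⟨h1, h2⟩ | ⟨h1, h2, h3⟩
    · exact Or.inl ⟨h3, h1, by rw [h4, mu_mu]⟩
    · exact Or.inr (Or.inl ⟨h1.symm, h2.symm⟩)
    · exact Or.inr (Or.inr ⟨h2, h1, by rw [← h3, L.inv]⟩)⟩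
  loopless := ⟨by
    rintro ⟨⟨a, i⟩, s⟩ (⟨-, -, h⟩ | ⟨-, h⟩ | ⟨-, -, h⟩)
    · have h1 := congrArg Prod.snd h
      unfold mu at h1
      simp only at h1
      exact m8_ne _ _ h1.symm
    · simp only at h; omega
    · exact L.ne _ h⟩

theorem fac_le {I : Type} (L : Link I) (σ : I → Bool) (K : ℕ) : fac L σ K ≤ OG L K := by
  intro a b h
  rcases h with ⟨h1, h3, h4⟩ | h | h
  · refine Or.inl ⟨?_, h1, h3, ?_⟩
    · rw [h4]; rfl
    · rw [h4]; exact m8_eq _ _
  · exact Or.inr (Or.inl h)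
  · exact Or.inr (Or.inr h)

theorem fac_adj {I : Type} (L : Link I) (σ : I → Bool) {K : ℕ} (hK : 1 ≤ K)
    (a b : (I × Fin 8) × Fin (K + 1)) :
    (fac L σ K).Adj a b ↔ b = downN σ a ∨ b = upN L a := by
  by_cases ha : (a.2 : ℕ) = 0
  · obtain ⟨x, s⟩ := a
    obtain ⟨y, t⟩ := b
    simp only at ha
    have hs := s.2
    have ht := t.2
    have hs0 : s = ⟨0, K.succ_pos⟩ := Fin.ext ha
    subst hs0
    unfold downN upN fac
    rw [if_pos rfl, dif_pos (by simp only; omega)]
    simp only [Prod.mk.injEq, Fin.ext_iff]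
    constructor
    · rintro (⟨h1, h2, h3⟩ | ⟨h1, h2 | h2⟩ | ⟨h1, h2, h3⟩)
      · exact Or.inl ⟨h3, h2⟩
      · exact Or.inr ⟨h1.symm, h2⟩
      · omega
      · omega
    · rintro (⟨h1, h2⟩ | ⟨h1, h2⟩)
      · exact Or.inl ⟨trivial, h2, h1⟩
      · exact Or.inr (Or.inl ⟨h1.symm, Or.inl h2⟩)
  · rw [← og_adj L σ a b (by omega)]
    constructor
    · intro h; exact fac_le L σ K h
    · rintro (⟨h1, h2, h3⟩ | h | h)
      · omega
      · exact Or.inr (Or.inl h)
      · exact Or.inr (Or.inr h)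

theorem fac_ncard {I : Type} (L : Link I) (σ : I → Bool) {K : ℕ} (hK : 1 ≤ K)
    (a : (I × Fin 8) × Fin (K + 1)) : ((fac L σ K).neighborSet a).ncard = 2 := by
  have h : (fac L σ K).neighborSet a = {downN σ a, upN L a} := by
    ext b
    rw [mem_neighborSet, fac_adj L σ hK]
    rfl
  rw [h, Set.ncard_pair (down_ne_up L σ hK a)]

theorem fac_reach {I : Type} (L : Link I) (σ : I → Bool) {K : ℕ} (x : I × Fin 8) (s : ℕ)
    (hs : s < K + 1) : (fac L σ K).Reachable (x, ⟨0, K.succ_pos⟩) (x, ⟨s, hs⟩) := by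
  induction s with
  | zero => exact Reachable.refl _
  | succ s ih =>
    refine (ih (by omega)).trans (Adj.reachable ?_)
    exact Or.inr (Or.inl ⟨rfl, Or.inl rfl⟩)

theorem fac_preconnected {I : Type} (L : Link I) (σ : I → Bool) {K : ℕ}
    (h : PortConn L σ) : (fac L σ K).Preconnected := by
  have key : ∀ x y : I × Fin 8, (fac L σ K).Reachable (x, ⟨0, K.succ_pos⟩) (y, ⟨0, K.succ_pos⟩) := by
    intro x y
    have hxy := h x y
    induction hxy with
    | refl => exact Reachable.refl _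
    | tail _ hbc ih =>
      rename_i b c _
      refine ih.trans ?_
      rcases hbc with rfl | rfl
      · refine (fac_reach L σ b K (by omega)).trans (Reachable.trans (Adj.reachable ?_)
          (fac_reach L σ (L.lam b) K (by omega)).symm)
        exact Or.inr (Or.inr ⟨rfl, rfl, rfl⟩)
      · exact Adj.reachable (Or.inl ⟨rfl, rfl, rfl⟩)
  rintro ⟨x, s⟩ ⟨y, t⟩
  exact (fac_reach L σ x s.1 s.2).symm.trans ((key x y).trans (fac_reach L σ y t.1 t.2))

theorem add2_ne (p : Fin 8) : p + 1 + 1 ≠ p := by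
  revert p; decide

theorem alt8 {P : Fin 8 → Prop} [DecidablePred P] (h : ∀ p, P (p + 1) ↔ ¬ P p) (p : Fin 8) :
    P p ↔ ((decide (¬ P 0)) = decide ((p : ℕ) % 2 = 1)) := by
  have h0 := h 0
  have h1 := h 1
  have h2 := h 2
  have h3 := h 3
  have h4 := h 4
  have h5 := h 5
  have h6 := h 6
  have h7 := h 7
  simp only [zero_add, show (1 : Fin 8) + 1 = 2 from rfl, show (2 : Fin 8) + 1 = 3 from rfl,
    show (3 : Fin 8) + 1 = 4 from rfl, show (4 : Fin 8) + 1 = 5 from rfl,
    show (5 : Fin 8) + 1 = 6 from rfl, show (6 : Fin 8) + 1 = 7 from rfl,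
    show (7 : Fin 8) + 1 = 0 from rfl] at h0 h1 h2 h3 h4 h5 h6 h7
  by_cases hP : P 0 <;> fin_cases p <;> simp_all

theorem og_ham {I : Type} [Fintype I] [DecidableEq I] [Nonempty I] (L : Link I) {K : ℕ}
    (hK : 1 ≤ K) : HasHamCycle (OG L K) ↔ ∃ σ : I → Bool, PortConn L σ := by
  classical
  rw [hasHamCycle_iff]
  constructor
  · rintro ⟨F, hF, h2, hconn⟩
    -- all edges at vertices of positive height are in F
    have hpos : ∀ a b : (I × Fin 8) × Fin (K + 1), 0 < (a.2 : ℕ) → (OG L K).Adj a b →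
        F.Adj a b := by
      intro a b ha hab
      have hsub : F.neighborSet a ⊆ {downN (fun _ => false) a, upN L a} := by
        intro c hc
        exact (og_adj L (fun _ => false) a c ha).mp (hF hc)
      have heq : F.neighborSet a = {downN (fun _ => false) a, upN L a} := by
        apply Set.eq_of_subset_of_ncard_le hsub _ (Set.toFinite _)
        rw [h2]
        exact (Set.ncard_insert_le _ _).trans (by rw [Set.ncard_singleton])
      have hb := (og_adj L (fun _ => false) a b ha).mp hab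
      have hb' : b ∈ F.neighborSet a := by rw [heq]; exact hb
      exact hb'
    have hleg : ∀ x : I × Fin 8, F.Adj (x, ⟨0, K.succ_pos⟩) (x, ⟨1, by omega⟩) := by
      intro x
      refine (hpos (x, ⟨1, by omega⟩) (x, ⟨0, K.succ_pos⟩) (by simp) ?_).symm
      exact Or.inr (Or.inl ⟨rfl, Or.inr rfl⟩)
    -- neighbours of an octagon vertex
    have hnb : ∀ (x : I × Fin 8) b, F.Adj (x, ⟨0, K.succ_pos⟩) b →
        b = (x, ⟨1, by omega⟩) ∨ b = ((x.1, x.2 + 1), ⟨0, K.succ_pos⟩) ∨
          b = ((x.1, x.2 - 1), ⟨0, K.succ_pos⟩) := by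
      rintro ⟨i, p⟩ ⟨⟨j, q⟩, t⟩ hb
      have hb' := hF hb
      unfold OG at hb'
      simp only [Prod.mk.injEq, Fin.ext_iff] at hb' ⊢
      rcases hb' with ⟨h1, h2, h3, h4 | h4⟩ | ⟨h1, h2 | h2⟩ | ⟨h1, h2, h3⟩
      · right; left
        refine ⟨⟨h1.symm, ?_⟩, h3⟩
        rw [h4]
      · right; right
        refine ⟨⟨h1.symm, ?_⟩, h3⟩
        have h5 : p = q + 1 := Fin.ext h4
        rw [h5]; simp
      · left
        exact ⟨⟨h1.1.symm, h1.2.symm⟩, h2⟩
      · omega
      · omega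
    let e : I → Fin 8 → Prop := fun i p =>
      F.Adj ((i, p), ⟨0, K.succ_pos⟩) ((i, p + 1), ⟨0, K.succ_pos⟩)
    have he : ∀ i p, e i (p + 1) ↔ ¬ e i p := by
      intro i p
      have hset : F.neighborSet ((i, p + 1), (⟨0, K.succ_pos⟩ : Fin (K + 1))) ⊆
          {((i, p + 1), (⟨1, by omega⟩ : Fin (K + 1))),
            ((i, p + 1 + 1), (⟨0, K.succ_pos⟩ : Fin (K + 1))),
            ((i, p), (⟨0, K.succ_pos⟩ : Fin (K + 1)))} := by
        intro b hb
        rcases hnb (i, p + 1) b hb with h | h | h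
        · left; exact h
        · right; left; exact h
        · right; right
          simp only [add_sub_cancel_right] at h
          exact h
      have hp2 : p + 1 + 1 ≠ p := add2_ne p
      have h01 : (⟨0, K.succ_pos⟩ : Fin (K + 1)) ≠ ⟨1, by omega⟩ := by
        intro h; simp [Fin.ext_iff] at h
      constructor
      · intro h1 h3
        have h3' : F.Adj ((i, p + 1), ⟨0, K.succ_pos⟩) ((i, p), ⟨0, K.succ_pos⟩) := h3.symm
        have h1' : F.Adj ((i, p + 1), ⟨0, K.succ_pos⟩) ((i, p + 1 + 1), ⟨0, K.succ_pos⟩) := h1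
        have hsup : {((i, p + 1), (⟨1, by omega⟩ : Fin (K + 1))),
            ((i, p + 1 + 1), (⟨0, K.succ_pos⟩ : Fin (K + 1))),
            ((i, p), (⟨0, K.succ_pos⟩ : Fin (K + 1)))} ⊆
              F.neighborSet ((i, p + 1), (⟨0, K.succ_pos⟩ : Fin (K + 1))) := by
          rintro b (rfl | rfl | rfl)
          · exact hleg _
          · exact h1'
          · exact h3'
        have hc := Set.ncard_le_ncard hsup (Set.toFinite _)
        rw [h2, Set.ncard_eq_three.mpr ⟨_, _, _, ?_, ?_, ?_, rfl⟩] at hc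
        · omega
        · intro h; exact h01 (congrArg Prod.snd h).symm
        · intro h; exact h01 (congrArg Prod.snd h).symm
        · intro h
          exact hp2 (congrArg (fun z => z.1.2) h)
      · intro h3
        by_contra h1
        have hsub : F.neighborSet ((i, p + 1), (⟨0, K.succ_pos⟩ : Fin (K + 1))) ⊆
            {((i, p + 1), (⟨1, by omega⟩ : Fin (K + 1)))} := by
          intro b hb
          rcases hset hb with h | h | h
          · exact h
          · exfalso
            rw [h] at hb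
            exact h1 hb
          · exfalso
            rw [h] at hb
            exact h3 (SimpleGraph.Adj.symm hb)
        have hc := Set.ncard_le_ncard hsub (Set.toFinite _)
        rw [h2, Set.ncard_singleton] at hc
        omega
    refine ⟨fun i => decide (¬ e i 0), ?_⟩
    -- octagon edges of F are given by mu
    have hmu : ∀ (i : I) (p : Fin 8), e i p →
        mu (fun i => decide (¬ e i 0)) (i, p) = (i, p + 1) ∧
        mu (fun i => decide (¬ e i 0)) (i, p + 1) = (i, p) := by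
      intro i p hp
      have h3 := (alt8 (P := e i) (he i) p).mp hp
      have h4 : mu (fun i => decide (¬ e i 0)) (i, p) = (i, p + 1) := by
        unfold mu m8
        simp only
        rw [if_pos h3]
      refine ⟨h4, ?_⟩
      rw [← h4, mu_mu]
    have hedge : ∀ a b : (I × Fin 8) × Fin (K + 1), F.Adj a b →
        a.1 = b.1 ∨ b.1 = L.lam a.1 ∨ b.1 = mu (fun i => decide (¬ e i 0)) a.1 := by
      rintro ⟨⟨i, p⟩, s⟩ ⟨⟨j, q⟩, t⟩ hab
      have hab' := hF hab
      rcases hab' with ⟨h1, h3, h4, h5⟩ | ⟨h1, -⟩ | ⟨-, -, h1⟩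
      · right; right
        simp only at h1 h3 h4 h5
        subst h1
        have hs0 : s = ⟨0, K.succ_pos⟩ := Fin.ext h3
        have ht0 : t = ⟨0, K.succ_pos⟩ := Fin.ext h4
        subst hs0
        subst ht0
        rcases h5 with rfl | rfl
        · exact (hmu i p hab).1.symm
        · exact (hmu i q hab.symm).2.symm
      · left; exact h1
      · right; left; exact h1.symm
    have hwalk : ∀ a b : (I × Fin 8) × Fin (K + 1), F.Walk a b →
        Relation.ReflTransGen (fun a b => b = L.lam a ∨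
          b = mu (fun i => decide (¬ e i 0)) a) a.1 b.1 := by
      intro a b w
      induction w with
      | nil => exact Relation.ReflTransGen.refl
      | cons hadj _ ih =>
        rcases hedge _ _ hadj with h | h
        · rw [h]; exact ih
        · exact Relation.ReflTransGen.head h ih
    intro x y
    obtain ⟨w⟩ := hconn (x, ⟨0, K.succ_pos⟩) (y, ⟨0, K.succ_pos⟩)
    exact hwalk _ _ w
  · rintro ⟨σ, hσ⟩
    exact ⟨fac L σ K, fac_le L σ K, fac_ncard L σ hK, fac_preconnected L σ hσ⟩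

end Pool.Agent.Work.MP_f63b47_lc
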