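import Pool.Agent.Work.MP_f63b47_lc.Next
import Pool.Agent.Work.MP_f63b47_lc.Oct
import Pool.Agent.Work.MP_f63b47_lc.Free

/-!
The reduction from satisfiability.
-/

set_option autoImplicit false
set_option linter.unusedSimpArgs false

namespace Pool.Agent.Work.MP_f63b47_lc

open Pool.Agent.Work.PolyTime

/-- A clause with at most three literals as clauses with exactly three literals. -/
def padCl (c : NClause) : List Cl :=
  if c.length = 0 then [((true, 0), (true, 0), (true, 0)), ((false, 0), (false, 0), (false, 0))]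
  else [(c.getD 0 dl, c.getD 1 (c.getD 0 dl), c.getD 2 (c.getD 1 (c.getD 0 dl)))]

def padC (C : List NClause) : List Cl := ((true, 0), (true, 0), (false, 0)) :: C.flatMap padCl

def ClHolds (X : ℕ → Bool) (c : Cl) : Prop :=
  X c.1.2 = c.1.1 ∨ X c.2.1.2 = c.2.1.1 ∨ X c.2.2.2 = c.2.2.1

theorem padCl_iff (X : ℕ → Bool) : ∀ c : NClause, c.length ≤ 3 →
    ((∃ l ∈ c, X l.2 = l.1) ↔ ∀ d ∈ padCl c, ClHolds X d)
  | [], _ => by simp [padCl, ClHolds]
  | [a], _ => by simp [padCl, ClHolds]
  | [a, b], _ => by simp [padCl, ClHolds]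
  | [a, b, c], _ => by simp [padCl, ClHolds]
  | _ :: _ :: _ :: _ :: _, h => by simp only [List.length_cons] at h; omega

theorem padC_iff {C : List NClause} (h : ∀ c ∈ C, c.length ≤ 3) :
    CnfSat C ↔ ∃ X : ℕ → Bool, ∀ d ∈ padC C, ClHolds X d := by
  refine exists_congr fun X => ?_
  simp only [padC, List.mem_cons, List.mem_flatMap, forall_eq_or_imp, forall_exists_index,
    and_imp]
  constructor
  · intro H
    refine ⟨?_, fun d c hc hd => (padCl_iff X c (h c hc)).1 (H c hc) d hd⟩
    cases hX : X 0 <;> simp [ClHolds, hX]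
  · rintro ⟨-, H⟩ c hc
    exact (padCl_iff X c (h c hc)).2 fun d hd => H d c hc hd

/-- The literals of the octagons. -/
def slots (D : List Cl) : List Lit := D.flatMap fun c => [c.1, c.2.1, c.2.2, c.2.2]

theorem slots_length (D : List Cl) : (slots D).length = D.length * 4 := by
  induction D with
  | nil => rfl
  | cons c D ih =>
    have : slots (c :: D) = [c.1, c.2.1, c.2.2, c.2.2] ++ slots D := rfl
    rw [this, List.length_append, ih, List.length_cons]
    simp only [List.length_cons, List.length_nil]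
    omega

/-- The literals of the clauses. -/
def litsF (D : List Cl) (j : Fin D.length) (k : Fin 3) : Bool × ℕ :=
  if k = 0 then D[j].1 else if k = 1 then D[j].2.1 else D[j].2.2

theorem slots_getD (D : List Cl) (j : Fin D.length) (k : Fin 4) :
    (slots D).getD ((k : ℕ) + 4 * j) dl = litsF D j (lidx k) := by
  induction D with
  | nil => exact j.elim0
  | cons c D ih =>
    have hs : slots (c :: D) = c.1 :: c.2.1 :: c.2.2 :: c.2.2 :: slots D := rfl
    rw [hs]
    obtain ⟨j, hj⟩ := j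
    cases j with
    | zero => fin_cases k <;> rfl
    | succ j =>
      have h1 : (k : ℕ) + 4 * (j + 1) = ((k : ℕ) + 4 * j) + 1 + 1 + 1 + 1 := by ring
      simp only
      rw [h1]
      simp only [List.getD_cons_succ]
      have := ih ⟨j, by simpa using hj⟩
      simp only at this
      rw [this]
      fin_cases k <;> rfl

/-- The number of a vertex. -/
def cd (K i p s : ℕ) : ℕ := s + (K + 1) * (p + 8 * i)

def prtN (b : Bool) (r : ℕ) : ℕ :=
  if r = 0 then 2 else if r = 3 then 6 else if decide (r = 1) = b then 7 else 5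

theorem prtN_eq (b : Bool) (r : Fin 4) : prtN b r = (prt b r : ℕ) := by
  revert b r; decide

/-- The links inside the clauses. -/
def tbl : List ((ℕ × ℕ) × (ℕ × ℕ)) :=
  (((List.finRange 4) ×ˢ (List.finRange 4)).filter
    fun x => !decide (x = (0, 0)) && !decide (x = (1, 3))).map
    fun x => (((x.1 : ℕ), (x.2 : ℕ)), (((tb x).1 : ℕ), ((tb x).2 : ℕ)))

theorem mem_tbl {y : (ℕ × ℕ) × (ℕ × ℕ)} : y ∈ tbl ↔ ∃ x : Fin 4 × Fin 4, x ≠ (0, 0) ∧ x ≠ (1, 3) ∧
    y = (((x.1 : ℕ), (x.2 : ℕ)), (((tb x).1 : ℕ), ((tb x).2 : ℕ))) := by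
  simp only [tbl, List.mem_map, List.mem_filter, Bool.and_eq_true, Bool.not_eq_true',
    decide_eq_false_iff_not]
  constructor
  · rintro ⟨x, ⟨-, h1, h2⟩, rfl⟩; exact ⟨x, h1, h2, rfl⟩
  · rintro ⟨x, h1, h2, rfl⟩
    refine ⟨x, ⟨?_, h1, h2⟩, rfl⟩
    obtain ⟨a, b⟩ := x
    exact List.mem_product.2 ⟨List.mem_finRange a, List.mem_finRange b⟩

def eOct (K : ℕ) (D : List Cl) : List (ℕ × ℕ) :=
  (List.range (D.length * 4)).flatMap fun i => (List.range 8).map fun p =>
    (cd K i p 0, cd K i (if p = 7 then 0 else p + 1) 0)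

def eLeg (K : ℕ) (D : List Cl) : List (ℕ × ℕ) :=
  (List.range (D.length * 4)).flatMap fun i => (List.range 8).flatMap fun p =>
    (List.range K).map fun s => (cd K i p s, cd K i p (s + 1))

def eRing (K : ℕ) (D : List Cl) : List (ℕ × ℕ) :=
  (List.range (D.length * 4)).flatMap fun i =>
    [(cd K i 3 K, cd K (nxN (slots D) i) 0 K), (cd K i 4 K, cd K (nxN (slots D) i) 1 K)]

def sg (D : List Cl) (i : ℕ) : Bool := ((slots D).getD i dl).1

def eInn (K : ℕ) (D : List Cl) : List (ℕ × ℕ) :=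
  (List.range D.length).flatMap fun j => tbl.map fun e =>
    (cd K (e.1.1 + 4 * j) (prtN (sg D (e.1.1 + 4 * j)) e.1.2) K,
      cd K (e.2.1 + 4 * j) (prtN (sg D (e.2.1 + 4 * j)) e.2.2) K)

def eOut (K : ℕ) (D : List Cl) : List (ℕ × ℕ) :=
  (List.range D.length).map fun j =>
    (cd K (1 + 4 * j) 6 K, cd K (0 + 4 * (if j + 1 = D.length then 0 else j + 1)) 2 K)

def edges (K : ℕ) (D : List Cl) : List (ℕ × ℕ) :=
  eOct K D ++ (eLeg K D ++ (eRing K D ++ (eInn K D ++ eOut K D)))

section

variable (K : ℕ) (c0 : Cl) (D' : List Cl)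

/-- Numbering of the octagons. -/
def e4 (M : ℕ) : Fin M × Fin 4 ≃ Fin (M * 4) := finProdFinEquiv

theorem e4_val {M : ℕ} (x : Fin M × Fin 4) : (e4 M x : ℕ) = (x.2 : ℕ) + 4 * x.1 := rfl

/-- Numbering of the vertices. -/
def eV (M K : ℕ) : ((Fin M × Fin 4) × Fin 8) × Fin (K + 1) ≃ Fin (M * 4 * 8 * (K + 1)) :=
  (Equiv.prodCongr ((Equiv.prodCongr (e4 M) (Equiv.refl _)).trans finProdFinEquiv)
    (Equiv.refl _)).trans finProdFinEquiv

theorem eV_val {M K : ℕ} (x : ((Fin M × Fin 4) × Fin 8) × Fin (K + 1)) :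
    (eV M K x : ℕ) = cd K ((x.1.1.2 : ℕ) + 4 * x.1.1.1) x.1.2 x.2 := rfl

theorem nxF_lt (D : List Cl) (i : Fin (D.length * 4)) : nxN (slots D) i < D.length * 4 := by
  have := nx_lt (T := slots D) (i := i) (by rw [slots_length]; exact i.2)
  rwa [slots_length] at this

theorem nxF_bij (D : List Cl) : Function.Bijective
    (fun i : Fin (D.length * 4) => (⟨nxN (slots D) i, nxF_lt D i⟩ : Fin (D.length * 4))) := by
  rw [← Finite.injective_iff_bijective]
  intro i j h
  simp only [Fin.mk.injEq] at h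
  exact Fin.ext (nx_inj (by rw [slots_length]; exact i.2) (by rw [slots_length]; exact j.2) h)

noncomputable def piF (D : List Cl) : Equiv.Perm (Fin D.length × Fin 4) :=
  (e4 D.length).trans ((Equiv.ofBijective _ (nxF_bij D)).trans (e4 D.length).symm)

theorem piF_val (D : List Cl) (x : Fin D.length × Fin 4) :
    (e4 D.length (piF D x) : ℕ) = nxN (slots D) (e4 D.length x) := by
  simp [piF]

theorem getD_e4 (D : List Cl) (x : Fin D.length × Fin 4) :
    (slots D).getD (e4 D.length x : ℕ) dl = litsF D x.1 (lidx x.2) := by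
  rw [e4_val, slots_getD]

theorem piF_var (D : List Cl) (x : Fin D.length × Fin 4) :
    (litsF D (piF D x).1 (lidx (piF D x).2)).2 = (litsF D x.1 (lidx x.2)).2 := by
  rw [← getD_e4, ← getD_e4, piF_val]
  exact nx_var (by rw [slots_length]; exact (e4 D.length x).2)

theorem piF_const (D : List Cl) (σ : Fin D.length × Fin 4 → Bool)
    (hσ : ∀ i, σ (piF D i) = σ i) (i i' : Fin D.length × Fin 4)
    (h : (litsF D i.1 (lidx i.2)).2 = (litsF D i'.1 (lidx i'.2)).2) : σ i = σ i' := by
  classical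
  let τ : ℕ → Bool := fun k => if hk : k < D.length * 4 then σ ((e4 D.length).symm ⟨k, hk⟩)
    else false
  have hτ : ∀ x, τ (e4 D.length x : ℕ) = σ x := by
    intro x
    have : ((e4 D.length x : ℕ)) < D.length * 4 := (e4 D.length x).2
    simp only [τ, this, dif_pos]
    congr 1
    rw [Equiv.symm_apply_eq]
  rw [← hτ, ← hτ]
  refine nx_const (T := slots D) ?_ (by rw [slots_length]; exact (e4 D.length i).2)
    (by rw [slots_length]; exact (e4 D.length i').2) (by rw [getD_e4, getD_e4]; exact h)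
  intro k hk
  rw [slots_length] at hk
  have h1 : k = (e4 D.length ((e4 D.length).symm ⟨k, hk⟩) : ℕ) := by simp
  rw [h1, ← piF_val, hτ, hτ, hσ]

/-- The cyclic order of the clauses. -/
def rhoF (n : ℕ) : Equiv.Perm (Fin (n + 1)) := finRotate (n + 1)

theorem rhoF_val (n : ℕ) (j : Fin (n + 1)) :
    (rhoF n j : ℕ) = if (j : ℕ) + 1 = n + 1 then 0 else (j : ℕ) + 1 := by
  unfold rhoF
  split_ifs with h
  · have : j = Fin.last n := Fin.ext (by simpa using h)
    rw [this, finRotate_last]
    rfl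
  · rw [coe_finRotate_of_ne_last]
    intro h'
    apply h
    rw [h']
    simp

theorem rhoF_trans (n : ℕ) (S : Set (Fin (n + 1))) (hS : S.Nonempty)
    (h : ∀ j ∈ S, rhoF n j ∈ S) : S = Set.univ := by
  have h1 : ∀ j : Fin (n + 1), j ∈ S → ∀ d : ℕ, ∀ h : (j : ℕ) + d < n + 1,
      (⟨(j : ℕ) + d, h⟩ : Fin (n + 1)) ∈ S := by
    intro j hj d
    induction d with
    | zero => intro _; exact hj
    | succ d ih =>
      intro hd
      have h2 := h _ (ih (by omega))
      have h3 : rhoF n ⟨(j : ℕ) + d, by omega⟩ = ⟨(j : ℕ) + (d + 1), hd⟩ := by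
        refine Fin.ext ?_
        rw [rhoF_val]
        simp only
        rw [if_neg (by omega)]
        omega
      rwa [h3] at h2
  obtain ⟨j, hj⟩ := hS
  have h4 : (Fin.last n) ∈ S := by
    have := h1 j hj (n - j) (by omega)
    have h5 : (⟨(j : ℕ) + (n - j), by omega⟩ : Fin (n + 1)) = Fin.last n := by
      refine Fin.ext ?_
      simp only [Fin.val_last]
      omega
    rwa [h5] at this
  have h6 : (0 : Fin (n + 1)) ∈ S := by
    have := h _ h4
    have h7 : rhoF n (Fin.last n) = 0 := by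
      refine Fin.ext ?_
      rw [rhoF_val]
      simp
    rwa [h7] at this
  refine Set.eq_univ_of_forall fun x => ?_
  have := h1 0 h6 x (by simp only [Fin.val_zero, zero_add]; exact x.2)
  simpa using this

/-- The links for a formula. -/
noncomputable def linkD : Link (Fin (c0 :: D').length × Fin 4) :=
  satLink (rhoF D'.length) (piF (c0 :: D'))
    (fun i => (litsF (c0 :: D') i.1 (lidx i.2)).1)

theorem conn_iff : (∃ σ, PortConn (linkD c0 D') σ) ↔
    ∃ X : ℕ → Bool, ∀ d ∈ c0 :: D', ClHolds X d := by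
  have h := sat_iff (J := Fin (c0 :: D').length) (ρ := rhoF D'.length) (π := piF (c0 :: D'))
    (lits := litsF (c0 :: D')) (rhoF_trans _) (piF_var _) (piF_const _)
  unfold linkD
  rw [h]
  refine exists_congr fun X => ?_
  constructor
  · intro H d hd
    obtain ⟨j, hj, rfl⟩ := List.getElem_of_mem hd
    obtain ⟨k, hk⟩ := H ⟨j, hj⟩
    fin_cases k
    · exact Or.inl hk
    · exact Or.inr (Or.inl hk)
    · exact Or.inr (Or.inr hk)
  · intro H j
    rcases H _ (List.getElem_mem j.2) with h | h | h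
    · exact ⟨0, h⟩
    · exact ⟨1, h⟩
    · exact ⟨2, h⟩

end

end Pool.Agent.Work.MP_f63b47_lc
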