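import Pool.Agent.Work.MP_f63b47_lc.Defs

/-!
The links of the octagons for a formula in conjunctive normal form with three literals in every
clause, and the proof that they can be made a single circuit if and only if the formula is
satisfiable.
-/

set_option autoImplicit false

namespace Pool.Agent.Work.MP_f63b47_lc

/-- The literal of a clause that belongs to each of its four octagons. -/
def lidx (k : Fin 4) : Fin 3 := if k = 0 then 0 else if k = 1 then 1 else 2

/-- The corner with role `r` in an octagon of sign `b`. -/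
def prt (b : Bool) (r : Fin 4) : Fin 8 :=
  if r = 0 then 2 else if r = 3 then 6 else if (r = 1) = (b = true) then 7 else 5

/-- The role of the corner `p`. -/
def role (b : Bool) (p : Fin 8) : Fin 4 :=
  if p = 2 then 0 else if p = 6 then 3 else if (p = 7) = (b = true) then 1 else 2

theorem role_prt (b : Bool) (r : Fin 4) : role b (prt b r) = r := by
  revert b r; decide

theorem prt_mem (b : Bool) (r : Fin 4) :
    prt b r ≠ 0 ∧ prt b r ≠ 1 ∧ prt b r ≠ 3 ∧ prt b r ≠ 4 := by
  revert b r; decide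

theorem prt_role (b : Bool) {p : Fin 8} (h0 : p ≠ 0) (h1 : p ≠ 1) (h3 : p ≠ 3) (h4 : p ≠ 4) :
    prt b (role b p) = p := by
  revert b p; decide

/-- The links inside a clause. -/
def tb (x : Fin 4 × Fin 4) : Fin 4 × Fin 4 :=
  if x = (0, 0) then (1, 3) else if x = (0, 1) then (2, 0) else if x = (0, 2) then (2, 1) else
  if x = (0, 3) then (3, 0) else if x = (1, 0) then (2, 2) else if x = (1, 1) then (3, 3) else
  if x = (1, 2) then (3, 2) else if x = (1, 3) then (0, 0) else if x = (2, 0) then (0, 1) else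
  if x = (2, 1) then (0, 2) else if x = (2, 2) then (1, 0) else if x = (2, 3) then (3, 1) else
  if x = (3, 0) then (0, 3) else if x = (3, 1) then (2, 3) else if x = (3, 2) then (1, 2) else
  (1, 1)

theorem tb_tb (x : Fin 4 × Fin 4) : tb (tb x) = x := by revert x; decide

theorem tb_ne (x : Fin 4 × Fin 4) : tb x ≠ x := by revert x; decide

/-- The two pairings of the four roles. -/
def st (b : Bool) (r : Fin 4) : Fin 4 :=
  if b then (if r = 0 then 1 else if r = 1 then 0 else if r = 2 then 3 else 2)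
  else (if r = 0 then 2 else if r = 2 then 0 else if r = 1 then 3 else 1)

theorem st_st (b : Bool) (r : Fin 4) : st b (st b r) = r := by revert b r; decide

section

variable {J : Type} (ρ : Equiv.Perm J)

/-- The links between the roles. -/
def ext (x : (J × Fin 4) × Fin 4) : (J × Fin 4) × Fin 4 :=
  ((if (x.1.2, x.2) = (0, 0) then ρ.symm x.1.1 else if (x.1.2, x.2) = (1, 3) then ρ x.1.1
    else x.1.1, (tb (x.1.2, x.2)).1), (tb (x.1.2, x.2)).2)

theorem ext_in (j : J) : ext ρ ((j, 0), 0) = ((ρ.symm j, 1), 3) := rfl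
theorem ext_out (j : J) : ext ρ ((j, 1), 3) = ((ρ j, 0), 0) := rfl

theorem ext_inner (j : J) {k r : Fin 4} (h : (k, r) ≠ (0, 0)) (h' : (k, r) ≠ (1, 3)) :
    ext ρ ((j, k), r) = ((j, (tb (k, r)).1), (tb (k, r)).2) := by
  simp only [ext, h, h', if_false]

theorem tb_in {x : Fin 4 × Fin 4} (h : tb x = (0, 0)) : x = (1, 3) := by
  revert x; decide
theorem tb_out {x : Fin 4 × Fin 4} (h : tb x = (1, 3)) : x = (0, 0) := by
  revert x; decide

theorem ext_ext (x : (J × Fin 4) × Fin 4) : ext ρ (ext ρ x) = x := by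
  obtain ⟨⟨j, k⟩, r⟩ := x
  by_cases h : (k, r) = (0, 0)
  · obtain ⟨rfl, rfl⟩ := Prod.mk.inj h
    rw [ext_in, ext_out, Equiv.apply_symm_apply]
  by_cases h' : (k, r) = (1, 3)
  · obtain ⟨rfl, rfl⟩ := Prod.mk.inj h'
    rw [ext_out, ext_in, Equiv.symm_apply_apply]
  rw [ext_inner ρ j h h', ext_inner]
  · rw [Prod.mk.eta, tb_tb]
  · intro h2; exact h' (tb_in (by rw [← h2]))
  · intro h2; exact h (tb_out (by rw [← h2]))

theorem ext_ne (x : (J × Fin 4) × Fin 4) : ext ρ x ≠ x := by
  obtain ⟨⟨j, k⟩, r⟩ := x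
  intro h
  apply tb_ne (k, r)
  simp only [ext, Prod.mk.injEq] at h
  exact Prod.ext h.1.2 h.2

variable (π : Equiv.Perm (J × Fin 4)) (sgn : J × Fin 4 → Bool)

/-- The corner of a role. -/
def pc (x : (J × Fin 4) × Fin 4) : (J × Fin 4) × Fin 8 := (x.1, prt (sgn x.1) x.2)

/-- The links. -/
def lamF (x : (J × Fin 4) × Fin 8) : (J × Fin 4) × Fin 8 :=
  if x.2 = 0 then (π.symm x.1, 3) else if x.2 = 1 then (π.symm x.1, 4) else
  if x.2 = 3 then (π x.1, 0) else if x.2 = 4 then (π x.1, 1) else
  pc sgn (ext ρ (x.1, role (sgn x.1) x.2))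

theorem lamF_zero (i : J × Fin 4) : lamF ρ π sgn (i, 0) = (π.symm i, 3) := rfl
theorem lamF_one (i : J × Fin 4) : lamF ρ π sgn (i, 1) = (π.symm i, 4) := rfl
theorem lamF_three (i : J × Fin 4) : lamF ρ π sgn (i, 3) = (π i, 0) := rfl
theorem lamF_four (i : J × Fin 4) : lamF ρ π sgn (i, 4) = (π i, 1) := rfl

theorem lamF_pc (x : (J × Fin 4) × Fin 4) : lamF ρ π sgn (pc sgn x) = pc sgn (ext ρ x) := by
  obtain ⟨h0, h1, h3, h4⟩ := prt_mem (sgn x.1) x.2
  simp only [lamF, pc, h0, h1, h3, h4, if_false, role_prt]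

theorem pc_role (i : J × Fin 4) {p : Fin 8} (h0 : p ≠ 0) (h1 : p ≠ 1) (h3 : p ≠ 3) (h4 : p ≠ 4) :
    pc sgn (i, role (sgn i) p) = (i, p) := by
  simp only [pc, prt_role _ h0 h1 h3 h4]

theorem corner_cases (x : (J × Fin 4) × Fin 8) : x.2 = 0 ∨ x.2 = 1 ∨ x.2 = 3 ∨ x.2 = 4 ∨
    ∃ y, x = pc sgn y := by
  obtain ⟨i, p⟩ := x
  by_cases h0 : p = 0
  · exact Or.inl h0
  by_cases h1 : p = 1
  · exact Or.inr (Or.inl h1)
  by_cases h3 : p = 3
  · exact Or.inr (Or.inr (Or.inl h3))
  by_cases h4 : p = 4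
  · exact Or.inr (Or.inr (Or.inr (Or.inl h4)))
  exact Or.inr (Or.inr (Or.inr (Or.inr ⟨_, (pc_role sgn i h0 h1 h3 h4).symm⟩)))

theorem pc_inj {x y : (J × Fin 4) × Fin 4} (h : pc sgn x = pc sgn y) : x = y := by
  obtain ⟨i, r⟩ := x
  obtain ⟨j, s⟩ := y
  simp only [pc, Prod.mk.injEq] at h
  obtain ⟨rfl, h⟩ := h
  have := congrArg (role (sgn i)) h
  rw [role_prt, role_prt] at this
  rw [this]

/-- The family of links. -/
def satLink : Link (J × Fin 4) where
  lam := lamF ρ π sgn
  inv x := by
    rcases corner_cases sgn x with h | h | h | h | ⟨y, rfl⟩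
    · obtain ⟨i, p⟩ := x
      simp only at h; subst h
      rw [lamF_zero, lamF_three, Equiv.apply_symm_apply]
    · obtain ⟨i, p⟩ := x
      simp only at h; subst h
      rw [lamF_one, lamF_four, Equiv.apply_symm_apply]
    · obtain ⟨i, p⟩ := x
      simp only at h; subst h
      rw [lamF_three, lamF_zero, Equiv.symm_apply_apply]
    · obtain ⟨i, p⟩ := x
      simp only at h; subst h
      rw [lamF_four, lamF_one, Equiv.symm_apply_apply]
    · rw [lamF_pc, lamF_pc, ext_ext]
  ne x := by
    rcases corner_cases sgn x with h | h | h | h | ⟨y, rfl⟩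
    · obtain ⟨i, p⟩ := x
      simp only at h; subst h
      rw [lamF_zero]; intro h; exact absurd (congrArg Prod.snd h) (show (3 : Fin 8) ≠ 0 by decide)
    · obtain ⟨i, p⟩ := x
      simp only at h; subst h
      rw [lamF_one]; intro h; exact absurd (congrArg Prod.snd h) (show (4 : Fin 8) ≠ 1 by decide)
    · obtain ⟨i, p⟩ := x
      simp only at h; subst h
      rw [lamF_three]; intro h; exact absurd (congrArg Prod.snd h) (show (0 : Fin 8) ≠ 3 by decide)
    · obtain ⟨i, p⟩ := x
      simp only at h; subst h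
      rw [lamF_four]; intro h; exact absurd (congrArg Prod.snd h) (show (1 : Fin 8) ≠ 4 by decide)
    · rw [lamF_pc]; intro h; exact ext_ne ρ y (pc_inj sgn h)

theorem satLink_lam : (satLink ρ π sgn).lam = lamF ρ π sgn := rfl

/-- The roles are connected by the links and the pairings given by the truth values `t`. -/
def RConn (t : J × Fin 4 → Bool) : Prop :=
  ∀ x y : (J × Fin 4) × Fin 4,
    Relation.ReflTransGen (fun a b => b = ext ρ a ∨ b = (a.1, st (t a.1) a.2)) x y

theorem m8_m8 (b : Bool) (p : Fin 8) : m8 b (m8 b p) = p := by revert b p; decide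

variable {ρ π sgn}

theorem st_role (s b : Bool) : st (s == b) 0 = role b (if s then 7 else 5) ∧
    st (s == b) 3 = role b (if s then 5 else 7) ∧
    st (s == b) (role b (if s then 7 else 5)) = 0 ∧
    st (s == b) (role b (if s then 5 else 7)) = 3 := by
  revert s b; decide

theorem rconn_of_portConn {σ : J × Fin 4 → Bool} (hσ : ∀ i, σ (π i) = σ i)
    (h : PortConn (satLink ρ π sgn) σ) : RConn ρ (fun i => σ i == sgn i) := by
  have hσ' : ∀ i, σ (π.symm i) = σ i := fun i => by rw [← hσ, Equiv.apply_symm_apply]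
  let rep : (J × Fin 4) × Fin 8 → (J × Fin 4) × Fin 4 := fun x =>
    if x.2 = 0 then (if σ x.1 then (x.1, role (sgn x.1) 7)
      else (π.symm x.1, role (sgn (π.symm x.1)) 5)) else
    if x.2 = 1 then (if σ x.1 then (x.1, 0) else (π.symm x.1, 0)) else
    if x.2 = 3 then (if σ x.1 then (π x.1, 0) else (x.1, 0)) else
    if x.2 = 4 then (if σ x.1 then (π x.1, role (sgn (π x.1)) 7) else (x.1, role (sgn x.1) 5)) else
    (x.1, role (sgn x.1) x.2)
  let R : (J × Fin 4) × Fin 4 → (J × Fin 4) × Fin 4 → Prop :=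
    Relation.ReflTransGen (fun a b => b = ext ρ a ∨ b = (a.1, st (σ a.1 == sgn a.1) a.2))
  have hst : ∀ i r, R (i, r) (i, st (σ i == sgn i) r) := fun i r =>
    Relation.ReflTransGen.single (Or.inr rfl)
  have hst' : ∀ i r, R (i, st (σ i == sgn i) r) (i, r) := fun i r => by
    have := hst i (st (σ i == sgn i) r)
    rwa [st_st] at this
  have key : ∀ i, (σ i = true → (R (i, 0) (i, role (sgn i) 7) ∧ R (i, role (sgn i) 7) (i, 0) ∧
      R (i, 3) (i, role (sgn i) 5) ∧ R (i, role (sgn i) 5) (i, 3))) ∧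
      (σ i = false → (R (i, 0) (i, role (sgn i) 5) ∧ R (i, role (sgn i) 5) (i, 0) ∧
      R (i, 3) (i, role (sgn i) 7) ∧ R (i, role (sgn i) 7) (i, 3))) := by
    intro i
    obtain ⟨h1, h2, -, -⟩ := st_role (σ i) (sgn i)
    have a := hst i 0
    have a' := hst' i 0
    have b := hst i 3
    have b' := hst' i 3
    rw [h1] at a a'
    rw [h2] at b b'
    constructor
    · intro hs
      simp only [hs, if_true] at a a' b b'
      exact ⟨a, a', b, b'⟩
    · intro hs
      simp only [hs, Bool.false_eq_true, if_false] at a a' b b'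
      exact ⟨a, a', b, b'⟩
  have rep_pc : ∀ y, rep (pc sgn y) = y := by
    intro y
    obtain ⟨h0, h1, h3, h4⟩ := prt_mem (sgn y.1) y.2
    simp only [rep, pc, h0, h1, h3, h4, if_false, role_prt]
  have hlam : ∀ x, R (rep x) (rep (lamF ρ π sgn x)) := by
    intro x
    rcases corner_cases sgn x with h | h | h | h | ⟨y, rfl⟩
    · obtain ⟨i, p⟩ := x
      simp only at h; subst h
      rw [lamF_zero]
      cases hs : σ i
      · have := (key (π.symm i)).2 (by rw [hσ', hs])
        simpa [rep, hs, hσ'] using this.2.1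
      · have := (key i).1 hs
        simpa [rep, hs, hσ'] using this.2.1
    · obtain ⟨i, p⟩ := x
      simp only at h; subst h
      rw [lamF_one]
      cases hs : σ i
      · have := (key (π.symm i)).2 (by rw [hσ', hs])
        simpa [rep, hs, hσ'] using this.1
      · have := (key i).1 hs
        simpa [rep, hs, hσ'] using this.1
    · obtain ⟨i, p⟩ := x
      simp only at h; subst h
      rw [lamF_three]
      cases hs : σ i
      · have := (key i).2 hs
        simpa [rep, hs, hσ] using this.1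
      · have := (key (π i)).1 (by rw [hσ, hs])
        simpa [rep, hs, hσ] using this.1
    · obtain ⟨i, p⟩ := x
      simp only at h; subst h
      rw [lamF_four]
      cases hs : σ i
      · have := (key i).2 hs
        simpa [rep, hs, hσ] using this.2.1
      · have := (key (π i)).1 (by rw [hσ, hs])
        simpa [rep, hs, hσ] using this.2.1
    · rw [lamF_pc, rep_pc, rep_pc]
      exact Relation.ReflTransGen.single (Or.inl rfl)
  have hmu : ∀ x, R (rep x) (rep (mu σ x)) := by
    rintro ⟨i, p⟩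
    have k1 := (key i).1
    have k2 := (key i).2
    have k3 := (key (π i)).1
    have k4 := (key (π.symm i)).2
    rw [hσ] at k3
    rw [hσ'] at k4
    have r0 : R (i, 0) (i, 0) := Relation.ReflTransGen.refl
    have r5 : R (i, role (sgn i) 5) (i, role (sgn i) 5) := Relation.ReflTransGen.refl
    have r7 : R (i, role (sgn i) 7) (i, role (sgn i) 7) := Relation.ReflTransGen.refl
    have e2 : role (sgn i) 2 = 0 := by cases sgn i <;> rfl
    have e6 : role (sgn i) 6 = 3 := by cases sgn i <;> rfl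
    cases hs : σ i
    · have q0 : m8 false 0 = 1 := by decide
      have q1 : m8 false 1 = 0 := by decide
      have q2 : m8 false 2 = 3 := by decide
      have q3 : m8 false 3 = 2 := by decide
      have q4 : m8 false 4 = 5 := by decide
      have q5 : m8 false 5 = 4 := by decide
      have q6 : m8 false 6 = 7 := by decide
      have q7 : m8 false 7 = 6 := by decide
      have := k2 hs
      have := k4 hs
      fin_cases p <;> simp_all [rep, mu]
    · have q0 : m8 true 0 = 7 := by decide
      have q1 : m8 true 1 = 2 := by decide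
      have q2 : m8 true 2 = 1 := by decide
      have q3 : m8 true 3 = 4 := by decide
      have q4 : m8 true 4 = 3 := by decide
      have q5 : m8 true 5 = 6 := by decide
      have q6 : m8 true 6 = 5 := by decide
      have q7 : m8 true 7 = 0 := by decide
      have := k1 hs
      have := k3 hs
      fin_cases p <;> simp_all [rep, mu]
  intro x y
  have hxy := h (pc sgn x) (pc sgn y)
  have : ∀ z, Relation.ReflTransGen (fun a b => b = (satLink ρ π sgn).lam a ∨ b = mu σ a)
      (pc sgn x) z → R (rep (pc sgn x)) (rep z) := by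
    intro z hz
    induction hz with
    | refl => exact Relation.ReflTransGen.refl
    | tail _ hbc ih =>
      rcases hbc with rfl | rfl
      · exact ih.trans (hlam _)
      · exact ih.trans (hmu _)
  have := this _ hxy
  rwa [rep_pc, rep_pc] at this

theorem sigma_const {I : Type} [Finite I] (π : Equiv.Perm I) {σ : I → Bool}
    (h : ∀ i, σ i = true → σ (π i) = true) (i : I) : σ (π i) = σ i := by
  have h1 : π '' {i | σ i = true} ⊆ {i | σ i = true} := by
    rintro _ ⟨j, hj, rfl⟩
    exact h j hj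
  have h2 : π '' {i | σ i = true} = {i | σ i = true} :=
    Set.eq_of_subset_of_ncard_le h1
      (by rw [Set.ncard_image_of_injective _ π.injective]) (Set.toFinite _)
  have h3 : σ (π i) = true → σ i = true := by
    intro hi
    have : π i ∈ π '' {i | σ i = true} := by rw [h2]; exact hi
    obtain ⟨j, hj, hji⟩ := this
    rw [← π.injective hji]; exact hj
  cases hs : σ i
  · cases ht : σ (π i)
    · rfl
    · rw [h3 ht] at hs; exact absurd hs (by decide)
  · exact h i hs

/-- In a single circuit, the choices do not change along `π`. -/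
theorem sigma_of_portConn [Finite J] {σ : J × Fin 4 → Bool}
    (h : PortConn (satLink ρ π sgn) σ) (i : J × Fin 4) : σ (π i) = σ i := by
  refine sigma_const π (fun i hi => ?_) i
  by_contra hc
  have hc : σ (π i) = false := by simpa using hc
  have h1 := h (i, 3) (i, 2)
  have h2 : ∀ z, Relation.ReflTransGen
      (fun a b => b = (satLink ρ π sgn).lam a ∨ b = mu σ a) (i, 3) z →
      z = (i, 3) ∨ z = (i, 4) ∨ z = (π i, 0) ∨ z = (π i, 1) := by
    intro z hz
    induction hz with
    | refl => exact Or.inl rfl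
    | tail _ hbc ih =>
      have q3 : m8 true 3 = 4 := by decide
      have q4 : m8 true 4 = 3 := by decide
      have q0 : m8 false 0 = 1 := by decide
      have q1 : m8 false 1 = 0 := by decide
      rcases ih with rfl | rfl | rfl | rfl
      · rcases hbc with rfl | rfl
        · exact Or.inr (Or.inr (Or.inl rfl))
        · simp [mu, hi, q3]
      · rcases hbc with rfl | rfl
        · exact Or.inr (Or.inr (Or.inr rfl))
        · simp [mu, hi, q4]
      · rcases hbc with rfl | rfl
        · refine Or.inl ?_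
          rw [satLink_lam, lamF_zero, Equiv.symm_apply_apply]
        · simp [mu, hc, q0]
      · rcases hbc with rfl | rfl
        · refine Or.inr (Or.inl ?_)
          rw [satLink_lam, lamF_one, Equiv.symm_apply_apply]
        · simp [mu, hc, q1]
  rcases h2 _ h1 with h3 | h3 | h3 | h3
  · exact absurd (congrArg Prod.snd h3) (show (2 : Fin 8) ≠ 3 by decide)
  · exact absurd (congrArg Prod.snd h3) (show (2 : Fin 8) ≠ 4 by decide)
  · exact absurd (congrArg Prod.snd h3) (show (2 : Fin 8) ≠ 0 by decide)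
  · exact absurd (congrArg Prod.snd h3) (show (2 : Fin 8) ≠ 1 by decide)

/-! ### Clauses -/

/-- The roles of a clause in the order in which the circuit meets them. -/
def tour (t : Fin 4 → Bool) : ℕ → Fin 4 × Fin 4
  | 0 => (0, 0)
  | n + 1 => if n % 2 = 0 then ((tour t n).1, st (t (tour t n).1) (tour t n).2)
      else tb (tour t n)

def tv (a b c : Bool) (k : Fin 4) : Bool := if k = 0 then a else if k = 1 then b else c

theorem tour_all : ∀ a b c : Bool, (a || b || c) = true → ∀ y : Fin 4 × Fin 4,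
    ∃ n : Fin 16, tour (tv a b c) n = y := by
  decide +kernel

theorem tour_ne : ∀ a b c : Bool, (a || b || c) = true → ∀ n : Fin 15, (n : ℕ) % 2 = 1 →
    tour (tv a b c) n ≠ (0, 0) ∧ tour (tv a b c) n ≠ (1, 3) := by
  decide +kernel

theorem rconn_of_sat {t : J × Fin 4 → Bool} (hρ : ∀ S : Set J, S.Nonempty →
    (∀ j ∈ S, ρ j ∈ S) → S = Set.univ) [Nonempty J] (h3 : ∀ j, t (j, 2) = t (j, 3))
    (hs : ∀ j, (t (j, 0) || t (j, 1) || t (j, 2)) = true) : RConn ρ t := by
  let R : (J × Fin 4) × Fin 4 → (J × Fin 4) × Fin 4 → Prop :=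
    Relation.ReflTransGen (fun a b => b = ext ρ a ∨ b = (a.1, st (t a.1) a.2))
  have Rsymm : ∀ x y, R x y → R y x := by
    intro x y hxy
    induction hxy with
    | refl => exact Relation.ReflTransGen.refl
    | tail _ hbc ih =>
      refine Relation.ReflTransGen.trans (Relation.ReflTransGen.single ?_) ih
      rcases hbc with rfl | rfl
      · exact Or.inl (ext_ext ρ _).symm
      · refine Or.inr ?_
        simp only [st_st]
  have htv : ∀ j k, t (j, k) = tv (t (j, 0)) (t (j, 1)) (t (j, 2)) k := by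
    intro j k
    have := h3 j
    fin_cases k <;> simp [tv, this]
  have h1 : ∀ j (n : ℕ), n < 16 → R ((j, 0), 0)
      ((j, (tour (tv (t (j, 0)) (t (j, 1)) (t (j, 2))) n).1),
        (tour (tv (t (j, 0)) (t (j, 1)) (t (j, 2))) n).2) := by
    intro j n
    induction n with
    | zero => intro _; exact Relation.ReflTransGen.refl
    | succ n ih =>
      intro hn
      refine (ih (by omega)).trans (Relation.ReflTransGen.single ?_)
      by_cases hp : n % 2 = 0
      · refine Or.inr ?_
        simp only [tour, hp, if_true]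
        rw [← htv j]
      · refine Or.inl ?_
        obtain ⟨a, b⟩ := tour_ne _ _ _ (hs j) ⟨n, by omega⟩ (show n % 2 = 1 by omega)
        simp only at a b
        rw [ext_inner ρ j (by exact a) (by exact b)]
        simp only [tour, hp, if_false]
  have h2 : ∀ j k r, R ((j, 0), 0) ((j, k), r) := by
    intro j k r
    obtain ⟨n, hn⟩ := tour_all _ _ _ (hs j) (k, r)
    have := h1 j n n.2
    rwa [hn] at this
  have h4 : ∀ j j', R ((j, 0), 0) ((j', 0), 0) := by
    intro j
    have : {j' | R ((j, 0), 0) ((j', 0), 0)} = Set.univ := by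
      refine hρ _ ⟨j, Relation.ReflTransGen.refl⟩ ?_
      intro j' hj'
      refine Relation.ReflTransGen.trans hj' ((h2 j' 1 3).trans
        (Relation.ReflTransGen.single (Or.inl ?_)))
      rw [ext_out]
    intro j'
    have h5 : j' ∈ {j' | R ((j, 0), 0) ((j', 0), 0)} := by rw [this]; trivial
    exact h5
  rintro ⟨⟨j, k⟩, r⟩ ⟨⟨j', k'⟩, r'⟩
  exact (Rsymm _ _ (h2 j k r)).trans ((h4 j j').trans (h2 j' k' r'))

theorem cl_tb : ∀ k r : Fin 4, ((k = 0) = ((r : ℕ) % 2 = 1)) →
    ((tb (k, r)).1 = 0) = (((tb (k, r)).2 : ℕ) % 2 = 1) := by decide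

theorem cl_st : ∀ k r : Fin 4, ((k = 0) = ((r : ℕ) % 2 = 1)) →
    (k = 0) = (((st false r : Fin 4) : ℕ) % 2 = 1) := by decide

theorem sat_of_rconn {t : J × Fin 4 → Bool} (h : RConn ρ t) (j : J) :
    ∃ k, t (j, k) = true := by
  by_contra hc
  push Not at hc
  have hc : ∀ k, t (j, k) = false := fun k => by simpa using hc k
  have h1 := h ((j, 0), 1) ((j, 0), 0)
  have h2 : ∀ z, Relation.ReflTransGen (fun a b => b = ext ρ a ∨ b = (a.1, st (t a.1) a.2))
      ((j, 0), 1) z → z.1.1 = j ∧ ((z.1.2 = 0) = ((z.2 : ℕ) % 2 = 1)) := by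
    intro z hz
    induction hz with
    | refl => exact ⟨rfl, show ((0 : Fin 4) = 0) = (((1 : Fin 4) : ℕ) % 2 = 1) by decide⟩
    | @tail b c _ hbc ih =>
      obtain ⟨⟨j', k⟩, r⟩ := b
      obtain ⟨rfl, ih⟩ := ih
      simp only at ih
      rcases hbc with rfl | rfl
      · have e1 : (k, r) ≠ (0, 0) := by
          rintro h; obtain ⟨rfl, rfl⟩ := Prod.mk.inj h; exact absurd ih (by decide)
        have e2 : (k, r) ≠ (1, 3) := by
          rintro h; obtain ⟨rfl, rfl⟩ := Prod.mk.inj h; exact absurd ih (by decide)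
        rw [ext_inner ρ j' e1 e2]
        exact ⟨rfl, cl_tb k r ih⟩
      · refine ⟨rfl, ?_⟩
        simp only [hc]
        exact cl_st k r ih
  have h3 := (h2 _ h1).2
  exact absurd h3 (by simp)

theorem portConn_of_rconn {σ : J × Fin 4 → Bool} (hσ : ∀ i, σ (π i) = σ i)
    (h : RConn ρ (fun i => σ i == sgn i)) : PortConn (satLink ρ π sgn) σ := by
  have hσ' : ∀ i, σ (π.symm i) = σ i := fun i => by rw [← hσ, Equiv.apply_symm_apply]
  let Q : (J × Fin 4) × Fin 8 → (J × Fin 4) × Fin 8 → Prop :=
    Relation.ReflTransGen (fun a b => b = (satLink ρ π sgn).lam a ∨ b = mu σ a)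
  have Qsymm : ∀ x y, Q x y → Q y x := by
    intro x y hxy
    induction hxy with
    | refl => exact Relation.ReflTransGen.refl
    | tail _ hbc ih =>
      refine Relation.ReflTransGen.trans (Relation.ReflTransGen.single ?_) ih
      rcases hbc with rfl | rfl
      · exact Or.inl ((satLink ρ π sgn).inv _).symm
      · refine Or.inr ?_
        simp only [mu, m8_m8]
  have Qtrans : ∀ {x y z}, Q x y → Q y z → Q x z := fun h h' => h.trans h'
  have ql : ∀ x, Q x (lamF ρ π sgn x) := fun x => Relation.ReflTransGen.single (Or.inl rfl)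
  have qm : ∀ i p, Q (i, p) (i, m8 (σ i) p) := fun i p => Relation.ReflTransGen.single (Or.inr rfl)
  have q0 : ∀ i, Q (i, 0) (π.symm i, 3) := fun i => ql (i, 0)
  have q1 : ∀ i, Q (i, 1) (π.symm i, 4) := fun i => ql (i, 1)
  have q3 : ∀ i, Q (i, 3) (π i, 0) := fun i => ql (i, 3)
  have q4 : ∀ i, Q (i, 4) (π i, 1) := fun i => ql (i, 4)
  -- strands
  have sT : ∀ i, σ i = true → Q (i, 2) (i, 7) ∧ Q (i, 0) (i, 7) ∧ Q (i, 1) (i, 2) ∧
      Q (i, 3) (π i, 2) ∧ Q (i, 4) (π i, 7) ∧ Q (i, 5) (i, 6) := by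
    intro i hs
    have m : ∀ i, σ i = true → Q (i, 2) (i, 1) ∧ Q (i, 3) (i, 4) ∧ Q (i, 0) (i, 7) ∧
        Q (i, 5) (i, 6) := by
      intro i hs
      have a := qm i 2
      have b := qm i 3
      have c := qm i 0
      have d := qm i 5
      rw [hs] at a b c d
      exact ⟨a, b, c, d⟩
    obtain ⟨a, b, c, d⟩ := m i hs
    obtain ⟨a', b', c', d'⟩ := m (π.symm i) (by rw [hσ', hs])
    obtain ⟨a'', b'', c'', d''⟩ := m (π i) (by rw [hσ, hs])
    refine ⟨?_, c, Qsymm _ _ a, ?_, ?_, d⟩
    · exact Qtrans a (Qtrans (q1 i) (Qtrans (Qsymm _ _ b') (Qtrans (Qsymm _ _ (q0 i)) c)))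
    · exact Qtrans b (Qtrans (q4 i) (Qsymm _ _ a''))
    · exact Qtrans (Qsymm _ _ b) (Qtrans (q3 i) c'')
  have sF : ∀ i, σ i = false → Q (i, 2) (i, 5) ∧ Q (i, 0) (π.symm i, 5) ∧
      Q (i, 1) (π.symm i, 2) ∧ Q (i, 3) (i, 2) ∧ Q (i, 4) (i, 5) ∧ Q (i, 6) (i, 7) := by
    intro i hs
    have m : ∀ i, σ i = false → Q (i, 2) (i, 3) ∧ Q (i, 0) (i, 1) ∧ Q (i, 4) (i, 5) ∧
        Q (i, 6) (i, 7) := by
      intro i hs
      have a := qm i 2
      have b := qm i 0
      have c := qm i 4
      have d := qm i 6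
      rw [hs] at a b c d
      exact ⟨a, b, c, d⟩
    obtain ⟨a, b, c, d⟩ := m i hs
    obtain ⟨a', b', c', d'⟩ := m (π.symm i) (by rw [hσ', hs])
    obtain ⟨a'', b'', c'', d''⟩ := m (π i) (by rw [hσ, hs])
    refine ⟨?_, ?_, ?_, Qsymm _ _ a, c, d⟩
    · exact Qtrans a (Qtrans (q3 i) (Qtrans b'' (Qtrans (Qsymm _ _ (q4 i)) c)))
    · exact Qtrans b (Qtrans (q1 i) c')
    · exact Qtrans (Qsymm _ _ b) (Qtrans (q0 i) (Qsymm _ _ a'))
  -- every corner is connected to an outer corner
  have hout : ∀ x, ∃ y, Q x (pc sgn y) := by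
    intro x
    have o2 : ∀ i, pc sgn (i, role (sgn i) 2) = (i, 2) := fun i =>
      pc_role sgn i (by decide) (by decide) (by decide) (by decide)
    have o5 : ∀ i, pc sgn (i, role (sgn i) 5) = (i, 5) := fun i =>
      pc_role sgn i (by decide) (by decide) (by decide) (by decide)
    have o7 : ∀ i, pc sgn (i, role (sgn i) 7) = (i, 7) := fun i =>
      pc_role sgn i (by decide) (by decide) (by decide) (by decide)
    rcases corner_cases sgn x with h | h | h | h | ⟨y, rfl⟩
    · obtain ⟨i, p⟩ := x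
      simp only at h; subst h
      cases hs : σ i
      · exact ⟨_, by rw [o5]; exact (sF i hs).2.1⟩
      · exact ⟨_, by rw [o7]; exact (sT i hs).2.1⟩
    · obtain ⟨i, p⟩ := x
      simp only at h; subst h
      cases hs : σ i
      · exact ⟨_, by rw [o2]; exact (sF i hs).2.2.1⟩
      · exact ⟨_, by rw [o2]; exact (sT i hs).2.2.1⟩
    · obtain ⟨i, p⟩ := x
      simp only at h; subst h
      cases hs : σ i
      · exact ⟨_, by rw [o2]; exact (sF i hs).2.2.2.1⟩
      · exact ⟨_, by rw [o2]; exact (sT i hs).2.2.2.1⟩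
    · obtain ⟨i, p⟩ := x
      simp only at h; subst h
      cases hs : σ i
      · exact ⟨_, by rw [o5]; exact (sF i hs).2.2.2.2.1⟩
      · exact ⟨_, by rw [o7]; exact (sT i hs).2.2.2.2.1⟩
    · exact ⟨y, Relation.ReflTransGen.refl⟩
  have hst : ∀ i r, Q (pc sgn (i, r)) (pc sgn (i, st (σ i == sgn i) r)) := by
    intro i r
    have hT := sT i
    have hF := sF i
    cases hs : σ i
    · obtain ⟨a, -, -, -, -, b⟩ := hF hs
      have a' := Qsymm _ _ a
      have b' := Qsymm _ _ b
      cases hg : sgn i <;> fin_cases r <;> simpa [pc, prt, st, hg] using by assumption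
    · obtain ⟨a, -, -, -, -, b⟩ := hT hs
      have a' := Qsymm _ _ a
      have b' := Qsymm _ _ b
      cases hg : sgn i <;> fin_cases r <;> simpa [pc, prt, st, hg] using by assumption
  have hR : ∀ x y, Relation.ReflTransGen
      (fun a b => b = ext ρ a ∨ b = (a.1, st (σ a.1 == sgn a.1) a.2)) x y →
      Q (pc sgn x) (pc sgn y) := by
    intro x y hxy
    induction hxy with
    | refl => exact Relation.ReflTransGen.refl
    | tail _ hbc ih =>
      refine Qtrans ih ?_
      rcases hbc with rfl | rfl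
      · rw [← lamF_pc]
        exact ql _
      · exact hst _ _
  intro x y
  obtain ⟨x', hx⟩ := hout x
  obtain ⟨y', hy⟩ := hout y
  exact Qtrans hx (Qtrans (hR _ _ (h x' y')) (Qsymm _ _ hy))

/-- **Correctness of the links.** -/
theorem sat_iff [Finite J] [Nonempty J] {lits : J → Fin 3 → Bool × ℕ}
    (hρ : ∀ S : Set J, S.Nonempty → (∀ j ∈ S, ρ j ∈ S) → S = Set.univ)
    (hv : ∀ i, (lits (π i).1 (lidx (π i).2)).2 = (lits i.1 (lidx i.2)).2)
    (hc : ∀ σ : J × Fin 4 → Bool, (∀ i, σ (π i) = σ i) → ∀ i i',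
      (lits i.1 (lidx i.2)).2 = (lits i'.1 (lidx i'.2)).2 → σ i = σ i') :
    (∃ σ, PortConn (satLink ρ π fun i => (lits i.1 (lidx i.2)).1) σ) ↔
      ∃ X : ℕ → Bool, ∀ j, ∃ k, X (lits j k).2 = (lits j k).1 := by
  classical
  constructor
  · rintro ⟨σ, h⟩
    have hσ := sigma_of_portConn h
    have hr := rconn_of_portConn hσ h
    refine ⟨fun v => decide (∃ i, (lits i.1 (lidx i.2)).2 = v ∧ σ i = true), fun j => ?_⟩
    obtain ⟨k, hk⟩ := sat_of_rconn hr j
    refine ⟨lidx k, ?_⟩
    simp only [beq_iff_eq] at hk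
    rw [← hk]
    cases hs : σ (j, k)
    · rw [decide_eq_false_iff_not]
      rintro ⟨i, hi, hi'⟩
      rw [hc σ hσ i (j, k) hi, hs] at hi'
      exact absurd hi' (by decide)
    · rw [decide_eq_true_eq]
      exact ⟨(j, k), rfl, hs⟩
  · rintro ⟨X, hX⟩
    refine ⟨fun i => X (lits i.1 (lidx i.2)).2, portConn_of_rconn (fun i => by rw [hv]) ?_⟩
    refine rconn_of_sat hρ (fun j => rfl) (fun j => ?_)
    obtain ⟨k, hk⟩ := hX j
    simp only [Bool.or_eq_true, beq_iff_eq]
    fin_cases k
    · exact Or.inl (Or.inl hk)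
    · exact Or.inl (Or.inr hk)
    · exact Or.inr hk

end

end Pool.Agent.Work.MP_f63b47_lc
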