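import Pool.Agent.Work.MP_f63b47_lc.Defs

/-!
Octagons whose vertices are replaced by gadgets.
-/

set_option autoImplicit false

namespace Pool.Agent.Work.MP_f63b47_lc

open SimpleGraph

theorem ne_add_one8 (p : Fin 8) : p ≠ p + 1 := by
  revert p; decide

/-- A gadget: a finite graph `F` with three vertices `a`, `b`, `c` (not necessarily different) such
that `F` has a Hamiltonian path from `a` to `c` and a Hamiltonian path from `b` to `c`. -/
structure Gadget where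
  r : ℕ
  F : SimpleGraph (Fin r)
  a : Fin r
  b : Fin r
  c : Fin r
  ha : ∃ p : F.Walk a c, p.IsHamiltonian
  hb : ∃ p : F.Walk b c, p.IsHamiltonian

/-- The gadget with an infinite path attached to `c`: the numbers less than `r` are the vertices
of the gadget, the numbers `r, r + 1, …` are the vertices of the path. -/
def Gadget.Ray (g : Gadget) : SimpleGraph ℕ where
  Adj s t := (∃ (hs : s < g.r) (ht : t < g.r), g.F.Adj ⟨s, hs⟩ ⟨t, ht⟩) ∨
    (s = g.c ∧ t = g.r) ∨ (t = g.c ∧ s = g.r) ∨ (g.r ≤ s ∧ t = s + 1) ∨ (g.r ≤ t ∧ s = t + 1)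
  symm := ⟨fun s t h => by
    rcases h with ⟨hs, ht, h⟩ | h | h | h | h
    · exact Or.inl ⟨ht, hs, h.symm⟩
    · exact Or.inr (Or.inr (Or.inl h))
    · exact Or.inr (Or.inl h)
    · exact Or.inr (Or.inr (Or.inr (Or.inr h)))
    · exact Or.inr (Or.inr (Or.inr (Or.inl h)))⟩
  loopless := ⟨by
    have hc := g.c.2
    rintro s (⟨hs, ht, h⟩ | h | h | h | h)
    · exact h.ne rfl
    all_goals omega⟩

/-- The edges between the gadgets: the vertex `b` of each gadget is joined to the vertex `a` of the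
next one. -/
def OctE (G : Fin 8 → Gadget) (p : Fin 8) (s : ℕ) (q : Fin 8) (t : ℕ) : Prop :=
  q = p + 1 ∧ s = (G p).b ∧ t = (G q).a

/-- The disjoint union of infinitely many suns: the vertices of an octagon are replaced by the
gadgets `G 0, …, G 7`, and an infinite path is attached to the vertex `c` of each gadget. -/
def GSuns (G : Fin 8 → Gadget) : SimpleGraph (ℕ × Fin 8 × ℕ) where
  Adj x y := x.1 = y.1 ∧ (OctE G x.2.1 x.2.2 y.2.1 y.2.2 ∨ OctE G y.2.1 y.2.2 x.2.1 x.2.2 ∨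
    (x.2.1 = y.2.1 ∧ (G x.2.1).Ray.Adj x.2.2 y.2.2))
  symm := ⟨fun x y h => by
    obtain ⟨h1, h2⟩ := h
    refine ⟨h1.symm, ?_⟩
    rcases h2 with h2 | h2 | ⟨h3, h4⟩
    · exact Or.inr (Or.inl h2)
    · exact Or.inl h2
    · exact Or.inr (Or.inr ⟨h3.symm, by rw [← h3]; exact h4.symm⟩)⟩
  loopless := ⟨by
    rintro ⟨n, p, s⟩ ⟨-, h | h | ⟨-, h⟩⟩
    · exact ne_add_one8 p h.1
    · exact ne_add_one8 p h.1
    · exact h.ne rfl⟩

/-- The graph: octagons with gadgets, with paths attached to the vertices `c` of the gadgets, the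
ends of the paths of the corners `x` and `lam x` being joined. -/
def GG {I : Type} (L : Link I) (G : Fin 8 → Gadget) (K : ℕ) :
    SimpleGraph ((I × Fin 8) × Fin (K + 1)) where
  Adj u v :=
    (u.1.1 = v.1.1 ∧ (OctE G u.1.2 u.2 v.1.2 v.2 ∨ OctE G v.1.2 v.2 u.1.2 u.2)) ∨
    (u.1 = v.1 ∧ (G u.1.2).Ray.Adj u.2 v.2) ∨
    ((u.2 : ℕ) = K ∧ (v.2 : ℕ) = K ∧ L.lam u.1 = v.1)
  symm := ⟨fun u v h => by
    rcases h with ⟨h1, h2⟩ | ⟨h1, h2⟩ | ⟨h1, h2, h3⟩
    · exact Or.inl ⟨h1.symm, h2.symm⟩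
    · exact Or.inr (Or.inl ⟨h1.symm, by rw [← h1]; exact h2.symm⟩)
    · exact Or.inr (Or.inr ⟨h2, h1, by rw [← h3, L.inv]⟩)⟩
  loopless := ⟨by
    rintro ⟨⟨i, p⟩, s⟩ (⟨-, h⟩ | ⟨-, h⟩ | ⟨-, -, h⟩)
    · rcases h with h | h <;> exact ne_add_one8 p h.1
    · exact h.ne rfl
    · exact L.ne _ h⟩

end Pool.Agent.Work.MP_f63b47_lc
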