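import Pool.Agent.Work.MP_f63b47_lc.SubDefs
import Pool.Agent.Work.MP_f63b47_lc.Oct

/-!
Hamiltonian cycles of octagons with gadgets.
-/

set_option autoImplicit false

namespace Pool.Agent.Work.MP_f63b47_lc

open SimpleGraph

/-- In a 2-regular graph the number of edges leaving a set of vertices is even. -/
theorem even_cut {V : Type} [Fintype V] [DecidableEq V] (G : SimpleGraph V) [DecidableRel G.Adj]
    (h : ∀ v, (G.neighborSet v).ncard = 2) (S : Finset V) :
    Even ((S ×ˢ Sᶜ).filter (fun e => G.Adj e.1 e.2)).card := by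
  have hin : Even ((S ×ˢ S).filter (fun e => G.Adj e.1 e.2)).card := by
    have hz : (((S ×ˢ S).filter (fun e => G.Adj e.1 e.2)).card : ZMod 2) = 0 := by
      rw [Finset.card_eq_sum_ones, Nat.cast_sum]
      refine Finset.sum_involution (fun e _ => (e.2, e.1)) ?_ ?_ ?_ ?_
      · intro e _
        decide
      · intro e he _
        rw [Finset.mem_filter] at he
        intro heq
        have h1 : e.2 = e.1 := congrArg Prod.fst heq
        exact he.2.ne h1.symm
      · intro e he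
        rw [Finset.mem_filter, Finset.mem_product] at he ⊢
        exact ⟨⟨he.1.2, he.1.1⟩, he.2.symm⟩
      · intro e _
        rfl
    rwa [ZMod.natCast_eq_zero_iff_even] at hz
  have hdeg : ∀ v, (∑ w : V, if G.Adj v w then 1 else 0) = 2 := by
    intro v
    rw [← Finset.card_filter, ← h v, Set.ncard_eq_toFinset_card']
    congr 1
    ext w
    simp
  have htot : ((S ×ˢ S).filter (fun e => G.Adj e.1 e.2)).card +
      ((S ×ˢ Sᶜ).filter (fun e => G.Adj e.1 e.2)).card = 2 * S.card := by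
    rw [Finset.card_filter, Finset.card_filter, Finset.sum_product, Finset.sum_product,
      ← Finset.sum_add_distrib]
    have : ∀ v ∈ S, ((∑ w ∈ S, if G.Adj v w then 1 else 0) +
        ∑ w ∈ Sᶜ, if G.Adj v w then 1 else 0) = 2 := by
      intro v _
      rw [Finset.sum_add_sum_compl, hdeg]
    rw [Finset.sum_congr rfl this]
    simp [mul_comm]
  rw [Nat.even_iff] at hin ⊢
  omega

/-- The lower neighbour of a vertex on an attached path. -/
def gdown {I : Type} (G : Fin 8 → Gadget) {K : ℕ} (u : (I × Fin 8) × Fin (K + 1)) :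
    (I × Fin 8) × Fin (K + 1) :=
  if h : (u.2 : ℕ) = (G u.1.2).r then
    (u.1, ⟨(G u.1.2).c, by have := (G u.1.2).c.2; have := u.2.2; omega⟩)
  else (u.1, ⟨u.2 - 1, by omega⟩)

theorem gg_adj_ray {I : Type} (L : Link I) (G : Fin 8 → Gadget) {K : ℕ}
    (u v : (I × Fin 8) × Fin (K + 1)) (hu : (G u.1.2).r ≤ (u.2 : ℕ)) :
    (GG L G K).Adj u v ↔ v = gdown G u ∨ v = upN L u := by
  obtain ⟨x, s⟩ := u
  obtain ⟨y, t⟩ := v
  simp only at hu
  have hs := s.2
  have ht := t.2
  have ha := (G x.2).a.2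
  have hb := (G x.2).b.2
  have hc := (G x.2).c.2
  unfold gdown upN GG OctE Gadget.Ray
  simp only [Prod.ext_iff, Fin.ext_iff]
  constructor
  · rintro (⟨h1, ⟨h2, h3, h4⟩ | ⟨h2, h3, h4⟩⟩ | ⟨h1, h2⟩ | ⟨h1, h2, h3⟩)
    · omega
    · omega
    · have hxy : x = y := Prod.ext h1.1 (Fin.ext h1.2)
      subst hxy
      rcases h2 with ⟨h3, h4, -⟩ | ⟨h3, h4⟩ | ⟨h3, h4⟩ | ⟨h3, h4⟩ | ⟨h3, h4⟩
      · omega
      · omega
      · left
        rw [dif_pos h4]
        exact ⟨⟨rfl, rfl⟩, h3⟩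
      · right
        rw [dif_pos (by omega)]
        exact ⟨⟨rfl, rfl⟩, h4⟩
      · left
        rw [dif_neg (by omega)]
        refine ⟨⟨rfl, rfl⟩, ?_⟩
        simp only
        omega
    · right
      rw [dif_neg (by omega)]
      exact ⟨⟨h3.1.symm, h3.2.symm⟩, h2⟩
  · split_ifs with h1 h2 h2
    · rintro (⟨⟨h3, h4⟩, h5⟩ | ⟨⟨h3, h4⟩, h5⟩)
      · right; left
        exact ⟨⟨h3.symm, h4.symm⟩, Or.inr (Or.inr (Or.inl ⟨h5, h1⟩))⟩
      · right; left
        exact ⟨⟨h3.symm, h4.symm⟩, Or.inr (Or.inr (Or.inr (Or.inl ⟨hu, h5⟩)))⟩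
    · rintro (⟨⟨h3, h4⟩, h5⟩ | ⟨⟨h3, h4⟩, h5⟩)
      · right; left
        exact ⟨⟨h3.symm, h4.symm⟩, Or.inr (Or.inr (Or.inl ⟨h5, h1⟩))⟩
      · right; right
        simp only at h5
        exact ⟨by omega, h5, h3.symm, h4.symm⟩
    · rintro (⟨⟨h3, h4⟩, h5⟩ | ⟨⟨h3, h4⟩, h5⟩)
      · right; left
        simp only at h5
        exact ⟨⟨h3.symm, h4.symm⟩, Or.inr (Or.inr (Or.inr (Or.inr ⟨by omega, by omega⟩)))⟩
      · right; left
        exact ⟨⟨h3.symm, h4.symm⟩, Or.inr (Or.inr (Or.inr (Or.inl ⟨hu, h5⟩)))⟩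
    · rintro (⟨⟨h3, h4⟩, h5⟩ | ⟨⟨h3, h4⟩, h5⟩)
      · right; left
        simp only at h5
        exact ⟨⟨h3.symm, h4.symm⟩, Or.inr (Or.inr (Or.inr (Or.inr ⟨by omega, by omega⟩)))⟩
      · right; right
        simp only at h5
        exact ⟨by omega, h5, h3.symm, h4.symm⟩

section

variable {I : Type} (G : Fin 8 → Gadget) {K : ℕ} (hK : ∀ p, (G p).r < K)

/-- The vertex `a` of the gadget of a corner. -/
def vA (i : I) (p : Fin 8) : (I × Fin 8) × Fin (K + 1) :=
  ((i, p), ⟨(G p).a, by have := (G p).a.2; have := hK p; omega⟩)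

/-- The vertex `b` of the gadget of a corner. -/
def vB (i : I) (p : Fin 8) : (I × Fin 8) × Fin (K + 1) :=
  ((i, p), ⟨(G p).b, by have := (G p).b.2; have := hK p; omega⟩)

/-- The vertex `c` of the gadget of a corner. -/
def vC (i : I) (p : Fin 8) : (I × Fin 8) × Fin (K + 1) :=
  ((i, p), ⟨(G p).c, by have := (G p).c.2; have := hK p; omega⟩)

/-- The first vertex of the path of a corner. -/
def vR (i : I) (p : Fin 8) : (I × Fin 8) × Fin (K + 1) :=
  ((i, p), ⟨(G p).r, by have := hK p; omega⟩)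

theorem gg_alt [Fintype I] [DecidableEq I] (L : Link I)
    {F : SimpleGraph ((I × Fin 8) × Fin (K + 1))} (hF : F ≤ GG L G K)
    (h2 : ∀ v, (F.neighborSet v).ncard = 2)
    (hC : ∀ i p, F.Adj (vC G hK i p) (vR G hK i p)) (i : I) (p : Fin 8) :
    F.Adj (vB G hK i (p + 1)) (vA G hK i (p + 1 + 1)) ↔
      ¬ F.Adj (vB G hK i p) (vA G hK i (p + 1)) := by
  classical
  let S : Finset ((I × Fin 8) × Fin (K + 1)) :=
    Finset.univ.filter (fun v => v.1 = (i, p + 1) ∧ (v.2 : ℕ) < (G (p + 1)).r)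
  have hS : ∀ v, v ∈ S ↔ v.1 = (i, p + 1) ∧ (v.2 : ℕ) < (G (p + 1)).r := by
    intro v
    simp only [S, Finset.mem_filter, Finset.mem_univ, true_and]
  have hev := even_cut F h2 S
  have hp1 : p ≠ p + 1 := ne_add_one8 p
  have hp2 : p + 1 ≠ p + 1 + 1 := ne_add_one8 (p + 1)
  have hp3 : p + 1 + 1 ≠ p := add2_ne p
  have key : ∀ z, z ∈ (S ×ˢ Sᶜ).filter (fun e => F.Adj e.1 e.2) ↔
      z = (vC G hK i (p + 1), vR G hK i (p + 1)) ∨
      (z = (vB G hK i (p + 1), vA G hK i (p + 1 + 1)) ∧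
        F.Adj (vB G hK i (p + 1)) (vA G hK i (p + 1 + 1))) ∨
      (z = (vA G hK i (p + 1), vB G hK i p) ∧ F.Adj (vB G hK i p) (vA G hK i (p + 1))) := by
    rintro ⟨u, v⟩
    rw [Finset.mem_filter, Finset.mem_product, Finset.mem_compl]
    constructor
    · rintro ⟨⟨hu, hv⟩, hadj⟩
      rw [hS] at hu hv
      simp only at hu hv hadj
      obtain ⟨x, s⟩ := u
      obtain ⟨⟨j, q⟩, t⟩ := v
      obtain ⟨hx, hs⟩ := hu
      simp only at hx hs
      subst hx
      have hKp := hK (p + 1)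
      rcases hF hadj with ⟨h1, h3 | h3⟩ | ⟨h1, h3⟩ | ⟨h1, -, -⟩
      · right; left
        obtain ⟨h4, h5, h6⟩ := h3
        simp only at h1 h4 h5 h6
        subst h1; subst h4
        have e1 : (((i, p + 1), s) : (I × Fin 8) × Fin (K + 1)) = vB G hK i (p + 1) :=
          Prod.ext rfl (Fin.ext h5)
        have e2 : (((i, p + 1 + 1), t) : (I × Fin 8) × Fin (K + 1)) = vA G hK i (p + 1 + 1) :=
          Prod.ext rfl (Fin.ext h6)
        rw [e1, e2] at hadj ⊢
        exact ⟨rfl, hadj⟩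
      · right; right
        obtain ⟨h4, h5, h6⟩ := h3
        simp only at h1 h4 h5 h6
        have h7 : p = q := add_right_cancel h4
        subst h1; subst h7
        have e1 : (((i, p + 1), s) : (I × Fin 8) × Fin (K + 1)) = vA G hK i (p + 1) :=
          Prod.ext rfl (Fin.ext h6)
        have e2 : (((i, p), t) : (I × Fin 8) × Fin (K + 1)) = vB G hK i p :=
          Prod.ext rfl (Fin.ext h5)
        rw [e1, e2] at hadj ⊢
        exact ⟨rfl, hadj.symm⟩
      · left
        simp only at h1 h3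
        rw [← h1] at hv ⊢
        have hv' : (G (p + 1)).r ≤ (t : ℕ) := by
          by_contra hcon
          exact hv ⟨rfl, Nat.lt_of_not_le hcon⟩
        rcases h3 with ⟨-, h4, -⟩ | ⟨h4, h5⟩ | ⟨-, h5⟩ | ⟨h4, h5⟩ | ⟨h4, h5⟩
        · omega
        · have e1 : (((i, p + 1), s) : (I × Fin 8) × Fin (K + 1)) = vC G hK i (p + 1) :=
            Prod.ext rfl (Fin.ext h4)
          have e2 : (((i, p + 1), t) : (I × Fin 8) × Fin (K + 1)) = vR G hK i (p + 1) :=
            Prod.ext rfl (Fin.ext h5)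
          rw [e1, e2]
        · omega
        · omega
        · omega
      · simp only at h1
        omega
    · have hnot1 : vR G hK i (p + 1) ∉ S := by
        rw [hS]
        rintro ⟨-, h⟩
        exact lt_irrefl _ h
      have hnot2 : vA G hK i (p + 1 + 1) ∉ S := by
        rw [hS]
        rintro ⟨h, -⟩
        exact hp2 (congrArg Prod.snd h).symm
      have hnot3 : vB G hK i p ∉ S := by
        rw [hS]
        rintro ⟨h, -⟩
        exact hp1 (congrArg Prod.snd h)
      have hin1 : vC G hK i (p + 1) ∈ S := (hS _).2 ⟨rfl, (G (p + 1)).c.2⟩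
      have hin2 : vB G hK i (p + 1) ∈ S := (hS _).2 ⟨rfl, (G (p + 1)).b.2⟩
      have hin3 : vA G hK i (p + 1) ∈ S := (hS _).2 ⟨rfl, (G (p + 1)).a.2⟩
      rintro (h | ⟨h, h'⟩ | ⟨h, h'⟩)
      · obtain ⟨rfl, rfl⟩ := Prod.mk.inj h
        exact ⟨⟨hin1, hnot1⟩, hC i (p + 1)⟩
      · obtain ⟨rfl, rfl⟩ := Prod.mk.inj h
        exact ⟨⟨hin2, hnot2⟩, h'⟩
      · obtain ⟨rfl, rfl⟩ := Prod.mk.inj h
        exact ⟨⟨hin3, hnot3⟩, h'.symm⟩
  by_cases e1 : F.Adj (vB G hK i (p + 1)) (vA G hK i (p + 1 + 1)) <;>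
    by_cases e0 : F.Adj (vB G hK i p) (vA G hK i (p + 1))
  · exfalso
    have hset : (S ×ˢ Sᶜ).filter (fun e => F.Adj e.1 e.2) =
        {(vC G hK i (p + 1), vR G hK i (p + 1)), (vB G hK i (p + 1), vA G hK i (p + 1 + 1)),
          (vA G hK i (p + 1), vB G hK i p)} := by
      ext z
      rw [key]
      simp only [e1, e0, and_true, Finset.mem_insert, Finset.mem_singleton]
    rw [hset, Finset.card_eq_three.2 ⟨_, _, _, ?_, ?_, ?_, rfl⟩] at hev
    · exact absurd hev (by decide)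
    · intro h
      exact hp2 (congrArg (fun z => z.2.1.2) h)
    · intro h
      exact hp1 (congrArg (fun z => z.2.1.2) h).symm
    · intro h
      exact hp3 (congrArg (fun z => z.2.1.2) h)
  · exact ⟨fun _ => e0, fun _ => e1⟩
  · exact ⟨fun h => absurd h e1, fun h => absurd e0 h⟩
  · exfalso
    have hset : (S ×ˢ Sᶜ).filter (fun e => F.Adj e.1 e.2) =
        {(vC G hK i (p + 1), vR G hK i (p + 1))} := by
      ext z
      rw [key]
      simp only [e1, e0, and_false, or_false, Finset.mem_singleton]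
    rw [hset, Finset.card_singleton] at hev
    exact absurd hev (by decide)

theorem gg_ham_forward [Fintype I] [DecidableEq I] [Nonempty I] (L : Link I)
    (hK : ∀ p, (G p).r < K) (h : HasHamCycle (GG L G K)) : ∃ σ : I → Bool, PortConn L σ := by
  classical
  rw [hasHamCycle_iff] at h
  obtain ⟨F, hF, h2, hconn⟩ := h
  have hpos : ∀ u v : (I × Fin 8) × Fin (K + 1), (G u.1.2).r ≤ (u.2 : ℕ) →
      (GG L G K).Adj u v → F.Adj u v := by
    intro u v hu huv
    have hsub : F.neighborSet u ⊆ {gdown G u, upN L u} := by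
      intro w hw
      exact (gg_adj_ray L G u w hu).mp (hF hw)
    have heq : F.neighborSet u = {gdown G u, upN L u} := by
      apply Set.eq_of_subset_of_ncard_le hsub _ (Set.toFinite _)
      rw [h2]
      exact (Set.ncard_insert_le _ _).trans (by rw [Set.ncard_singleton])
    have hb := (gg_adj_ray L G u v hu).mp huv
    have hb' : v ∈ F.neighborSet u := by rw [heq]; exact hb
    exact hb'
  have hC : ∀ i p, F.Adj (vC G hK i p) (vR G hK i p) := by
    intro i p
    refine (hpos (vR G hK i p) (vC G hK i p) le_rfl ?_).symm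
    exact Or.inr (Or.inl ⟨rfl, Or.inr (Or.inr (Or.inl ⟨rfl, rfl⟩))⟩)
  let e : I → Fin 8 → Prop := fun i p => F.Adj (vB G hK i p) (vA G hK i (p + 1))
  have he : ∀ i p, e i (p + 1) ↔ ¬ e i p := gg_alt G hK L hF h2 hC
  refine ⟨fun i => decide (¬ e i 0), ?_⟩
  have hmu : ∀ (i : I) (p : Fin 8), e i p →
      mu (fun i => decide (¬ e i 0)) (i, p) = (i, p + 1) ∧
      mu (fun i => decide (¬ e i 0)) (i, p + 1) = (i, p) := by
    intro i p hp
    have h3 := (alt8 (P := e i) (he i) p).mp hp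
    have h4 : mu (fun i => decide (¬ e i 0)) (i, p) = (i, p + 1) := by
      unfold mu m8
      simp only
      rw [if_pos h3]
    refine ⟨h4, ?_⟩
    rw [← h4, mu_mu]
  have hoct : ∀ (i : I) (p q : Fin 8) (s t : Fin (K + 1)), F.Adj ((i, p), s) ((i, q), t) →
      OctE G p s q t → e i p ∧ q = p + 1 := by
    rintro i p q s t hadj ⟨h1, h3, h4⟩
    subst h1
    refine ⟨?_, rfl⟩
    have e1 : (((i, p), s) : (I × Fin 8) × Fin (K + 1)) = vB G hK i p :=
      Prod.ext rfl (Fin.ext h3)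
    have e2 : (((i, p + 1), t) : (I × Fin 8) × Fin (K + 1)) = vA G hK i (p + 1) :=
      Prod.ext rfl (Fin.ext h4)
    rwa [e1, e2] at hadj
  have hedge : ∀ u v : (I × Fin 8) × Fin (K + 1), F.Adj u v →
      u.1 = v.1 ∨ v.1 = L.lam u.1 ∨ v.1 = mu (fun i => decide (¬ e i 0)) u.1 := by
    rintro ⟨⟨i, p⟩, s⟩ ⟨⟨j, q⟩, t⟩ hab
    have hab' := hF hab
    rcases hab' with ⟨h1, h3 | h3⟩ | ⟨h1, -⟩ | ⟨-, -, h1⟩
    · right; right
      simp only at h1 h3
      subst h1
      obtain ⟨h4, rfl⟩ := hoct _ _ _ _ _ hab h3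
      exact (hmu i p h4).1.symm
    · right; right
      simp only at h1 h3
      subst h1
      obtain ⟨h4, rfl⟩ := hoct _ _ _ _ _ hab.symm h3
      exact (hmu i q h4).2.symm
    · left; exact h1
    · right; left; exact h1.symm
  have hwalk : ∀ u v : (I × Fin 8) × Fin (K + 1), F.Walk u v →
      Relation.ReflTransGen (fun a b => b = L.lam a ∨
        b = mu (fun i => decide (¬ e i 0)) a) u.1 v.1 := by
    intro u v w
    induction w with
    | nil => exact Relation.ReflTransGen.refl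
    | cons hadj _ ih =>
      rcases hedge _ _ hadj with h | h
      · rw [h]; exact ih
      · exact Relation.ReflTransGen.head h ih
  intro x y
  obtain ⟨w⟩ := hconn (x, ⟨0, K.succ_pos⟩) (y, ⟨0, K.succ_pos⟩)
  exact hwalk _ _ w

end

end Pool.Agent.Work.MP_f63b47_lc
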