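import Pool.Agent.Work.MP_f63b47_lc.SubHam

/-!
Hamiltonian cycles of octagons with gadgets: construction.
-/

set_option autoImplicit false

namespace Pool.Agent.Work.MP_f63b47_lc

open SimpleGraph

/-- The order of the vertices of a Hamiltonian path of a gadget and the attached path. -/
theorem exists_order (g : Gadget) (e : Fin g.r) (h : ∃ p : g.F.Walk e g.c, p.IsHamiltonian) :
    ∃ φ : ℕ → ℕ, Function.Injective φ ∧ (∀ s, φ s < g.r ↔ s < g.r) ∧ φ 0 = e ∧
      (∀ s, g.r ≤ s → φ s = s) ∧ ∀ s, g.Ray.Adj (φ s) (φ (s + 1)) := by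
  obtain ⟨p, hp⟩ := h
  have hr : 0 < g.r := e.pos
  have hlen : p.length = g.r - 1 := by
    rw [hp.length_eq, Fintype.card_fin]
  have hlt : ∀ s, s < g.r → ((p.getVert s : Fin g.r) : ℕ) < g.r := fun s _ => (p.getVert s).2
  refine ⟨fun s => if s < g.r then ((p.getVert s : Fin g.r) : ℕ) else s, ?_, ?_, ?_, ?_, ?_⟩
  · intro s t hst
    simp only at hst
    by_cases hs : s < g.r <;> by_cases ht : t < g.r
    · rw [if_pos hs, if_pos ht] at hst
      exact hp.isPath.getVert_injOn (by simp only [Set.mem_ofPred_eq]; omega)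
        (by simp only [Set.mem_ofPred_eq]; omega) (Fin.ext hst)
    · rw [if_pos hs, if_neg ht] at hst
      have := hlt s hs
      omega
    · rw [if_neg hs, if_pos ht] at hst
      have := hlt t ht
      omega
    · rwa [if_neg hs, if_neg ht] at hst
  · intro s
    by_cases hs : s < g.r
    · simp only [hs, if_true, iff_true]
      exact hlt s hs
    · simp only [hs, if_false]
  · simp only [hr, if_true, Walk.getVert_zero]
  · intro s hs
    simp only [not_lt.2 hs, if_false]
  · intro s
    by_cases h1 : s + 1 < g.r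
    · have h2 : s < g.r := by omega
      simp only [h1, h2, if_true]
      refine Or.inl ⟨hlt s h2, hlt _ h1, ?_⟩
      exact p.adj_getVert_succ (by omega)
    · by_cases h2 : s < g.r
      · simp only [h1, h2, if_true, if_false]
        refine Or.inr (Or.inl ⟨?_, by omega⟩)
        have h3 : s = p.length := by omega
        rw [h3, Walk.getVert_length]
      · simp only [h1, h2, if_false]
        exact Or.inr (Or.inr (Or.inr (Or.inl ⟨by omega, rfl⟩)))

theorem gg_ham_backward {I : Type} [Fintype I] [DecidableEq I] [Nonempty I] (L : Link I)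
    (G : Fin 8 → Gadget) {K : ℕ} (hK : ∀ p, (G p).r < K) (σ : I → Bool) (h : PortConn L σ) :
    HasHamCycle (GG L G K) := by
  classical
  have hK1 : 1 ≤ K := by have := hK 0; omega
  have hfac : HasHamCycle (fac L σ K) := by
    rw [hasHamCycle_iff]
    exact ⟨fac L σ K, le_rfl, fac_ncard L σ hK1, fac_preconnected L σ h⟩
  have hex : ∀ (p : Fin 8) (d : Bool), ∃ φ : ℕ → ℕ, Function.Injective φ ∧
      (∀ s, φ s < (G p).r ↔ s < (G p).r) ∧ (φ 0 = if d then ((G p).b : ℕ) else ((G p).a : ℕ)) ∧
      (∀ s, (G p).r ≤ s → φ s = s) ∧ ∀ s, (G p).Ray.Adj (φ s) (φ (s + 1)) := by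
    intro p d
    cases d
    · exact exists_order (G p) (G p).a (G p).ha
    · exact exists_order (G p) (G p).b (G p).hb
  choose φ hinj hlt h0 hge hadj using hex
  have hle : ∀ p d s, s ≤ K → φ p d s ≤ K := by
    intro p d s hs
    by_cases h1 : s < (G p).r
    · have := (hlt p d s).2 h1
      have := hK p
      omega
    · rw [hge p d s (by omega)]
      exact hs
  let d : I × Fin 8 → Bool := fun x => decide ((mu σ x).2 = x.2 + 1)
  let Φ : (I × Fin 8) × Fin (K + 1) → (I × Fin 8) × Fin (K + 1) := fun u =>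
    (u.1, ⟨φ u.1.2 (d u.1) u.2, Nat.lt_succ_of_le (hle _ _ _ (Nat.lt_succ_iff.1 u.2.2))⟩)
  have hΦ : Function.Injective Φ := by
    rintro ⟨x, s⟩ ⟨y, t⟩ he
    have h1 : x = y := congrArg Prod.fst he
    subst h1
    have h2 : φ x.2 (d x) s = φ x.2 (d x) t := congrArg (fun z => ((Prod.snd z : Fin (K + 1)) : ℕ)) he
    exact Prod.ext rfl (Fin.ext (hinj _ _ h2))
  have hoct : ∀ x, (OctE G x.2 (φ x.2 (d x) 0) (mu σ x).2 (φ (mu σ x).2 (d (mu σ x)) 0) ∨
      OctE G (mu σ x).2 (φ (mu σ x).2 (d (mu σ x)) 0) x.2 (φ x.2 (d x) 0)) := by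
    intro x
    have hm : mu σ (mu σ x) = x := mu_mu σ x
    by_cases hx : (mu σ x).2 = x.2 + 1
    · left
      have h1 : d x = true := decide_eq_true hx
      have h2 : d (mu σ x) = false := by
        apply decide_eq_false
        rw [hm, hx]
        exact fun h => add2_ne x.2 h.symm
      refine ⟨hx, ?_, ?_⟩
      · rw [h0, h1]; rfl
      · rw [h0, h2]; rfl
    · right
      have h1 : d x = false := decide_eq_false hx
      have h3 : x.2 = (mu σ x).2 + 1 := by
        have h4 : (mu σ x).2 = m8 (σ x.1) x.2 := rfl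
        rw [h4] at hx ⊢
        exact (m8_eq (σ x.1) x.2).resolve_left hx
      have h2 : d (mu σ x) = true := by
        apply decide_eq_true
        rw [hm]
        exact h3
      refine ⟨h3, ?_, ?_⟩
      · rw [h0, h2]; rfl
      · rw [h0, h1]; rfl
  have hhom : ∀ u v, (fac L σ K).Adj u v → (GG L G K).Adj (Φ u) (Φ v) := by
    rintro ⟨x, s⟩ ⟨y, t⟩ (⟨h1, h3, h4⟩ | ⟨h1, h3⟩ | ⟨h1, h3, h4⟩)
    · simp only at h1 h3 h4
      subst h4
      refine Or.inl ⟨rfl, ?_⟩
      simp only [Φ, h1, h3]
      exact hoct x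
    · simp only at h1 h3
      subst h1
      refine Or.inr (Or.inl ⟨rfl, ?_⟩)
      simp only [Φ]
      rcases h3 with h3 | h3
      · rw [h3]
        exact hadj _ _ _
      · rw [h3]
        exact (hadj _ _ _).symm
    · simp only at h1 h3 h4
      refine Or.inr (Or.inr ⟨?_, ?_, h4⟩)
      · simp only [Φ, h1]
        exact hge _ _ _ (hK _).le
      · simp only [Φ, h3]
        exact hge _ _ _ (hK _).le
  exact hasHamCycle_of_iso' (⟨Φ, fun {u v} h => hhom u v h⟩ : fac L σ K →g GG L G K)
    (Finite.injective_iff_bijective.1 hΦ) hfac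

/-- Octagons with gadgets, joined by paths, have a Hamiltonian cycle if and only if the choices in
the octagons can be made such that a single circuit results. -/
theorem gg_ham {I : Type} [Fintype I] [DecidableEq I] [Nonempty I] (L : Link I)
    (G : Fin 8 → Gadget) {K : ℕ} (hK : ∀ p, (G p).r < K) :
    HasHamCycle (GG L G K) ↔ ∃ σ : I → Bool, PortConn L σ :=
  ⟨gg_ham_forward G L hK, fun ⟨σ, h⟩ => gg_ham_backward L G hK σ h⟩

end Pool.Agent.Work.MP_f63b47_lc
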